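import Pool.Agent.Lib.IWC.Stmts

/-!
M7d: Burkholder's inequality `p^(2-p) (x + y)^(p-1) (x/(p-1) - y) ≤ (x/(p-1))^p - y^p`
for `1 < p < 2`, `x, y ≥ 0`.
-/

set_option autoImplicit false

namespace Pool.Agent.Lib.IWC

namespace Bur_

/-- the case `y ≤ a = 1` -/
theorem one {p b : ℝ} (hp1 : 1 < p) (hp2 : p < 2) (hb : 0 ≤ b) (hb1 : b ≤ 1) :
    p * (((p - 1) + b) / p) ^ (p - 1) * (1 - b) ≤ 1 - b ^ p := by
  have hp : 0 < p := by linarith
  have h1 : (((p - 1) + b) / p) ^ (p - 1) ≤ 1 + (p - 1) * (-((1 - b) / p)) := by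
    have h2 := rpow_one_add_le_one_add_mul_self (s := -((1 - b) / p))
      (by
        have : (1 - b) / p ≤ 1 := by
          rw [div_le_one hp]; linarith
        linarith) (p := p - 1) (by linarith) (by linarith)
    have h3 : 1 + -((1 - b) / p) = ((p - 1) + b) / p := by field_simp; ring
    rwa [h3] at h2
  have h4 : b ^ p ≤ (2 - p) * b + (p - 1) * b ^ 2 := by
    have h5 := Real.geom_mean_le_arith_mean2_weighted (w₁ := 2 - p) (w₂ := p - 1) (p₁ := b)
      (p₂ := b ^ 2) (by linarith) (by linarith) hb (sq_nonneg b) (by ring)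
    refine le_trans (le_of_eq ?_) h5
    rcases eq_or_lt_of_le hb with h0 | h0
    · rw [← h0, Real.zero_rpow hp.ne', Real.zero_rpow (by linarith : (2 : ℝ) - p ≠ 0), zero_mul]
    · rw [← Real.rpow_natCast b 2, ← Real.rpow_mul hb, ← Real.rpow_add h0]
      congr 1
      push_cast
      ring
  have h6 : p * (((p - 1) + b) / p) ^ (p - 1) * (1 - b) ≤
      p * (1 + (p - 1) * (-((1 - b) / p))) * (1 - b) :=
    mul_le_mul_of_nonneg_right (mul_le_mul_of_nonneg_left h1 hp.le) (by linarith)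
  have h7 : p * (1 + (p - 1) * (-((1 - b) / p))) * (1 - b) =
      1 - ((2 - p) * b + (p - 1) * b ^ 2) := by
    field_simp
    ring
  linarith

/-- the case `a ≤ y = 1` -/
theorem two {p c : ℝ} (hp1 : 1 < p) (hp2 : p < 2) (hc : 0 ≤ c) (hc1 : c ≤ 1) :
    1 - c ^ p ≤ p * (((p - 1) * c + 1) / p) ^ (p - 1) * (1 - c) := by
  have hp : 0 < p := by linarith
  have h1 : ((p - 1) * c ^ (p - 1) + 1) / p ≤ (((p - 1) * c + 1) / p) ^ (p - 1) := by
    have hp3 : 0 < p - 1 := by linarith
    have h2 := (Real.concaveOn_rpow (p := p - 1) (by linarith) (by linarith)).2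
      (show c ∈ Set.Ici (0 : ℝ) from hc) (show (1 : ℝ) ∈ Set.Ici (0 : ℝ) from Set.mem_Ici.2 zero_le_one)
      (show 0 ≤ (p - 1) / p by positivity) (show 0 ≤ 1 / p by positivity)
      (by field_simp; ring)
    simp only [smul_eq_mul, Real.one_rpow, mul_one] at h2
    have h3 : (p - 1) / p * c + 1 / p = ((p - 1) * c + 1) / p := by field_simp
    have h4 : (p - 1) / p * c ^ (p - 1) + 1 / p = ((p - 1) * c ^ (p - 1) + 1) / p := by
      field_simp
    rwa [h3, h4] at h2
  have h5 : c ≤ (p - 1) * c ^ (p - 1) + (2 - p) * c ^ p := by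
    have h6 := Real.geom_mean_le_arith_mean2_weighted (w₁ := p - 1) (w₂ := 2 - p)
      (p₁ := c ^ (p - 1)) (p₂ := c ^ p) (by linarith) (by linarith)
      (Real.rpow_nonneg hc _) (Real.rpow_nonneg hc _) (by ring)
    refine le_trans (le_of_eq ?_) h6
    rcases eq_or_lt_of_le hc with h0 | h0
    · rw [← h0, Real.zero_rpow hp.ne', Real.zero_rpow (by linarith : p - 1 ≠ 0),
        Real.zero_rpow (by linarith : (2 : ℝ) - p ≠ 0), mul_zero]
    · rw [← Real.rpow_mul hc, ← Real.rpow_mul hc, ← Real.rpow_add h0]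
      rw [show (p - 1) * (p - 1) + p * (2 - p) = 1 by ring, Real.rpow_one]
  have h8 : c ^ p = c ^ (p - 1) * c := by
    rcases eq_or_lt_of_le hc with h0 | h0
    · rw [← h0, Real.zero_rpow hp.ne', mul_zero]
    · rw [← Real.rpow_add_one h0.ne']; congr 1; ring
  have h9 : p * (((p - 1) * c ^ (p - 1) + 1) / p) * (1 - c) ≤
      p * (((p - 1) * c + 1) / p) ^ (p - 1) * (1 - c) :=
    mul_le_mul_of_nonneg_right (mul_le_mul_of_nonneg_left h1 hp.le) (by linarith)
  have h10 : p * (((p - 1) * c ^ (p - 1) + 1) / p) * (1 - c) =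
      (p - 1) * c ^ (p - 1) - (p - 1) * (c ^ (p - 1) * c) + 1 - c := by
    field_simp
    ring
  nlinarith

/-- the homogeneous form: `p m^(p-1) (a - y) ≤ a^p - y^p`, `m = ((p-1) a + y)/p` -/
theorem hom {p a y : ℝ} (hp1 : 1 < p) (hp2 : p < 2) (ha : 0 ≤ a) (hy : 0 ≤ y) :
    p * (((p - 1) * a + y) / p) ^ (p - 1) * (a - y) ≤ a ^ p - y ^ p := by
  have hp : 0 < p := by linarith
  have hp3 : 0 < p - 1 := by linarith
  rcases le_or_gt y a with h | h
  · rcases eq_or_lt_of_le ha with h0 | h0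
    · have : y = 0 := le_antisymm (h.trans h0.symm.le) hy
      subst this
      rw [← h0]
      simp
    · have h1 := one hp1 hp2 (div_nonneg hy ha) ((div_le_one h0).2 h)
      have h2 : ((p - 1) * a + y) / p = a * (((p - 1) + y / a) / p) := by field_simp
      have h3 : 0 ≤ ((p - 1) + y / a) / p := by positivity
      have h4 : a ^ p = a ^ (p - 1) * a := by
        rw [← Real.rpow_add_one h0.ne']; congr 1; ring
      have h5 : (y / a) ^ p = y ^ p / a ^ p := Real.div_rpow hy ha p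
      rw [h2, Real.mul_rpow ha h3]
      have h6 : 0 < a ^ p := Real.rpow_pos_of_pos h0 _
      have h7 := mul_le_mul_of_nonneg_left h1 h6.le
      rw [h5] at h7
      have h8 : a ^ p * (1 - y ^ p / a ^ p) = a ^ p - y ^ p := by field_simp
      rw [h8] at h7
      refine le_trans (le_of_eq ?_) h7
      rw [h4]
      field_simp
  · have h0 : 0 < y := lt_of_le_of_lt ha h
    have h1 := two hp1 hp2 (div_nonneg ha hy) ((div_le_one h0).2 h.le)
    have h2 : ((p - 1) * a + y) / p = y * (((p - 1) * (a / y) + 1) / p) := by field_simp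
    have h3 : 0 ≤ ((p - 1) * (a / y) + 1) / p := by positivity
    have h4 : y ^ p = y ^ (p - 1) * y := by
      rw [← Real.rpow_add_one h0.ne']; congr 1; ring
    have h5 : (a / y) ^ p = a ^ p / y ^ p := Real.div_rpow ha hy p
    rw [h2, Real.mul_rpow hy h3]
    have h6 : 0 < y ^ p := Real.rpow_pos_of_pos h0 _
    have h7 := mul_le_mul_of_nonneg_left h1 h6.le
    rw [h5] at h7
    have h8 : y ^ p * (1 - a ^ p / y ^ p) = y ^ p - a ^ p := by field_simp
    rw [h8] at h7
    have h9 : p * (y ^ (p - 1) * (((p - 1) * (a / y) + 1) / p) ^ (p - 1)) * (a - y) =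
        -(y ^ p * (p * (((p - 1) * (a / y) + 1) / p) ^ (p - 1) * (1 - a / y))) := by
      rw [h4]
      field_simp
      ring
    rw [h9]
    linarith

end Bur_

theorem stmtBur : StmtBur := by
  intro p x y hp1 hp2 hx hy
  have hp : 0 < p := by linarith
  have hp3 : 0 < p - 1 := by linarith
  have h1 := Bur_.hom hp1 hp2 (div_nonneg hx hp3.le) hy
  have h2 : (p - 1) * (x / (p - 1)) + y = x + y := by field_simp
  rw [h2] at h1
  refine le_trans (le_of_eq ?_) h1
  rw [Real.div_rpow (add_nonneg hx hy) hp.le]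
  have h3 : p ^ (2 - p) * p ^ (p - 1) = p := by
    rw [← Real.rpow_add hp, show 2 - p + (p - 1) = 1 by ring, Real.rpow_one]
  have h4 : 0 < p ^ (p - 1) := Real.rpow_pos_of_pos hp _
  have h5 : p ^ (2 - p) = p / p ^ (p - 1) := by
    rw [eq_div_iff h4.ne']; exact h3
  rw [h5]
  field_simp

end Pool.Agent.Lib.IWC
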