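import Pool.Agent.Lib.IWC.Sym58

/-!
IWC, M2b: the difference quotients.
-/

set_option autoImplicit false

namespace Pool.Agent.Lib.IWC

open MeasureTheory Filter Topology Set
open scoped ENNReal

namespace Dif58_

open Sym58_

/-- the symbol of the difference quotient of `A` -/
noncomputable def qS (κ t : ℝ) (e ξ : ℂ) : ℂ :=
  (((2 - 2 * Real.cos (2 * Real.pi * (t * dot e ξ))) / t ^ 2 / den κ ξ : ℝ) : ℂ)

theorem dot_smul (t : ℝ) (e ξ : ℂ) : dot ((t : ℂ) * e) ξ = t * dot e ξ := by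
  unfold dot; simp; ring

theorem dot_neg' (e ξ : ℂ) : dot (-e) ξ = - dot e ξ := by
  unfold dot; simp; ring

theorem trS_eq (v ξ : ℂ) : trS v ξ = Complex.cos ((2 * Real.pi * dot v ξ : ℝ) : ℂ) +
    Complex.sin ((2 * Real.pi * dot v ξ : ℝ) : ℂ) * Complex.I := by
  rw [trS, ← Complex.exp_mul_I]
  congr 1; push_cast; ring

theorem qS_eq {κ t : ℝ} (hκ : 0 < κ) (ht : t ≠ 0) (e ξ : ℂ) :
    qS κ t e ξ = (((t ^ 2)⁻¹ : ℝ) : ℂ) * ((2 * aS κ ξ - trS ((t : ℂ) * e) ξ * aS κ ξ) -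
      trS (-((t : ℂ) * e)) ξ * aS κ ξ) := by
  have hd : (den κ ξ : ℂ) ≠ 0 := by exact_mod_cast (den_pos' hκ ξ).ne'
  have ht' : (t : ℂ) ≠ 0 := by exact_mod_cast ht
  rw [trS_eq, trS_eq, dot_neg', dot_smul, qS, aS]
  have h1 : ((2 * Real.pi * -(t * dot e ξ) : ℝ) : ℂ) =
      -((2 * Real.pi * (t * dot e ξ) : ℝ) : ℂ) := by push_cast; ring
  rw [h1, Complex.cos_neg, Complex.sin_neg]
  push_cast
  field_simp
  ring

theorem qS_bound {κ t : ℝ} (hκ : 0 < κ) (ht : t ≠ 0) (e ξ : ℂ) : ‖qS κ t e ξ‖ ≤ ‖e‖ ^ 2 := by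
  have hd := den_pos' hκ ξ
  have ht2 : 0 < t ^ 2 := by positivity
  have hc := Real.cos_le_one (2 * Real.pi * (t * dot e ξ))
  have hc2 := Real.one_sub_sq_div_two_le_cos (x := 2 * Real.pi * (t * dot e ξ))
  have h0 : 0 ≤ (2 - 2 * Real.cos (2 * Real.pi * (t * dot e ξ))) / t ^ 2 / den κ ξ := by
    apply div_nonneg (div_nonneg (by linarith) ht2.le) hd.le
  rw [qS, Complex.norm_real, Real.norm_of_nonneg h0, div_le_iff₀ hd, div_le_iff₀ ht2]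
  have h1 := dot_sq_le e ξ
  have h2 : 0 ≤ ‖e‖ ^ 2 * κ ^ 2 * t ^ 2 := by positivity
  have h3 : 4 * Real.pi ^ 2 * dot e ξ ^ 2 * t ^ 2 ≤
      4 * Real.pi ^ 2 * (‖e‖ ^ 2 * ‖ξ‖ ^ 2) * t ^ 2 :=
    mul_le_mul_of_nonneg_right (mul_le_mul_of_nonneg_left h1 (by positivity)) ht2.le
  unfold den
  nlinarith

theorem qS_meas (κ t : ℝ) (e : ℂ) : Measurable (qS κ t e) := by
  unfold qS
  refine Complex.measurable_ofReal.comp (Measurable.div (Measurable.div ?_ measurable_const)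
    (meas_den κ))
  exact measurable_const.sub (measurable_const.mul (Real.measurable_cos.comp
    (measurable_const.mul (measurable_const.mul (meas_dot e)))))

theorem cos_lim (a : ℝ) (t : ℕ → ℝ) (ht : ∀ k, t k ≠ 0) (h0 : Tendsto t atTop (𝓝 0)) :
    Tendsto (fun k => (2 - 2 * Real.cos (t k * a)) / t k ^ 2) atTop (𝓝 (a ^ 2)) := by
  have hs : HasDerivAt (fun x : ℝ => Real.sin (x * (a / 2))) (a / 2) 0 := by
    have h1 : HasDerivAt (fun x : ℝ => x * (a / 2)) (a / 2) 0 := by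
      simpa using (hasDerivAt_id (0 : ℝ)).mul_const (a / 2)
    have h2 := h1.sin
    simpa using h2
  have h3 := hs.tendsto_slope_zero
  have h4 : Tendsto t atTop (𝓝[≠] 0) := by
    rw [tendsto_nhdsWithin_iff]
    exact ⟨h0, Eventually.of_forall ht⟩
  have h5 := h3.comp h4
  have h6 : Tendsto (fun k => (2 * ((t k)⁻¹ * Real.sin (t k * (a / 2)))) ^ 2) atTop
      (𝓝 ((2 * (a / 2)) ^ 2)) := by
    refine Tendsto.pow (Tendsto.const_mul 2 ?_) 2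
    simpa [Function.comp_def] using h5
  have e1 : (2 * (a / 2)) ^ 2 = a ^ 2 := by ring
  rw [e1] at h6
  refine h6.congr fun k => ?_
  have hk := ht k
  have h7 : Real.cos (t k * a) = 1 - 2 * Real.sin (t k * (a / 2)) ^ 2 := by
    have := Real.cos_two_mul' (t k * (a / 2))
    have e2 : 2 * (t k * (a / 2)) = t k * a := by ring
    rw [e2] at this
    have h8 := Real.sin_sq_add_cos_sq (t k * (a / 2))
    linarith
  rw [h7]
  field_simp
  ring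

end Dif58_

open Dif58_ Sym58_ in
/-- (M2b) -/
theorem stmtDif58 : StmtDif := by
  intro κ hκ e h t ht h0
  have ba := bd_aS hκ
  have hk : (0 : ℝ) ≤ 1 / κ ^ 2 := by positivity
  have key : ∀ s : ℝ, s ≠ 0 → dq s e (A κ h) = Mu (qS κ s e) h := by
    intro s hs
    have e1 : Mu (fun ξ => trS ((s : ℂ) * e) ξ * aS κ ξ) h = tr ((s : ℂ) * e) (A κ h) :=
      (stmtMuAlg _ _ _ _ zero_le_one hk (bd_trS' _) ba h).2.2.1
    have e2 : Mu (fun ξ => trS (-((s : ℂ) * e)) ξ * aS κ ξ) h = tr (-((s : ℂ) * e)) (A κ h) :=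
      (stmtMuAlg _ _ _ _ zero_le_one hk (bd_trS' _) ba h).2.2.1
    have e3 : Mu (fun ξ => 2 * aS κ ξ) h = (2 : ℂ) • A κ h :=
      (stmtMuAlg _ _ _ _ hk hk ba ba h).2.2.2.1 2
    have b1 : ∀ v : ℂ, Bd (fun ξ => trS v ξ * aS κ ξ) (1 / κ ^ 2) := fun v =>
      ⟨(bd_trS' v).1.mul ba.1, fun ξ => by
        rw [norm_mul]
        calc ‖trS v ξ‖ * ‖aS κ ξ‖ ≤ 1 * (1 / κ ^ 2) :=
              mul_le_mul ((bd_trS' v).2 ξ) (ba.2 ξ) (norm_nonneg _) zero_le_one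
          _ = 1 / κ ^ 2 := one_mul _⟩
    have b2 : Bd (fun ξ => 2 * aS κ ξ) (2 * (1 / κ ^ 2)) :=
      ⟨measurable_const.mul ba.1, fun ξ => by
        rw [norm_mul]
        have : ‖(2 : ℂ)‖ = 2 := by simp
        rw [this]
        exact mul_le_mul_of_nonneg_left (ba.2 ξ) zero_le_two⟩
    have e4 := (stmtMuAlg _ _ _ _ (by positivity) hk b2 (b1 ((s : ℂ) * e)) h).2.1
    have b3 : Bd (fun ξ => 2 * aS κ ξ - trS ((s : ℂ) * e) ξ * aS κ ξ)
        (2 * (1 / κ ^ 2) + 1 / κ ^ 2) :=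
      ⟨b2.1.sub (b1 _).1, fun ξ => (norm_sub_le _ _).trans (add_le_add (b2.2 ξ) ((b1 _).2 ξ))⟩
    have e5 := (stmtMuAlg _ _ _ _ (by positivity) hk b3 (b1 (-((s : ℂ) * e))) h).2.1
    have b4 : Bd (fun ξ => (2 * aS κ ξ - trS ((s : ℂ) * e) ξ * aS κ ξ) -
        trS (-((s : ℂ) * e)) ξ * aS κ ξ) (2 * (1 / κ ^ 2) + 1 / κ ^ 2 + 1 / κ ^ 2) :=
      ⟨b3.1.sub (b1 _).1, fun ξ => (norm_sub_le _ _).trans (add_le_add (b3.2 ξ) ((b1 _).2 ξ))⟩
    have e6 := (stmtMuAlg _ _ _ _ (by positivity) (by positivity) b4 b4 h).2.2.2.1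
      (((s ^ 2)⁻¹ : ℝ) : ℂ)
    have e7 : qS κ s e = fun ξ => (((s ^ 2)⁻¹ : ℝ) : ℂ) *
        ((2 * aS κ ξ - trS ((s : ℂ) * e) ξ * aS κ ξ) - trS (-((s : ℂ) * e)) ξ * aS κ ξ) := by
      ext ξ; exact qS_eq hκ hs e ξ
    rw [e7, e6, e5, e4, e3, e2, e1]
    rfl
  have lim : ∀ ξ : ℂ, Tendsto (fun k => qS κ (t k) e ξ) atTop (𝓝 (dS κ e ξ)) := by
    intro ξ
    have h1 := cos_lim (2 * Real.pi * dot e ξ) t ht h0
    have h2 := h1.div_const (den κ ξ)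
    have h3 := (Complex.continuous_ofReal.tendsto _).comp h2
    have e1 : (((2 * Real.pi * dot e ξ) ^ 2 / den κ ξ : ℝ) : ℂ) = dS κ e ξ := by
      rw [dS]; congr 2; ring
    rw [e1] at h3
    refine h3.congr fun k => ?_
    rw [qS, Function.comp_apply]
    congr 5; ring
  have := stmtMuLim (fun k => qS κ (t k) e) (dS κ e) (‖e‖ ^ 2) (by positivity)
    (fun k => ⟨qS_meas κ (t k) e, fun ξ => qS_bound hκ (ht k) e ξ⟩) (bd_dS hκ e) lim h
  refine this.congr fun k => ?_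
  rw [key (t k) (ht k)]

end Pool.Agent.Lib.IWC
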