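import Pool.Agent.Lib.IWC.Stmts

/-!
M7: the function `Lf` of Šverák, Baernstein and Montgomery-Smith: elementary inequalities and
the superposition integral.
-/

set_option autoImplicit false

namespace Pool.Agent.Lib.IWC

open MeasureTheory Filter Topology Set

namespace Lf_

theorem low (x y : ℝ) (_hx : 0 ≤ x) (hy : 0 ≤ y) : 2 * x - 1 ≤ Lf x y := by
  unfold Lf
  split_ifs with h
  · nlinarith [mul_nonneg (show 0 ≤ 1 - x - y by linarith) (show 0 ≤ 1 - x + y by linarith)]
  · exact le_rfl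

theorem low2 (x y : ℝ) (_hx : 0 ≤ x) (hx1 : x ≤ 1) (hy : 0 ≤ y) : x ^ 2 - y ^ 2 ≤ Lf x y := by
  unfold Lf
  split_ifs with h
  · exact le_rfl
  · push Not at h
    nlinarith [mul_nonneg (show 0 ≤ x + y - 1 by linarith) (show 0 ≤ y + (1 - x) by linarith)]

theorem abs_le (x y : ℝ) (hx : 0 ≤ x) (hy : 0 ≤ y) : |Lf x y| ≤ 4 * (x ^ 2 + y ^ 2) := by
  unfold Lf
  split_ifs with h
  · rw [_root_.abs_le]
    constructor <;> nlinarith [sq_nonneg x, sq_nonneg y]
  · push Not at h
    have h1 : 1 ≤ 2 * (x ^ 2 + y ^ 2) := by nlinarith [sq_nonneg (x - y)]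
    rw [_root_.abs_le]
    constructor
    · linarith
    · nlinarith [sq_nonneg (2 * x - 1), sq_nonneg y]

theorem meas : Measurable (fun z : ℝ × ℝ => Lf z.1 z.2) := by
  unfold Lf
  refine Measurable.ite ?_ ?_ ?_
  · exact measurableSet_le (measurable_fst.add measurable_snd) measurable_const
  · exact (measurable_fst.pow_const 2).sub (measurable_snd.pow_const 2)
  · exact (measurable_fst.const_mul 2).sub_const 1

end Lf_

theorem stmtLf : StmtLf := ⟨Lf_.low, Lf_.low2, Lf_.abs_le, Lf_.meas⟩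

namespace Lf_

/-- the integrand for small `t` -/
theorem small {p x y t : ℝ} (ht : 0 < t) (h : t < x + y) :
    t ^ (p - 1) * Lf (x / t) (y / t) = 2 * x * t ^ (p - 2) - t ^ (p - 1) := by
  have h1 : ¬ (x / t + y / t ≤ 1) := by
    rw [← add_div, div_le_one ht]; linarith
  unfold Lf
  rw [if_neg h1]
  have h2 : t ^ (p - 1) = t ^ (p - 2) * t := by
    rw [← Real.rpow_add_one ht.ne']; congr 1; ring
  rw [h2]
  field_simp

/-- the integrand for large `t` -/
theorem large {p x y t : ℝ} (ht : 0 < t) (h : x + y ≤ t) :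
    t ^ (p - 1) * Lf (x / t) (y / t) = (x ^ 2 - y ^ 2) * t ^ (p - 3) := by
  have h1 : x / t + y / t ≤ 1 := by
    rw [← add_div, div_le_one ht]; linarith
  unfold Lf
  rw [if_pos h1]
  have h2 : t ^ (p - 1) = t ^ (p - 3) * t ^ 2 := by
    rw [← Real.rpow_natCast t 2, ← Real.rpow_add ht]; congr 1; push_cast; ring
  rw [h2]
  field_simp

theorem ne_ae (r : ℝ) : ∀ᵐ t : ℝ, t ≠ r := by
  rw [ae_iff]
  simp

theorem int_small {r s : ℝ} (hr : 0 ≤ r) (hs : -1 < s) :
    IntegrableOn (fun t : ℝ => t ^ s) (Ioc 0 r) ∧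
      ∫ t in Ioc (0 : ℝ) r, t ^ s = r ^ (s + 1) / (s + 1) := by
  have h1 : IntervalIntegrable (fun t : ℝ => t ^ s) volume 0 r :=
    intervalIntegral.intervalIntegrable_rpow' hs
  refine ⟨(intervalIntegrable_iff_integrableOn_Ioc_of_le hr).1 h1, ?_⟩
  rw [← intervalIntegral.integral_of_le hr, integral_rpow (Or.inl hs)]
  rw [Real.zero_rpow (by linarith : s + 1 ≠ 0), sub_zero]

end Lf_

open Lf_

theorem stmtSpp : StmtSpp := by
  intro p x y hp1 hp2 hx hy
  rcases eq_or_lt_of_le (add_nonneg hx hy) with h0 | h0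
  · have hx0 : x = 0 := by linarith
    have hy0 : y = 0 := by linarith
    subst hx0; subst hy0
    have h1 : (fun t : ℝ => t ^ (p - 1) * Lf (0 / t) (0 / t)) = fun _ => 0 := by
      funext t
      unfold Lf
      simp
    rw [h1]
    refine ⟨integrableOn_zero, ?_⟩
    rw [integral_zero, add_zero, Real.zero_rpow (by linarith : p - 1 ≠ 0)]
    ring
  have hU : Ioc (0 : ℝ) (x + y) ∪ Ioi (x + y) = Ioi 0 := Ioc_union_Ioi_eq_Ioi h0.le
  have hD : Disjoint (Ioc (0 : ℝ) (x + y)) (Ioi (x + y)) := by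
    rw [Set.disjoint_left]
    intro t h1 h2
    exact absurd h1.2 (not_le.2 h2)
  -- small part
  obtain ⟨a1, a2⟩ := int_small h0.le (show (-1 : ℝ) < p - 2 by linarith)
  obtain ⟨b1, b2⟩ := int_small h0.le (show (-1 : ℝ) < p - 1 by linarith)
  have e1 : ∀ᵐ t ∂(volume.restrict (Ioc (0 : ℝ) (x + y))),
      2 * x * t ^ (p - 2) - t ^ (p - 1) = t ^ (p - 1) * Lf (x / t) (y / t) := by
    have hne : ∀ᵐ t ∂(volume.restrict (Ioc (0 : ℝ) (x + y))), t ≠ x + y :=
      ae_restrict_of_ae (Lf_.ne_ae (x + y))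
    filter_upwards [ae_restrict_mem measurableSet_Ioc, hne] with t ht hne
    exact (small ht.1 (lt_of_le_of_ne ht.2 hne)).symm
  have i1 : IntegrableOn (fun t : ℝ => t ^ (p - 1) * Lf (x / t) (y / t)) (Ioc 0 (x + y)) :=
    ((a1.const_mul (2 * x)).sub b1).congr e1
  have j1 : ∫ t in Ioc (0 : ℝ) (x + y), t ^ (p - 1) * Lf (x / t) (y / t) =
      2 * x * ((x + y) ^ (p - 1) / (p - 1)) - (x + y) ^ p / p := by
    rw [← integral_congr_ae e1, integral_sub (a1.const_mul (2 * x)) b1, integral_const_mul, a2, b2,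
      show p - 2 + 1 = p - 1 by ring, show p - 1 + 1 = p by ring]
  -- large part
  have c1 : IntegrableOn (fun t : ℝ => t ^ (p - 3)) (Ioi (x + y)) :=
    integrableOn_Ioi_rpow_of_lt (by linarith) h0
  have c2 : ∫ t in Ioi (x + y), t ^ (p - 3) = -(x + y) ^ (p - 3 + 1) / (p - 3 + 1) :=
    integral_Ioi_rpow_of_lt (by linarith) h0
  have e2 : ∀ᵐ t ∂(volume.restrict (Ioi (x + y))),
      (x ^ 2 - y ^ 2) * t ^ (p - 3) = t ^ (p - 1) * Lf (x / t) (y / t) := by
    filter_upwards [ae_restrict_mem measurableSet_Ioi] with t ht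
    exact (large (h0.trans ht) (le_of_lt ht)).symm
  have i2 : IntegrableOn (fun t : ℝ => t ^ (p - 1) * Lf (x / t) (y / t)) (Ioi (x + y)) :=
    (c1.const_mul _).congr e2
  have j2 : ∫ t in Ioi (x + y), t ^ (p - 1) * Lf (x / t) (y / t) =
      (x ^ 2 - y ^ 2) * ((x + y) ^ (p - 2) / (2 - p)) := by
    rw [← integral_congr_ae e2, integral_const_mul, c2]
    rw [show p - 3 + 1 = p - 2 by ring, show (2 - p : ℝ) = -(p - 2) by ring, div_neg, neg_div]
  rw [← hU]
  refine ⟨i1.union i2, ?_⟩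
  rw [setIntegral_union hD measurableSet_Ioi i1 i2, j1, j2]
  have f1 : (x + y) ^ p = (x + y) ^ (p - 1) * (x + y) := by
    rw [← Real.rpow_add_one h0.ne']; congr 1; ring
  have f2 : (x + y) ^ (p - 1) = (x + y) ^ (p - 2) * (x + y) := by
    rw [← Real.rpow_add_one h0.ne']; congr 1; ring
  rw [f1, f2]
  have g1 : p - 1 ≠ 0 := by linarith
  have g2 : 2 - p ≠ 0 := by linarith
  have g3 : p ≠ 0 := by linarith
  field_simp
  ring

theorem stmtSppB : StmtSppB := by
  intro p hp1 hp2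
  refine ⟨2 / (p - 1) + 1 / p + 1 / (2 - p), ?_, ?_⟩
  · have : 0 < p - 1 := by linarith
    have : 0 < 2 - p := by linarith
    positivity
  intro x y hx hy
  rcases eq_or_lt_of_le (add_nonneg hx hy) with h0 | h0
  · have hx0 : x = 0 := by linarith
    have hy0 : y = 0 := by linarith
    subst hx0; subst hy0
    have h1 : (fun t : ℝ => ENNReal.ofReal (t ^ (p - 1) * |Lf (0 / t) (0 / t)|)) = fun _ => 0 := by
      funext t
      unfold Lf
      simp
    rw [h1]
    simp
  have hU : Ioc (0 : ℝ) (x + y) ∪ Ioi (x + y) = Ioi 0 := Ioc_union_Ioi_eq_Ioi h0.le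
  obtain ⟨a1, a2⟩ := int_small h0.le (show (-1 : ℝ) < p - 2 by linarith)
  obtain ⟨b1, b2⟩ := int_small h0.le (show (-1 : ℝ) < p - 1 by linarith)
  have c1 : IntegrableOn (fun t : ℝ => t ^ (p - 3)) (Ioi (x + y)) :=
    integrableOn_Ioi_rpow_of_lt (by linarith) h0
  have c2 : ∫ t in Ioi (x + y), t ^ (p - 3) = -(x + y) ^ (p - 3 + 1) / (p - 3 + 1) :=
    integral_Ioi_rpow_of_lt (by linarith) h0
  have k1 : ∫⁻ t in Ioc (0 : ℝ) (x + y), ENNReal.ofReal (t ^ (p - 1) * |Lf (x / t) (y / t)|) ≤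
      ENNReal.ofReal (2 * (x + y) * ((x + y) ^ (p - 1) / (p - 1)) + (x + y) ^ p / p) := by
    have hi : Integrable (fun t : ℝ => 2 * (x + y) * t ^ (p - 2) + t ^ (p - 1))
        (volume.restrict (Ioc (0 : ℝ) (x + y))) := (a1.const_mul _).add b1
    have hv : ∫ t in Ioc (0 : ℝ) (x + y), (2 * (x + y) * t ^ (p - 2) + t ^ (p - 1)) =
        2 * (x + y) * ((x + y) ^ (p - 1) / (p - 1)) + (x + y) ^ p / p := by
      rw [integral_add (a1.const_mul _) b1, integral_const_mul, a2, b2,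
        show p - 2 + 1 = p - 1 by ring, show p - 1 + 1 = p by ring]
    rw [← hv, ofReal_integral_eq_lintegral_ofReal hi]
    · refine lintegral_mono_ae ?_
      have hne : ∀ᵐ t ∂(volume.restrict (Ioc (0 : ℝ) (x + y))), t ≠ x + y :=
        ae_restrict_of_ae (Lf_.ne_ae (x + y))
      filter_upwards [ae_restrict_mem measurableSet_Ioc, hne] with t ht hne
      have hpos : 0 < t ^ (p - 1) := Real.rpow_pos_of_pos ht.1 _
      have hpos2 : 0 < t ^ (p - 2) := Real.rpow_pos_of_pos ht.1 _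
      refine ENNReal.ofReal_le_ofReal ?_
      rw [← abs_of_pos hpos, ← abs_mul, abs_of_pos hpos, small ht.1 (lt_of_le_of_ne ht.2 hne)]
      refine (abs_sub _ _).trans ?_
      rw [abs_of_pos hpos, abs_of_nonneg (by positivity)]
      nlinarith [mul_nonneg hy hpos2.le]
    · filter_upwards [ae_restrict_mem measurableSet_Ioc] with t ht
      have hpos : 0 < t ^ (p - 1) := Real.rpow_pos_of_pos ht.1 _
      have hpos2 : 0 < t ^ (p - 2) := Real.rpow_pos_of_pos ht.1 _
      positivity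
  have k2 : ∫⁻ t in Ioi (x + y), ENNReal.ofReal (t ^ (p - 1) * |Lf (x / t) (y / t)|) ≤
      ENNReal.ofReal ((x + y) ^ 2 * ((x + y) ^ (p - 2) / (2 - p))) := by
    have hi : Integrable (fun t : ℝ => (x + y) ^ 2 * t ^ (p - 3))
        (volume.restrict (Ioi (x + y))) := c1.const_mul _
    have hv : ∫ t in Ioi (x + y), (x + y) ^ 2 * t ^ (p - 3) =
        (x + y) ^ 2 * ((x + y) ^ (p - 2) / (2 - p)) := by
      rw [integral_const_mul, c2]
      rw [show p - 3 + 1 = p - 2 by ring, show (2 - p : ℝ) = -(p - 2) by ring, div_neg, neg_div]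
    rw [← hv, ofReal_integral_eq_lintegral_ofReal hi]
    · refine lintegral_mono_ae ?_
      filter_upwards [ae_restrict_mem measurableSet_Ioi] with t ht
      have ht0 : 0 < t := h0.trans ht
      have hpos : 0 < t ^ (p - 1) := Real.rpow_pos_of_pos ht0 _
      have hpos2 : 0 < t ^ (p - 3) := Real.rpow_pos_of_pos ht0 _
      refine ENNReal.ofReal_le_ofReal ?_
      rw [← abs_of_pos hpos, ← abs_mul, large ht0 (le_of_lt ht), abs_mul, abs_of_pos hpos2]
      refine mul_le_mul_of_nonneg_right ?_ hpos2.le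
      rw [_root_.abs_le]
      constructor <;> nlinarith [mul_nonneg hx hy, sq_nonneg x, sq_nonneg y]
    · filter_upwards [ae_restrict_mem measurableSet_Ioi] with t ht
      have hpos2 : 0 < t ^ (p - 3) := Real.rpow_pos_of_pos (h0.trans ht) _
      positivity
  rw [← hU]
  refine (lintegral_union_le _ _ _).trans ((add_le_add k1 k2).trans ?_)
  rw [← ENNReal.ofReal_add]
  · refine ENNReal.ofReal_le_ofReal (le_of_eq ?_)
    have f1 : (x + y) ^ p = (x + y) ^ (p - 1) * (x + y) := by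
      rw [← Real.rpow_add_one h0.ne']; congr 1; ring
    have f2 : (x + y) ^ (p - 1) = (x + y) ^ (p - 2) * (x + y) := by
      rw [← Real.rpow_add_one h0.ne']; congr 1; ring
    rw [f1, f2]
    have g1 : p - 1 ≠ 0 := by linarith
    have g2 : 2 - p ≠ 0 := by linarith
    have g3 : p ≠ 0 := by linarith
    field_simp
  · have : 0 < p - 1 := by linarith
    positivity
  · have : 0 < 2 - p := by linarith
    positivity

end Pool.Agent.Lib.IWC
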