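import Pool.Agent.Lib.IWC.Stmts

/-!
Fourier multipliers with bounded symbols on `L²(ℂ)` (module M1).
-/

set_option autoImplicit false

namespace Pool.Agent.Lib.IWC

open MeasureTheory Filter Topology Set FourierTransform SchwartzMap
open scoped SchwartzMap ENNReal ContDiff ComplexInnerProductSpace

/-! ### The multiplication operator -/

theorem Bd.memLp {m : ℂ → ℂ} {C : ℝ} (hm : Bd m C) (f : H) :
    MemLp (fun ξ => m ξ * f ξ) 2 volume := by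
  refine MemLp.of_le_mul (c := C) (Lp.memLp f) ?_ ?_
  · exact hm.1.aestronglyMeasurable.mul (Lp.aestronglyMeasurable f)
  · refine Eventually.of_forall fun ξ => ?_
    rw [norm_mul]
    exact mul_le_mul_of_nonneg_right (hm.2 ξ) (norm_nonneg _)

theorem mulH_coe {m : ℂ → ℂ} {C : ℝ} (hm : Bd m C) (f : H) :
    (mulH m f : ℂ → ℂ) =ᵐ[volume] fun ξ => m ξ * f ξ := by
  have h := hm.memLp f
  rw [mulH, dif_pos h]
  exact MemLp.coeFn_toLp h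

theorem mulH_norm {m : ℂ → ℂ} {C : ℝ} (hm : Bd m C) (f : H) : ‖mulH m f‖ ≤ C * ‖f‖ := by
  refine Lp.norm_le_mul_norm_of_ae_le_mul ?_
  filter_upwards [mulH_coe hm f] with ξ h1
  rw [h1, norm_mul]
  exact mul_le_mul_of_nonneg_right (hm.2 ξ) (norm_nonneg _)

theorem mulH_add {m : ℂ → ℂ} {C : ℝ} (hm : Bd m C) (f g : H) :
    mulH m (f + g) = mulH m f + mulH m g := by
  apply Lp.ext
  filter_upwards [mulH_coe hm (f + g), mulH_coe hm f, mulH_coe hm g, Lp.coeFn_add f g,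
    Lp.coeFn_add (mulH m f) (mulH m g)] with ξ h1 h2 h3 h4 h5
  rw [h1, h5, h4, Pi.add_apply, Pi.add_apply, h2, h3, mul_add]

theorem mulH_sub {m : ℂ → ℂ} {C : ℝ} (hm : Bd m C) (f g : H) :
    mulH m (f - g) = mulH m f - mulH m g := by
  apply Lp.ext
  filter_upwards [mulH_coe hm (f - g), mulH_coe hm f, mulH_coe hm g, Lp.coeFn_sub f g,
    Lp.coeFn_sub (mulH m f) (mulH m g)] with ξ h1 h2 h3 h4 h5
  rw [h1, h5, h4, Pi.sub_apply, Pi.sub_apply, h2, h3, mul_sub]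

theorem mulH_smul {m : ℂ → ℂ} {C : ℝ} (hm : Bd m C) (c : ℂ) (f : H) :
    mulH m (c • f) = c • mulH m f := by
  apply Lp.ext
  filter_upwards [mulH_coe hm (c • f), mulH_coe hm f, Lp.coeFn_smul c f,
    Lp.coeFn_smul c (mulH m f)] with ξ h1 h2 h3 h4
  rw [h1, h4, h3, Pi.smul_apply, Pi.smul_apply, h2, smul_eq_mul, smul_eq_mul]
  ring

theorem Bd.conj {m : ℂ → ℂ} {C : ℝ} (hm : Bd m C) : Bd (fun ξ => starRingEnd ℂ (m ξ)) C := by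
  refine ⟨Complex.continuous_conj.measurable.comp hm.1, fun ξ => ?_⟩
  have : ‖starRingEnd ℂ (m ξ)‖ = ‖m ξ‖ := RCLike.norm_conj _
  rw [this]
  exact hm.2 ξ

theorem Bd.add {m n : ℂ → ℂ} {C D : ℝ} (hm : Bd m C) (hn : Bd n D) :
    Bd (fun ξ => m ξ + n ξ) (C + D) :=
  ⟨hm.1.add hn.1, fun ξ => (norm_add_le _ _).trans (add_le_add (hm.2 ξ) (hn.2 ξ))⟩

theorem Bd.sub {m n : ℂ → ℂ} {C D : ℝ} (hm : Bd m C) (hn : Bd n D) :
    Bd (fun ξ => m ξ - n ξ) (C + D) :=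
  ⟨hm.1.sub hn.1, fun ξ => (norm_sub_le _ _).trans (add_le_add (hm.2 ξ) (hn.2 ξ))⟩

theorem Bd.mul {m n : ℂ → ℂ} {C D : ℝ} (hm : Bd m C) (hn : Bd n D) (hC : 0 ≤ C) :
    Bd (fun ξ => m ξ * n ξ) (C * D) :=
  ⟨hm.1.mul hn.1, fun ξ => by
    rw [norm_mul]
    exact mul_le_mul (hm.2 ξ) (hn.2 ξ) (norm_nonneg _) hC⟩

theorem Bd.smul {m : ℂ → ℂ} {C : ℝ} (hm : Bd m C) (c : ℂ) :
    Bd (fun ξ => c * m ξ) (‖c‖ * C) :=
  ⟨hm.1.const_mul c, fun ξ => by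
    rw [norm_mul]
    exact mul_le_mul_of_nonneg_left (hm.2 ξ) (norm_nonneg _)⟩

theorem Bd.one : Bd (fun _ => (1 : ℂ)) 1 := ⟨measurable_const, fun _ => by simp⟩

theorem mulH_inner {m : ℂ → ℂ} {C : ℝ} (hm : Bd m C) (f g : H) :
    ⟪mulH m f, g⟫ = ⟪f, mulH (fun ξ => starRingEnd ℂ (m ξ)) g⟫ := by
  rw [L2.inner_def, L2.inner_def]
  refine integral_congr_ae ?_
  filter_upwards [mulH_coe hm f, mulH_coe hm.conj g] with ξ h1 h2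
  rw [h1, h2]
  simp only [RCLike.inner_apply, map_mul]
  ring

/-! ### The Fourier multipliers -/

theorem Fo_add (f g : H) : 𝓕 (f + g) = 𝓕 f + 𝓕 g := (Lp.fourierTransformₗᵢ ℂ ℂ).map_add f g

theorem Fo_sub (f g : H) : 𝓕 (f - g) = 𝓕 f - 𝓕 g := (Lp.fourierTransformₗᵢ ℂ ℂ).map_sub f g

theorem Fo_smul (c : ℂ) (f : H) : 𝓕 (c • f) = c • 𝓕 f :=
  (Lp.fourierTransformₗᵢ ℂ ℂ).map_smul c f

theorem Fi_add (f g : H) : 𝓕⁻ (f + g) = 𝓕⁻ f + 𝓕⁻ g :=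
  (Lp.fourierTransformₗᵢ ℂ ℂ).symm.map_add f g

theorem Fi_sub (f g : H) : 𝓕⁻ (f - g) = 𝓕⁻ f - 𝓕⁻ g :=
  (Lp.fourierTransformₗᵢ ℂ ℂ).symm.map_sub f g

theorem Fi_smul (c : ℂ) (f : H) : 𝓕⁻ (c • f) = c • 𝓕⁻ f :=
  (Lp.fourierTransformₗᵢ ℂ ℂ).symm.map_smul c f

theorem Fi_norm (f : H) : ‖𝓕⁻ f‖ = ‖f‖ := (Lp.fourierTransformₗᵢ ℂ ℂ).symm.norm_map f

theorem Fo_norm (f : H) : ‖𝓕 f‖ = ‖f‖ := (Lp.fourierTransformₗᵢ ℂ ℂ).norm_map f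

theorem Fo_Fi (f : H) : 𝓕 (𝓕⁻ f) = f := (Lp.fourierTransformₗᵢ ℂ ℂ).apply_symm_apply f

theorem Fi_Fo (f : H) : 𝓕⁻ (𝓕 f) = f := (Lp.fourierTransformₗᵢ ℂ ℂ).symm_apply_apply f

theorem Fo_inner (f g : H) : ⟪𝓕 f, 𝓕 g⟫ = ⟪f, g⟫ :=
  (Lp.fourierTransformₗᵢ ℂ ℂ).inner_map_map f g

theorem Fi_inner (f g : H) : ⟪𝓕⁻ f, g⟫ = ⟪f, 𝓕 g⟫ := by
  rw [← Fo_inner (𝓕⁻ f) g, Fo_Fi]

theorem Fo_inner_left (f g : H) : ⟪𝓕 f, g⟫ = ⟪f, 𝓕⁻ g⟫ := by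
  rw [← Fo_inner f (𝓕⁻ g), Fo_Fi]

theorem Fo_Mu (m : ℂ → ℂ) (f : H) : 𝓕 (Mu m f) = mulH m (𝓕 f) := by
  rw [Mu, Fo_Fi]

/-- (M1a) -/
theorem stmtMu : StmtMu := by
  intro m C hC hm f g
  refine ⟨?_, ?_, ?_, ?_, ?_⟩
  · rw [Mu, Mu, Mu, Fo_add, mulH_add hm, Fi_add]
  · rw [Mu, Mu, Mu, Fo_sub, mulH_sub hm, Fi_sub]
  · intro c
    rw [Mu, Mu, Fo_smul, mulH_smul hm, Fi_smul]
  · rw [Mu, Fi_norm]
    refine (mulH_norm hm _).trans ?_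
    rw [Fo_norm]
  · rw [Mu, Mu, Fi_inner, mulH_inner hm, Fo_inner_left]

/-- (M1b) -/
theorem stmtMuAlg : StmtMuAlg := by
  intro m n C D hC hD hm hn f
  refine ⟨?_, ?_, ?_, ?_, ?_⟩
  · rw [Mu, Mu, Mu, ← Fi_add]
    congr 1
    apply Lp.ext
    filter_upwards [mulH_coe (hm.add hn) (𝓕 f), mulH_coe hm (𝓕 f), mulH_coe hn (𝓕 f),
      Lp.coeFn_add (mulH m (𝓕 f)) (mulH n (𝓕 f))] with ξ h1 h2 h3 h4
    rw [h1, h4, Pi.add_apply, h2, h3, add_mul]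
  · rw [Mu, Mu, Mu, ← Fi_sub]
    congr 1
    apply Lp.ext
    filter_upwards [mulH_coe (hm.sub hn) (𝓕 f), mulH_coe hm (𝓕 f), mulH_coe hn (𝓕 f),
      Lp.coeFn_sub (mulH m (𝓕 f)) (mulH n (𝓕 f))] with ξ h1 h2 h3 h4
    rw [h1, h4, Pi.sub_apply, h2, h3, sub_mul]
  · rw [Mu, Mu, Fo_Mu]
    congr 1
    apply Lp.ext
    filter_upwards [mulH_coe (hm.mul hn hC) (𝓕 f), mulH_coe hn (𝓕 f),
      mulH_coe hm (mulH n (𝓕 f))] with ξ h1 h2 h3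
    rw [h1, h3, h2, mul_assoc]
  · intro c
    rw [Mu, Mu, ← Fi_smul]
    congr 1
    apply Lp.ext
    filter_upwards [mulH_coe (hm.smul c) (𝓕 f), mulH_coe hm (𝓕 f),
      Lp.coeFn_smul c (mulH m (𝓕 f))] with ξ h1 h2 h3
    rw [h1, h3, Pi.smul_apply, h2, smul_eq_mul, mul_assoc]
  · rw [Mu]
    have : mulH (fun _ => (1 : ℂ)) (𝓕 f) = 𝓕 f := by
      apply Lp.ext
      filter_upwards [mulH_coe Bd.one (𝓕 f)] with ξ h1
      rw [h1, one_mul]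
    rw [this, Fi_Fo]

theorem H_norm_sq (f : H) : ‖f‖ ^ 2 = ∫ x, ‖(f : ℂ → ℂ) x‖ ^ 2 := by
  have h1 : (⟪f, f⟫ : ℂ) = ((‖f‖ ^ 2 : ℝ) : ℂ) := by
    rw [inner_self_eq_norm_sq_to_K]
    norm_cast
  have h2 : (⟪f, f⟫ : ℂ) = ((∫ x, ‖(f : ℂ → ℂ) x‖ ^ 2 : ℝ) : ℂ) := by
    rw [L2.inner_def, ← integral_complex_ofReal]
    refine integral_congr_ae (Eventually.of_forall fun x => ?_)
    simp only
    rw [inner_self_eq_norm_sq_to_K]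
    norm_cast
  exact_mod_cast h1.symm.trans h2

theorem H_sq_integrable (f : H) : Integrable (fun x => ‖(f : ℂ → ℂ) x‖ ^ 2) volume :=
  (memLp_two_iff_integrable_sq_norm (Lp.aestronglyMeasurable f)).1 (Lp.memLp f)

/-- (M1c) -/
theorem stmtMuLim : StmtMuLim := by
  intro m n C hC hm hn hlim f
  rw [tendsto_iff_norm_sub_tendsto_zero]
  have key : ∀ k, ‖Mu (m k) f - Mu n f‖ = ‖mulH (fun ξ => m k ξ - n ξ) (𝓕 f)‖ := by
    intro k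
    rw [Mu, Mu, ← Fi_sub, Fi_norm]
    congr 1
    apply Lp.ext
    filter_upwards [mulH_coe ((hm k).sub hn) (𝓕 f), mulH_coe (hm k) (𝓕 f), mulH_coe hn (𝓕 f),
      Lp.coeFn_sub (mulH (m k) (𝓕 f)) (mulH n (𝓕 f))] with ξ h1 h2 h3 h4
    rw [h1, h4, Pi.sub_apply, h2, h3, sub_mul]
  have hsq : Tendsto (fun k => ‖mulH (fun ξ => m k ξ - n ξ) (𝓕 f)‖ ^ 2) atTop (𝓝 0) := by
    have e1 : ∀ k, ‖mulH (fun ξ => m k ξ - n ξ) (𝓕 f)‖ ^ 2 =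
        ∫ ξ, (‖m k ξ - n ξ‖ * ‖(𝓕 f : H) ξ‖) ^ 2 := by
      intro k
      rw [H_norm_sq]
      refine integral_congr_ae ?_
      filter_upwards [mulH_coe ((hm k).sub hn) (𝓕 f)] with ξ h1
      rw [h1, norm_mul]
    simp only [e1]
    have e0 : (0 : ℝ) = ∫ _ξ : ℂ, (0 : ℝ) := by simp
    rw [e0]
    refine tendsto_integral_of_dominated_convergence
      (fun ξ => (C + C) ^ 2 * ‖(𝓕 f : H) ξ‖ ^ 2) ?_ ?_ ?_ ?_
    · intro k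
      exact (((((hm k).1.sub hn.1).norm).aestronglyMeasurable).mul
        (Lp.aestronglyMeasurable (𝓕 f)).norm).pow 2
    · exact (H_sq_integrable (𝓕 f)).const_mul _
    · intro k
      refine Eventually.of_forall fun ξ => ?_
      rw [Real.norm_eq_abs, abs_of_nonneg (by positivity), mul_pow]
      refine mul_le_mul_of_nonneg_right ?_ (by positivity)
      exact pow_le_pow_left₀ (norm_nonneg _) (((hm k).sub hn).2 ξ) 2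
    · refine Eventually.of_forall fun ξ => ?_
      have h1 : Tendsto (fun k => ‖m k ξ - n ξ‖) atTop (𝓝 0) :=
        tendsto_iff_norm_sub_tendsto_zero.1 (hlim ξ)
      have h2 := (h1.mul_const ‖(𝓕 f : H) ξ‖).pow 2
      simpa using h2
  have h3 := hsq.sqrt
  simp only [Real.sqrt_zero] at h3
  refine h3.congr fun k => ?_
  rw [Real.sqrt_sq (norm_nonneg _), key k]

/-- (M1d) -/
theorem stmtMuPos : StmtMuPos := by
  intro m C hC hm hpos f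
  have h1 : (⟪Mu (fun ξ => (m ξ : ℂ)) f, f⟫ : ℂ) =
      ((∫ ξ, m ξ * ‖(𝓕 f : H) ξ‖ ^ 2 : ℝ) : ℂ) := by
    rw [Mu, Fi_inner, L2.inner_def, ← integral_complex_ofReal]
    refine integral_congr_ae ?_
    filter_upwards [mulH_coe hm (𝓕 f)] with ξ h2
    rw [h2]
    simp only [RCLike.inner_apply, map_mul, Complex.conj_ofReal]
    have h3 : (𝓕 f : H) ξ * starRingEnd ℂ ((𝓕 f : H) ξ) = ((‖(𝓕 f : H) ξ‖ ^ 2 : ℝ) : ℂ) := by
      rw [Complex.mul_conj, Complex.normSq_eq_norm_sq]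
    push_cast at h3 ⊢
    rw [← h3]
    ring
  rw [h1, Complex.ofReal_re]
  exact integral_nonneg fun ξ => mul_nonneg (hpos ξ) (by positivity)

end Pool.Agent.Lib.IWC
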