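import Pool.Agent.Lib.IWC.Mul

/-!
Translations and Schwartz functions (module M1).
-/

set_option autoImplicit false

namespace Pool.Agent.Lib.IWC

open MeasureTheory Filter Topology Set FourierTransform SchwartzMap
open scoped SchwartzMap ENNReal ContDiff ComplexInnerProductSpace

/-! ### Schwartz functions -/

theorem den_pos {κ : ℝ} (hκ : 0 < κ) (ξ : ℂ) : 0 < den κ ξ := by
  have : 0 < κ ^ 2 := by positivity
  have h2 : 0 ≤ 4 * Real.pi ^ 2 * ‖ξ‖ ^ 2 := by positivity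
  unfold den
  linarith

theorem tg_conj : Function.HasTemperateGrowth (fun ξ : ℂ => starRingEnd ℂ ξ) := by
  have h := (Complex.conjCLE.toContinuousLinearMap).hasTemperateGrowth
  exact h

theorem tg_den (κ : ℝ) :
    Function.HasTemperateGrowth (fun ξ : ℂ => (1 + ‖((2 * Real.pi / κ : ℝ) : ℂ) * ξ‖ ^ 2) ^ (-1 : ℝ)) := by
  have h := Function.hasTemperateGrowth_one_add_norm_sq_rpow ℂ (-1)
  have h2 : Function.HasTemperateGrowth (fun ξ : ℂ => ((2 * Real.pi / κ : ℝ) : ℂ) * ξ) := by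
    fun_prop
  exact h.comp h2

theorem sS_eq {κ : ℝ} (hκ : 0 < κ) (ξ : ℂ) :
    sS κ ξ = ((4 * (Real.pi : ℂ) ^ 2 / (κ : ℂ) ^ 2) * (starRingEnd ℂ ξ) ^ 2) *
      (((1 + ‖((2 * Real.pi / κ : ℝ) : ℂ) * ξ‖ ^ 2) ^ (-1 : ℝ) : ℝ) : ℂ) := by
  have h1 : (1 + ‖((2 * Real.pi / κ : ℝ) : ℂ) * ξ‖ ^ 2) = den κ ξ / κ ^ 2 := by
    unfold den
    rw [norm_mul, Complex.norm_real, Real.norm_eq_abs, abs_of_pos (by positivity)]
    field_simp
    ring
  rw [h1, Real.rpow_neg_one, sS]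
  have h2 := (den_pos hκ ξ).ne'
  have h3 : ((den κ ξ : ℝ) : ℂ) ≠ 0 := by exact_mod_cast h2
  have h4 : (κ : ℂ) ≠ 0 := by exact_mod_cast hκ.ne'
  push_cast
  field_simp

theorem tg_sS {κ : ℝ} (hκ : 0 < κ) : Function.HasTemperateGrowth (sS κ) := by
  have e : sS κ = fun ξ : ℂ => ((4 * (Real.pi : ℂ) ^ 2 / (κ : ℂ) ^ 2) * (starRingEnd ℂ ξ) ^ 2) *
      (((1 + ‖((2 * Real.pi / κ : ℝ) : ℂ) * ξ‖ ^ 2) ^ (-1 : ℝ) : ℝ) : ℂ) := funext (sS_eq hκ)
  rw [e]
  have h1 := tg_den κ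
  have h2 := tg_conj
  have h3 : Function.HasTemperateGrowth (fun ξ : ℂ =>
      (((1 + ‖((2 * Real.pi / κ : ℝ) : ℂ) * ξ‖ ^ 2) ^ (-1 : ℝ) : ℝ) : ℂ)) :=
    Function.HasTemperateGrowth.comp Function.Complex.hasTemperateGrowth_ofReal h1
  exact ((Function.HasTemperateGrowth.const _).mul (h2.pow 2)).mul h3

theorem bd_sS {κ : ℝ} (hκ : 0 < κ) : Bd (sS κ) 1 := by
  refine ⟨?_, fun ξ => ?_⟩
  · exact (tg_sS hκ).1.continuous.measurable
  · have h := den_pos hκ ξ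
    rw [sS, norm_div, norm_mul, norm_mul, norm_pow, norm_pow]
    have h1 : ‖(4 : ℂ)‖ = 4 := by simp
    have h2 : ‖(Real.pi : ℂ)‖ = Real.pi := by
      rw [Complex.norm_real, Real.norm_eq_abs, abs_of_pos Real.pi_pos]
    have h3 : ‖starRingEnd ℂ ξ‖ = ‖ξ‖ := RCLike.norm_conj _
    have h4 : ‖((den κ ξ : ℝ) : ℂ)‖ = den κ ξ := by
      rw [Complex.norm_real, Real.norm_eq_abs, abs_of_pos h]
    rw [h1, h2, h3, h4, div_le_one h]
    unfold den
    have : 0 ≤ κ ^ 2 := by positivity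
    linarith

/-- A multiplier with a bounded symbol of temperate growth on Schwartz functions. -/
theorem Mu_toLp {m : ℂ → ℂ} {C : ℝ} (hm : Bd m C) (ht : m.HasTemperateGrowth) (φ : 𝓢(ℂ, ℂ)) :
    Mu m (φ.toLp 2) = (𝓕⁻ (SchwartzMap.smulLeftCLM ℂ m (𝓕 φ)) : 𝓢(ℂ, ℂ)).toLp 2 := by
  rw [Mu, SchwartzMap.toLp_fourier_eq, ← SchwartzMap.toLp_fourierInv_eq]
  congr 1
  apply Lp.ext
  filter_upwards [mulH_coe hm ((𝓕 φ).toLp 2), SchwartzMap.coeFn_toLp (𝓕 φ) 2 volume,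
    SchwartzMap.coeFn_toLp (SchwartzMap.smulLeftCLM ℂ m (𝓕 φ)) 2 volume] with ξ h1 h2 h3
  rw [h1, h2, h3, SchwartzMap.smulLeftCLM_apply_apply ht, smul_eq_mul]

theorem Sk_eq_schwartz {κ : ℝ} (hκ : 0 < κ) (φ : 𝓢(ℂ, ℂ)) (z : ℂ) :
    Sk κ φ z = (𝓕⁻ (SchwartzMap.smulLeftCLM ℂ (sS κ) (𝓕 φ)) : 𝓢(ℂ, ℂ)) z := by
  rw [Sk, SchwartzMap.fourierInv_coe]
  have e : (fun ξ : ℂ => sS κ ξ * (𝓕 φ : 𝓢(ℂ, ℂ)) ξ) =
      ⇑(SchwartzMap.smulLeftCLM ℂ (sS κ) (𝓕 φ) : 𝓢(ℂ, ℂ)) := by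
    funext ξ
    rw [SchwartzMap.smulLeftCLM_apply_apply (tg_sS hκ), smul_eq_mul]
  rw [← e]

/-! ### The translation -/

theorem bd_trS (v : ℂ) : Bd (trS v) 1 := by
  refine ⟨?_, fun ξ => ?_⟩
  · unfold trS dot
    have : Continuous fun ξ : ℂ => Complex.exp (2 * Real.pi * Complex.I *
        ((v.re * ξ.re + v.im * ξ.im : ℝ) : ℂ)) := by fun_prop
    exact this.measurable
  · rw [trS, show (2 * Real.pi * Complex.I * ((dot v ξ : ℝ) : ℂ) : ℂ) =
      ((2 * Real.pi * dot v ξ : ℝ) : ℂ) * Complex.I by push_cast; ring,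
      Complex.norm_exp_ofReal_mul_I]

/-- the Fourier transform of the translate -/
theorem fourier_translate (φ : 𝓢(ℂ, ℂ)) (v ξ : ℂ) :
    (𝓕 (φ.compSubConstCLM ℂ (-v)) : 𝓢(ℂ, ℂ)) ξ = trS v ξ * (𝓕 φ : 𝓢(ℂ, ℂ)) ξ := by
  rw [SchwartzMap.fourier_coe, SchwartzMap.fourier_coe, Real.fourier_eq', Real.fourier_eq']
  have h1 := integral_add_right_eq_self (μ := (volume : Measure ℂ))
    (fun x : ℂ => Complex.exp (((-2 * Real.pi * inner ℝ (x - v) ξ : ℝ) : ℂ) * Complex.I) • φ x) v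
  have h2 : ∀ x : ℂ, Complex.exp (((-2 * Real.pi * inner ℝ (x - v) ξ : ℝ) : ℂ) * Complex.I) =
      trS v ξ * Complex.exp (((-2 * Real.pi * inner ℝ x ξ : ℝ) : ℂ) * Complex.I) := by
    intro x
    have h3 : inner ℝ v ξ = dot v ξ := by
      rw [Complex.inner, dot]
      simp
      ring
    rw [trS, ← Complex.exp_add, inner_sub_left, h3]
    congr 1
    push_cast
    ring
  calc (∫ x : ℂ, Complex.exp (((-2 * Real.pi * inner ℝ x ξ : ℝ) : ℂ) * Complex.I) •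
        (φ.compSubConstCLM ℂ (-v)) x)
      = ∫ x : ℂ, Complex.exp (((-2 * Real.pi * inner ℝ (x + v - v) ξ : ℝ) : ℂ) * Complex.I) •
        φ (x + v) := by
        refine integral_congr_ae (Eventually.of_forall fun x => ?_)
        simp only [add_sub_cancel_right, SchwartzMap.compSubConstCLM_apply, sub_neg_eq_add]
    _ = ∫ x : ℂ, Complex.exp (((-2 * Real.pi * inner ℝ (x - v) ξ : ℝ) : ℂ) * Complex.I) • φ x := h1
    _ = ∫ x : ℂ, trS v ξ *
        (Complex.exp (((-2 * Real.pi * inner ℝ x ξ : ℝ) : ℂ) * Complex.I) • φ x) := by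
        refine integral_congr_ae (Eventually.of_forall fun x => ?_)
        simp only
        rw [h2 x, smul_eq_mul, smul_eq_mul, mul_assoc]
    _ = _ := integral_const_mul _ _

theorem tr_toLp (v : ℂ) (φ : 𝓢(ℂ, ℂ)) :
    tr v (φ.toLp 2) = (φ.compSubConstCLM ℂ (-v)).toLp 2 := by
  have h1 : mulH (trS v) (𝓕 (φ.toLp 2)) = 𝓕 ((φ.compSubConstCLM ℂ (-v)).toLp 2) := by
    rw [SchwartzMap.toLp_fourier_eq, SchwartzMap.toLp_fourier_eq]
    apply Lp.ext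
    filter_upwards [mulH_coe (bd_trS v) ((𝓕 φ).toLp 2), SchwartzMap.coeFn_toLp (𝓕 φ) 2 volume,
      SchwartzMap.coeFn_toLp (𝓕 (φ.compSubConstCLM ℂ (-v))) 2 volume] with ξ h1 h2 h3
    rw [h1, h2, h3, fourier_translate]
  rw [tr, Mu, h1, Fi_Fo]

/-- (M1e) -/
theorem stmtTr : StmtTr := by
  intro v f
  have hmp : MeasurePreserving (fun x : ℂ => x + v) volume volume :=
    measurePreserving_add_right volume v
  have key : tr v f = Lp.compMeasurePreserving (fun x : ℂ => x + v) hmp f := by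
    apply DenseRange.induction_on (p := fun f : H =>
      tr v f = Lp.compMeasurePreserving (fun x : ℂ => x + v) hmp f)
      (SchwartzMap.denseRange_toLpCLM (E := ℂ) (F := ℂ) (p := 2) (μ := volume)
        ENNReal.ofNat_ne_top) f
    · apply isClosed_eq
      · have hl : LipschitzWith 1 (fun f : H => tr v f) := by
          refine LipschitzWith.of_dist_le_mul fun f g => ?_
          rw [dist_eq_norm, dist_eq_norm, tr, tr,
            ← (stmtMu (trS v) 1 zero_le_one (bd_trS v) f g).2.1]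
          simpa using (stmtMu (trS v) 1 zero_le_one (bd_trS v) (f - g) g).2.2.2.1
        exact hl.continuous
      · exact (Lp.isometry_compMeasurePreserving hmp).continuous
    · intro φ
      rw [SchwartzMap.toLpCLM_apply, tr_toLp]
      apply Lp.ext
      filter_upwards [Lp.coeFn_compMeasurePreserving (φ.toLp 2) hmp,
        SchwartzMap.coeFn_toLp (φ.compSubConstCLM ℂ (-v)) 2 volume,
        hmp.quasiMeasurePreserving.ae (SchwartzMap.coeFn_toLp φ 2 volume)] with x h1 h2 h3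
      rw [h1, h2, Function.comp_apply, h3, SchwartzMap.compSubConstCLM_apply, sub_neg_eq_add]
  rw [key]
  filter_upwards [Lp.coeFn_compMeasurePreserving f hmp] with x h1
  rw [h1, Function.comp_apply]

/-- (M1f) -/
theorem stmtSch : StmtSch := by
  intro κ hκ φ
  refine ⟨?_, ⟨_, Sk_eq_schwartz hκ φ⟩⟩
  rw [S, Mu_toLp (bd_sS hκ) (tg_sS hκ)]
  filter_upwards [SchwartzMap.coeFn_toLp
    (𝓕⁻ (SchwartzMap.smulLeftCLM ℂ (sS κ) (𝓕 φ)) : 𝓢(ℂ, ℂ)) 2 volume] with x hx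
  rw [hx, Sk_eq_schwartz hκ]

end Pool.Agent.Lib.IWC
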