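import Pool.Agent.Lib.IWC.Stmts

/-!
# The obstacle problem (M5b)

`stmtObs`: from the solutions `g_ε` of the regularised problems to a solution of the obstacle
problem. The norms of the `g_ε` increase for `ε → 0` and are bounded by the norm of `φ`, and
`‖g_ε - g_δ‖² ≤ ‖g_δ‖² - ‖g_ε‖²` for `δ < ε`, hence `g_ε` converges in `L²`.
-/

set_option autoImplicit false

namespace Pool.Agent.Lib.IWC

open MeasureTheory Filter Topology Set FourierTransform SchwartzMap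
open scoped SchwartzMap ENNReal ContDiff ComplexInnerProductSpace

namespace Obs_

theorem nf_le {s : ℝ} (hs : 0 < s) (z : ℂ) : ‖Nf s z‖ ≤ 1 := by
  unfold Nf
  have h : 0 < max s ‖z‖ := lt_max_of_lt_left hs
  rw [norm_div, Complex.norm_real, Real.norm_of_nonneg h.le, div_le_one h]
  exact le_max_right _ _

/-- the pointwise variational inequality -/
theorem pt {ε : ℝ} (hε : 0 < ε) (a v : ℂ) (hv : ‖v‖ ≤ 1) :
    ((v - Nf ε a) * starRingEnd ℂ (a - (ε : ℂ) * Nf ε a)).re ≤ 0 := by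
  rcases le_or_gt ‖a‖ ε with h | h
  · have e : a - (ε : ℂ) * Nf ε a = 0 := by
      unfold Nf
      rw [max_eq_left h]
      have : (ε : ℂ) ≠ 0 := Complex.ofReal_ne_zero.2 hε.ne'
      field_simp
      ring
    rw [e, map_zero, mul_zero, Complex.zero_re]
  · have ha : 0 < ‖a‖ := hε.trans h
    have hac : ((‖a‖ : ℝ) : ℂ) ≠ 0 := Complex.ofReal_ne_zero.2 ha.ne'
    have e1 : Nf ε a = a / ((‖a‖ : ℝ) : ℂ) := by
      unfold Nf
      rw [max_eq_right h.le]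
    have hn : ‖Nf ε a‖ = 1 := by
      rw [e1, norm_div, Complex.norm_real, norm_norm, div_self ha.ne']
    have e : a - (ε : ℂ) * Nf ε a = ((‖a‖ - ε : ℝ) : ℂ) * Nf ε a := by
      have : a = ((‖a‖ : ℝ) : ℂ) * Nf ε a := by rw [e1]; field_simp
      rw [Complex.ofReal_sub, sub_mul, ← this]
    rw [e, map_mul, Complex.conj_ofReal]
    have e2 : (v - Nf ε a) * (((‖a‖ - ε : ℝ) : ℂ) * starRingEnd ℂ (Nf ε a)) =
        ((‖a‖ - ε : ℝ) : ℂ) * (v * starRingEnd ℂ (Nf ε a) - Nf ε a * starRingEnd ℂ (Nf ε a)) := by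
      ring
    rw [e2, Complex.re_ofReal_mul, Complex.mul_conj, Complex.normSq_eq_norm_sq, hn]
    refine mul_nonpos_of_nonneg_of_nonpos (sub_nonneg.2 h.le) ?_
    have h3 : (v * starRingEnd ℂ (Nf ε a)).re ≤ 1 := by
      refine (Complex.re_le_norm _).trans ?_
      rw [norm_mul, RCLike.norm_conj, hn, mul_one]
      exact hv
    simp only [Complex.sub_re, one_pow, Complex.ofReal_one, Complex.one_re]
    linarith

theorem inner_re (f g : H) :
    (⟪f, g⟫ : ℂ).re = ∫ x, ((g : ℂ → ℂ) x * starRingEnd ℂ ((f : ℂ → ℂ) x)).re := by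
  rw [L2.inner_def]
  have h := integral_re (L2.integrable_inner (𝕜 := ℂ) f g)
  simp only [RCLike.re_to_complex, RCLike.inner_apply] at h ⊢
  exact h.symm

/-- the variational inequality -/
theorem vi {ε : ℝ} (hε : 0 < ε) {g w v : H}
    (hg : ∀ᵐ x, (g : ℂ → ℂ) x = Nf ε ((w : ℂ → ℂ) x)) (hv : ∀ᵐ x, ‖(v : ℂ → ℂ) x‖ ≤ 1) :
    (⟪w - (ε : ℂ) • g, v - g⟫ : ℂ).re ≤ 0 := by
  rw [inner_re]
  refine integral_nonpos_of_ae ?_
  filter_upwards [hg, hv, Lp.coeFn_sub v g, Lp.coeFn_sub w ((ε : ℂ) • g),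
    Lp.coeFn_smul (ε : ℂ) g] with x h1 h2 h3 h4 h5
  rw [h3, h4]
  simp only [Pi.sub_apply, h5, Pi.smul_apply, smul_eq_mul, h1, Pi.zero_apply]
  exact pt hε _ _ h2

theorem lin (hMu : StmtMu) (hSym : StmtSym) {κ : ℝ} (hκ : 0 < κ) (f g : H) :
    A κ (f - g) = A κ f - A κ g ∧ ‖A κ f‖ ≤ 1 / κ ^ 2 * ‖f‖ := by
  have h := hMu (aS κ) (1 / κ ^ 2) (by positivity) (hSym κ hκ).1 f g
  exact ⟨h.2.1, h.2.2.2.1⟩

theorem den_pos {κ : ℝ} (hκ : 0 < κ) (ξ : ℂ) : 0 < den κ ξ := by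
  unfold den
  positivity

theorem pos (hPos : StmtMuPos) (hSym : StmtSym) {κ : ℝ} (hκ : 0 < κ) (f : H) :
    0 ≤ (⟪A κ f, f⟫ : ℂ).re :=
  hPos (fun ξ => 1 / den κ ξ) (1 / κ ^ 2) (by positivity) (hSym κ hκ).1
    (fun ξ => (div_pos one_pos (den_pos hκ ξ)).le) f

/-- the norms increase, and they control the differences -/
theorem diff (hMu : StmtMu) (hPos : StmtMuPos) (hSym : StmtSym) {κ : ℝ} (hκ : 0 < κ) {φ g k : H}
    {ε δ : ℝ} (hδ : 0 < δ) (hεδ : δ < ε)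
    (hg : ∀ᵐ x, (g : ℂ → ℂ) x = Nf ε ((A κ (φ - g) : ℂ → ℂ) x))
    (hk : ∀ᵐ x, (k : ℂ → ℂ) x = Nf δ ((A κ (φ - k) : ℂ → ℂ) x)) :
    ‖g - k‖ ^ 2 ≤ ‖k‖ ^ 2 - ‖g‖ ^ 2 := by
  have hε : 0 < ε := hδ.trans hεδ
  have bg : ∀ᵐ x, ‖(g : ℂ → ℂ) x‖ ≤ 1 := by
    filter_upwards [hg] with x hx
    rw [hx]; exact nf_le hε _
  have bk : ∀ᵐ x, ‖(k : ℂ → ℂ) x‖ ≤ 1 := by
    filter_upwards [hk] with x hx
    rw [hx]; exact nf_le hδ _
  have h1 := vi hε hg bk
  have h2 := vi hδ hk bg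
  have h3 := pos hPos hSym hκ (k - g)
  have e1 : A κ (φ - g) - A κ (φ - k) = A κ (k - g) := by
    rw [← (lin hMu hSym hκ (φ - g) (φ - k)).1]
    congr 1
    abel
  rw [← e1] at h3
  have e2 : (⟪g, g⟫ : ℂ).re = ‖g‖ ^ 2 := by
    have := inner_self_eq_norm_sq (𝕜 := ℂ) g
    simpa using this
  have e3 : (⟪k, k⟫ : ℂ).re = ‖k‖ ^ 2 := by
    have := inner_self_eq_norm_sq (𝕜 := ℂ) k
    simpa using this
  have e4 : (⟪k, g⟫ : ℂ).re = (⟪g, k⟫ : ℂ).re := by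
    have := inner_re_symm (𝕜 := ℂ) k g
    simpa using this
  have e5 : ‖g - k‖ ^ 2 = ‖g‖ ^ 2 - 2 * (⟪g, k⟫ : ℂ).re + ‖k‖ ^ 2 := by
    have := norm_sub_sq (𝕜 := ℂ) g k
    simpa using this
  simp only [inner_sub_left, inner_sub_right, inner_smul_left, Complex.sub_re,
    Complex.conj_ofReal, Complex.re_ofReal_mul, e2, e3, e4] at h1 h2 h3
  have h4 : ‖g‖ ^ 2 ≤ (⟪g, k⟫ : ℂ).re := by
    have h5 : 0 ≤ ‖g - k‖ ^ 2 := sq_nonneg _
    rw [e5] at h5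
    nlinarith [mul_nonneg hδ.le h5]
  rw [e5]
  linarith

/-- the bound of the norm -/
theorem bound (hTst : StmtTst) {κ : ℝ} (hκ : 0 < κ) {φ g : H} {ε : ℝ} (hε : 0 < ε)
    (hg : ∀ᵐ x, (g : ℂ → ℂ) x = Nf ε ((A κ (φ - g) : ℂ → ℂ) x)) : ‖g‖ ≤ ‖φ‖ := by
  have h1 := hTst κ hκ (φ - g) ε hε
  have h2 : ∫ x, (((φ - g : H) : ℂ → ℂ) x *
      starRingEnd ℂ (Nf ε ((A κ (φ - g) : ℂ → ℂ) x))).re = (⟪g, φ - g⟫ : ℂ).re := by
    rw [inner_re]
    apply integral_congr_ae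
    filter_upwards [hg] with x hx
    rw [hx]
  rw [h2, inner_sub_right, Complex.sub_re] at h1
  have e2 : (⟪g, g⟫ : ℂ).re = ‖g‖ ^ 2 := by
    have := inner_self_eq_norm_sq (𝕜 := ℂ) g
    simpa using this
  have h3 : (⟪g, φ⟫ : ℂ).re ≤ ‖g‖ * ‖φ‖ := by
    have := re_inner_le_norm (𝕜 := ℂ) g φ
    simpa using this
  rw [e2] at h1
  rcases (norm_nonneg g).eq_or_lt with h | h
  · rw [← h]; exact norm_nonneg _
  · nlinarith

end Obs_

open Obs_ in
theorem stmtObs (hE : StmtObsE) (hMu : StmtMu) (hPos : StmtMuPos) (hSym : StmtSym)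
    (hTst : StmtTst) : StmtObs := by
  intro κ hκ φ
  have hex : ∀ k : ℕ, ∃ g : H, ∀ᵐ x, (g : ℂ → ℂ) x =
      Nf (1 / ((k : ℝ) + 1)) ((A κ (φ - g) : ℂ → ℂ) x) :=
    fun k => hE κ (1 / ((k : ℝ) + 1)) hκ (by positivity) φ
  choose g hg using hex
  have hd : ∀ k l : ℕ, k ≤ l → ‖g k - g l‖ ^ 2 ≤ ‖g l‖ ^ 2 - ‖g k‖ ^ 2 := by
    intro k l hkl
    rcases hkl.eq_or_lt with h | h
    · rw [h, sub_self, norm_zero]; simp
    · refine diff hMu hPos hSym hκ (by positivity) ?_ (hg k) (hg l)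
      have : (k : ℝ) < l := by exact_mod_cast h
      exact one_div_lt_one_div_of_lt (by positivity) (by linarith)
  have hmono : Monotone fun k => ‖g k‖ ^ 2 := fun k l hkl => by
    have := hd k l hkl
    have := sq_nonneg ‖g k - g l‖
    simp only
    linarith
  have hbdd : BddAbove (range fun k => ‖g k‖ ^ 2) := by
    refine ⟨‖φ‖ ^ 2, ?_⟩
    rintro _ ⟨k, rfl⟩
    have := bound hTst hκ (by positivity) (hg k)
    simp only
    gcongr
  have hconv := tendsto_atTop_ciSup hmono hbdd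
  have hcs : CauchySeq fun k => ‖g k‖ ^ 2 := hconv.cauchySeq
  have hcg : CauchySeq g := by
    rw [Metric.cauchySeq_iff'] at hcs ⊢
    intro r hr
    obtain ⟨N, hN⟩ := hcs (r ^ 2) (by positivity)
    refine ⟨N, fun n hn => ?_⟩
    have h1 := hN n hn
    have h2 := hd N n hn
    rw [Real.dist_eq] at h1
    have h3 := (le_abs_self _).trans_lt h1
    rw [dist_comm, dist_eq_norm]
    have h4 : ‖g N - g n‖ ^ 2 < r ^ 2 := h2.trans_lt h3
    exact lt_of_pow_lt_pow_left₀ 2 hr.le h4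
  obtain ⟨G, hG⟩ := cauchySeq_tendsto_of_complete hcg
  have hA : Tendsto (fun k => A κ (φ - g k)) atTop (𝓝 (A κ (φ - G))) := by
    rw [tendsto_iff_norm_sub_tendsto_zero] at hG ⊢
    refine squeeze_zero (g := fun k => 1 / κ ^ 2 * ‖g k - G‖) (fun k => norm_nonneg _)
      (fun k => ?_) ?_
    · rw [← (lin hMu hSym hκ (φ - g k) (φ - G)).1]
      refine ((lin hMu hSym hκ _ 0).2).trans (le_of_eq ?_)
      have : φ - g k - (φ - G) = -(g k - G) := by abel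
      rw [this, norm_neg]
    · have h0 := hG.const_mul (1 / κ ^ 2)
      rwa [mul_zero] at h0
  -- subsequences
  obtain ⟨u, hu, hu'⟩ := (tendstoInMeasure_of_tendsto_Lp hG).exists_seq_tendsto_ae
  have hA' : Tendsto (fun k => A κ (φ - g (u k))) atTop (𝓝 (A κ (φ - G))) :=
    hA.comp hu.tendsto_atTop
  obtain ⟨v, hv, hv'⟩ := (tendstoInMeasure_of_tendsto_Lp hA').exists_seq_tendsto_ae
  have hall : ∀ᵐ x, ∀ k, (g k : ℂ → ℂ) x = Nf (1 / ((k : ℝ) + 1)) ((A κ (φ - g k) : ℂ → ℂ) x) :=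
    ae_all_iff.2 hg
  refine ⟨G, ?_, ?_⟩
  · filter_upwards [hu', hall] with x h1 h2
    refine le_of_tendsto h1.norm (Eventually.of_forall fun k => ?_)
    rw [h2]
    exact nf_le (by positivity) _
  · filter_upwards [hu', hv', hall] with x h1 h2 h3 h4
    have h5 := h1.comp hv.tendsto_atTop
    refine tendsto_nhds_unique h5 ?_
    have h6 : Tendsto (fun k => ((max (1 / (((u (v k) : ℕ) : ℝ) + 1))
        ‖(A κ (φ - g (u (v k))) : ℂ → ℂ) x‖ : ℝ) : ℂ)) atTop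
        (𝓝 ((‖(A κ (φ - G) : ℂ → ℂ) x‖ : ℝ) : ℂ)) := by
      refine (Complex.continuous_ofReal.tendsto _).comp ?_
      have h7 : Tendsto (fun k => 1 / (((u (v k) : ℕ) : ℝ) + 1)) atTop (𝓝 0) :=
        tendsto_one_div_add_atTop_nhds_zero_nat.comp (hu.tendsto_atTop.comp hv.tendsto_atTop)
      have h8 := h7.max h2.norm
      rwa [max_eq_right (norm_nonneg _)] at h8
    have h9 := h2.div h6 (by
      rw [Ne, Complex.ofReal_eq_zero, norm_eq_zero]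
      exact h4)
    refine h9.congr fun k => ?_
    simp only [Function.comp_apply]
    rw [h3]
    rfl

end Pool.Agent.Lib.IWC
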