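import Pool.Agent.Lib.IWC.Stmts

/-!
Module M4 of the IWC library: monotonicity of `Nf` and the test lemma
`0 ≤ Re ⟨h, N_s (A h)⟩`.
-/

set_option autoImplicit false

namespace Pool.Agent.Lib.IWC

open MeasureTheory Filter Topology Set FourierTransform SchwartzMap
open scoped SchwartzMap ENNReal ContDiff ComplexInnerProductSpace

namespace Tst_

/-! ### The map `Nf` -/

lemma max_pos {s : ℝ} (hs : 0 < s) (a : ℂ) : 0 < max s ‖a‖ := lt_max_of_lt_left hs

lemma norm_Nf {s : ℝ} (hs : 0 < s) (a : ℂ) : ‖Nf s a‖ = ‖a‖ / max s ‖a‖ := by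
  unfold Nf
  rw [norm_div, Complex.norm_real, Real.norm_of_nonneg (max_pos hs a).le]

lemma norm_Nf_le_one {s : ℝ} (hs : 0 < s) (a : ℂ) : ‖Nf s a‖ ≤ 1 := by
  rw [norm_Nf hs, div_le_one (max_pos hs a)]
  exact le_max_right _ _

lemma norm_Nf_le {s : ℝ} (hs : 0 < s) (a : ℂ) : ‖Nf s a‖ ≤ ‖a‖ / s := by
  rw [norm_Nf hs]
  exact div_le_div_of_nonneg_left (norm_nonneg a) hs (le_max_left _ _)

lemma re_mul_conj_le (a c : ℂ) : (a * starRingEnd ℂ c).re ≤ ‖a‖ * ‖c‖ := by
  calc (a * starRingEnd ℂ c).re ≤ ‖a * starRingEnd ℂ c‖ := Complex.re_le_norm _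
    _ = ‖a‖ * ‖c‖ := by rw [norm_mul, Complex.norm_conj]

lemma mul_conj_self_re (a : ℂ) : (a * starRingEnd ℂ a).re = ‖a‖ ^ 2 := by
  rw [Complex.mul_conj, Complex.ofReal_re, Complex.normSq_eq_norm_sq]

/-- the variational inequality of the projection on the unit ball -/
lemma vi {s : ℝ} (hs : 0 < s) (a c : ℂ) (hc : ‖c‖ ≤ 1) :
    ((a - (s : ℂ) * Nf s a) * starRingEnd ℂ (c - Nf s a)).re ≤ 0 := by
  rcases le_total ‖a‖ s with h | h
  · have h1 : Nf s a = a / (s : ℂ) := by unfold Nf; rw [max_eq_left h]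
    have h2 : a - (s : ℂ) * Nf s a = 0 := by
      rw [h1, mul_div_cancel₀ _ (by exact_mod_cast hs.ne')]
      ring
    rw [h2, zero_mul, Complex.zero_re]
  · have ha : 0 < ‖a‖ := lt_of_lt_of_le hs h
    have h1 : Nf s a = a / (‖a‖ : ℂ) := by unfold Nf; rw [max_eq_right h]
    have hn : ‖Nf s a‖ = 1 := by
      rw [norm_Nf hs, max_eq_right h, div_self ha.ne']
    have h2 : a - (s : ℂ) * Nf s a = ((‖a‖ - s : ℝ) : ℂ) * Nf s a := by
      have h4 : (‖a‖ : ℂ) * Nf s a = a := by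
        rw [h1, mul_div_cancel₀ _ (by exact_mod_cast ha.ne')]
      calc a - (s : ℂ) * Nf s a = (‖a‖ : ℂ) * Nf s a - (s : ℂ) * Nf s a := by rw [h4]
        _ = ((‖a‖ - s : ℝ) : ℂ) * Nf s a := by push_cast; ring
    rw [h2, mul_assoc, Complex.re_ofReal_mul]
    have h3 : (Nf s a * starRingEnd ℂ (c - Nf s a)).re ≤ 0 := by
      rw [map_sub, mul_sub, Complex.sub_re, mul_conj_self_re, hn]
      have := re_mul_conj_le (Nf s a) c
      rw [hn, one_mul] at this
      linarith
    exact mul_nonpos_of_nonneg_of_nonpos (by linarith) h3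

lemma firm {s : ℝ} (hs : 0 < s) (a b : ℂ) :
    s * ‖Nf s a - Nf s b‖ ^ 2 ≤ ((a - b) * starRingEnd ℂ (Nf s a - Nf s b)).re := by
  have h1 := vi hs a (Nf s b) (norm_Nf_le_one hs b)
  have h2 := vi hs b (Nf s a) (norm_Nf_le_one hs a)
  have h3 : ((a - b) * starRingEnd ℂ (Nf s a - Nf s b)).re =
      s * ((Nf s a - Nf s b) * starRingEnd ℂ (Nf s a - Nf s b)).re -
        ((a - (s : ℂ) * Nf s a) * starRingEnd ℂ (Nf s b - Nf s a)).re -
        ((b - (s : ℂ) * Nf s b) * starRingEnd ℂ (Nf s a - Nf s b)).re := by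
    simp only [Complex.mul_re, Complex.sub_re, Complex.sub_im, Complex.conj_re, Complex.conj_im,
      Complex.mul_im, Complex.ofReal_re, Complex.ofReal_im]
    ring
  rw [h3, mul_conj_self_re]
  linarith

end Tst_

open Tst_ in
/-- (M4a) -/
theorem stmtNf : StmtNf := by
  intro s hs a b
  have hf := firm hs a b
  refine ⟨le_trans (by positivity) hf, ?_, norm_Nf_le_one hs a, norm_Nf_le hs a⟩
  have h1 := re_mul_conj_le (a - b) (Nf s a - Nf s b)
  have h2 : s * ‖Nf s a - Nf s b‖ ^ 2 ≤ ‖a - b‖ * ‖Nf s a - Nf s b‖ := hf.trans h1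
  rw [le_div_iff₀ hs]
  rcases eq_or_lt_of_le (norm_nonneg (Nf s a - Nf s b)) with h | h
  · rw [← h]; simp
  · have h3 : (‖Nf s a - Nf s b‖ * s) * ‖Nf s a - Nf s b‖ ≤ ‖a - b‖ * ‖Nf s a - Nf s b‖ := by
      nlinarith [h2]
    exact le_of_mul_le_mul_right h3 h

namespace Tst_

lemma continuous_Nf {s : ℝ} (hs : 0 < s) : Continuous (Nf s) := by
  unfold Nf
  refine continuous_id.div (Complex.continuous_ofReal.comp (continuous_const.max continuous_norm)) ?_
  intro a
  exact_mod_cast (max_pos hs a).ne'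

lemma Nf_zero (s : ℝ) : Nf s 0 = 0 := by simp [Nf]

/-- `N(w)` is in `L²` -/
lemma memLp_N {s : ℝ} (hs : 0 < s) (w : H) :
    MemLp (fun x => Nf s ((w : ℂ → ℂ) x)) 2 (volume : Measure ℂ) := by
  refine MemLp.of_le_mul (c := 1 / s) (Lp.memLp w)
    ((continuous_Nf hs).comp_aestronglyMeasurable (Lp.aestronglyMeasurable w)) ?_
  refine Eventually.of_forall fun x => ?_
  have := norm_Nf_le hs ((w : ℂ → ℂ) x)
  calc ‖Nf s ((w : ℂ → ℂ) x)‖ ≤ ‖(w : ℂ → ℂ) x‖ / s := this
    _ = 1 / s * ‖(w : ℂ → ℂ) x‖ := by ring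

/-- the functional `f ↦ Re ⟨N, f⟩` -/
noncomputable def Phi (N : H) (f : H) : ℝ := (⟪N, f⟫ : ℂ).re

lemma Phi_add (N f g : H) : Phi N (f + g) = Phi N f + Phi N g := by
  simp [Phi, inner_add_right]

lemma Phi_sub (N f g : H) : Phi N (f - g) = Phi N f - Phi N g := by
  simp [Phi, inner_sub_right]

lemma Phi_smul (N f : H) (c : ℝ) : Phi N ((c : ℂ) • f) = c * Phi N f := by
  unfold Phi
  rw [inner_smul_right, Complex.re_ofReal_mul]

lemma Phi_cont (N : H) : Continuous (Phi N) := by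
  unfold Phi
  exact Complex.continuous_re.comp (continuous_const.inner continuous_id)

lemma Phi_eq (N f : H) : Phi N f =
    ∫ x, ((f : ℂ → ℂ) x * starRingEnd ℂ ((N : ℂ → ℂ) x)).re := by
  have h := MeasureTheory.L2.integrable_inner (𝕜 := ℂ) N f
  unfold Phi
  rw [MeasureTheory.L2.inner_def]
  have h2 := integral_re (𝕜 := ℂ) h
  have h3 : (∫ x, (⟪(N : ℂ → ℂ) x, (f : ℂ → ℂ) x⟫ : ℂ)).re =
      ∫ x, (⟪(N : ℂ → ℂ) x, (f : ℂ → ℂ) x⟫ : ℂ).re := by
    simpa using h2.symm
  rw [h3]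
  refine integral_congr_ae (Eventually.of_forall fun x => ?_)
  simp only [RCLike.inner_apply]

/-- integrability of the products -/
lemma integrable_re_mul_conj {f g : ℂ → ℂ} (hf : MemLp f 2 volume) (hg : MemLp g 2 volume) :
    Integrable (fun x => (f x * starRingEnd ℂ (g x)).re) volume := by
  have hg' : MemLp (fun x => starRingEnd ℂ (g x)) 2 volume := by
    refine hg.of_le (Complex.continuous_conj.comp_aestronglyMeasurable hg.1) ?_
    exact Eventually.of_forall fun x => by rw [Complex.norm_conj]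
  exact (hf.integrable_mul hg').re

/-- the shift of an `L²` function -/
lemma memLp_shift {f : ℂ → ℂ} (hf : MemLp f 2 volume) (v : ℂ) :
    MemLp (fun x => f (x + v)) 2 volume :=
  hf.comp_measurePreserving (measurePreserving_add_right volume v)

/-- the positivity of a difference Laplacian -/
lemma diff_nonneg {s : ℝ} (hs : 0 < s) {W : ℂ → ℂ} (hW : MemLp W 2 volume)
    (hN : MemLp (fun x => Nf s (W x)) 2 volume) (v : ℂ) :
    0 ≤ ∫ x, ((2 * W x - W (x + v) - W (x + -v)) * starRingEnd ℂ (Nf s (W x))).re := by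
  have hWp := memLp_shift hW v
  have hWm := memLp_shift hW (-v)
  have hNp : MemLp (fun x => Nf s (W (x + v))) 2 volume := memLp_shift hN v
  have i1 := integrable_re_mul_conj (hW.sub hWp) hN
  have i2 := integrable_re_mul_conj (hW.sub hWm) hN
  have i3 := integrable_re_mul_conj (hWp.sub hW) hNp
  simp only [Pi.sub_apply] at i1 i2 i3
  have e1 : ∫ x, ((W x - W (x + -v)) * starRingEnd ℂ (Nf s (W x))).re =
      ∫ x, ((W (x + v) - W x) * starRingEnd ℂ (Nf s (W (x + v)))).re := by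
    rw [← integral_add_right_eq_self
      (fun x => ((W x - W (x + -v)) * starRingEnd ℂ (Nf s (W x))).re) v]
    refine integral_congr_ae (Eventually.of_forall fun x => ?_)
    simp only [add_neg_cancel_right]
  have e2 : ∫ x, ((2 * W x - W (x + v) - W (x + -v)) * starRingEnd ℂ (Nf s (W x))).re =
      (∫ x, ((W x - W (x + v)) * starRingEnd ℂ (Nf s (W x))).re) +
        ∫ x, ((W x - W (x + -v)) * starRingEnd ℂ (Nf s (W x))).re := by
    rw [← integral_add i1 i2]
    refine integral_congr_ae (Eventually.of_forall fun x => ?_)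
    simp only [← Complex.add_re]
    congr 1
    ring
  rw [e2, e1, ← integral_add i1 i3]
  refine integral_nonneg fun x => ?_
  have h := (stmtNf s hs (W x) (W (x + v))).1
  have h2 : ((W x - W (x + v)) * starRingEnd ℂ (Nf s (W x))).re +
      ((W (x + v) - W x) * starRingEnd ℂ (Nf s (W (x + v)))).re =
      ((W x - W (x + v)) * starRingEnd ℂ (Nf s (W x) - Nf s (W (x + v)))).re := by
    rw [← Complex.add_re, map_sub]
    congr 1
    ring
  simp only [Pi.zero_apply]
  rw [h2]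
  exact h

end Tst_

open Tst_ in
/-- (M4b) -/
theorem stmtTst (hTr : StmtTr) (hSym : StmtSym) (hDif : StmtDif) : StmtTst := by
  intro κ hκ h s hs
  set w : H := A κ h with hw
  have hN := memLp_N hs w
  set N : H := hN.toLp _ with hNdef
  have hNae : (N : ℂ → ℂ) =ᵐ[volume] fun x => Nf s ((w : ℂ → ℂ) x) := hN.coeFn_toLp
  have key : ∀ f : H, ∫ x, ((f : ℂ → ℂ) x * starRingEnd ℂ (Nf s ((w : ℂ → ℂ) x))).re = Phi N f := by
    intro f
    rw [Phi_eq]
    refine integral_congr_ae ?_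
    filter_upwards [hNae] with x hx
    rw [hx]
  rw [key]
  -- the difference quotients are nonnegative
  have hdq : ∀ (t : ℝ) (e : ℂ), 0 ≤ Phi N (dq t e w) := by
    intro t e
    unfold dq
    rw [Phi_smul]
    refine mul_nonneg (by positivity) ?_
    rw [← key]
    have h0 := diff_nonneg hs (Lp.memLp w) hN ((t : ℂ) * e)
    refine le_of_le_of_eq h0 (integral_congr_ae ?_)
    have hA := Lp.coeFn_sub ((2 : ℂ) • w - tr ((t : ℂ) * e) w) (tr (-((t : ℂ) * e)) w)
    have hB := Lp.coeFn_sub ((2 : ℂ) • w) (tr ((t : ℂ) * e) w)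
    have hC := Lp.coeFn_smul (2 : ℂ) w
    filter_upwards [hA, hB, hC, hTr ((t : ℂ) * e) w, hTr (-((t : ℂ) * e)) w] with x h1 h2 h3 h4 h5
    rw [h1, Pi.sub_apply, h2, Pi.sub_apply, h3, Pi.smul_apply, h4, h5, smul_eq_mul]
  -- the limits
  have hD : ∀ e : ℂ, 0 ≤ Phi N (Dd κ e h) := by
    intro e
    have ht : Tendsto (fun k : ℕ => 1 / ((k : ℝ) + 1)) atTop (𝓝 0) :=
      tendsto_one_div_add_atTop_nhds_zero_nat
    have hlim := hDif κ hκ e h (fun k => 1 / ((k : ℝ) + 1)) (fun k => by positivity) ht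
    exact ge_of_tendsto' (((Phi_cont N).tendsto _).comp hlim) fun k => hdq _ e
  have hW : 0 ≤ Phi N w := by
    rw [← key]
    refine integral_nonneg fun x => ?_
    have := (stmtNf s hs ((w : ℂ → ℂ) x) 0).1
    rw [Nf_zero, sub_zero, sub_zero] at this
    exact this
  have hsum := (hSym κ hκ).2.2.2.2.1 h
  rw [hsum, Phi_add, Phi_add, Phi_smul]
  have h1 := hD 1
  have h2 := hD Complex.I
  have h3 : 0 ≤ κ ^ 2 * Phi N w := mul_nonneg (by positivity) hW
  linarith

end Pool.Agent.Lib.IWC
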