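import Pool.Agent.Lib.IWC.Obs
import Pool.Agent.Lib.IWC.Tst

/-!
# The regularised obstacle problem (M5a)

`g` is the fixed point of the contraction `g ↦ N₁ ((1 - ρ ε) g + ρ A (φ - g))`.
-/

set_option autoImplicit false

namespace Pool.Agent.Lib.IWC

open MeasureTheory Filter Topology Set FourierTransform SchwartzMap
open scoped SchwartzMap ENNReal ContDiff ComplexInnerProductSpace

namespace ObsE95_

/-- the fixed point equation pointwise -/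
theorem fix_pt {ε ρ : ℝ} (hε : 0 < ε) (hρ : 0 < ρ) (g w : ℂ)
    (h : g = Nf 1 (g + (ρ : ℂ) * (w - (ε : ℂ) * g))) : g = Nf ε w := by
  have hρc : (ρ : ℂ) ≠ 0 := Complex.ofReal_ne_zero.2 hρ.ne'
  have hεc : (ε : ℂ) ≠ 0 := Complex.ofReal_ne_zero.2 hε.ne'
  have hg1 : ‖g‖ ≤ 1 := by rw [h]; exact Tst_.norm_Nf_le_one one_pos _
  rcases le_or_gt ‖g + (ρ : ℂ) * (w - (ε : ℂ) * g)‖ 1 with h1 | h1
  · have e1 : Nf 1 (g + (ρ : ℂ) * (w - (ε : ℂ) * g)) = g + (ρ : ℂ) * (w - (ε : ℂ) * g) := by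
      unfold Nf
      rw [max_eq_left h1, Complex.ofReal_one, div_one]
    rw [e1] at h
    have h2 : (ρ : ℂ) * (w - (ε : ℂ) * g) = 0 := by
      have := congrArg (fun z => z - g) h
      simp only [sub_self, add_sub_cancel_left] at this
      exact this.symm
    have h3 : w = (ε : ℂ) * g := by
      rcases mul_eq_zero.1 h2 with h4 | h4
      · exact absurd h4 hρc
      · exact sub_eq_zero.1 h4
    have h4 : ‖w‖ ≤ ε := by
      rw [h3, norm_mul, Complex.norm_real, Real.norm_of_nonneg hε.le]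
      nlinarith
    unfold Nf
    rw [max_eq_left h4, h3]
    field_simp
  · set u : ℂ := g + (ρ : ℂ) * (w - (ε : ℂ) * g) with hu
    have hu0 : 0 < ‖u‖ := one_pos.trans h1
    have huc : ((‖u‖ : ℝ) : ℂ) ≠ 0 := Complex.ofReal_ne_zero.2 hu0.ne'
    have e1 : g = u / ((‖u‖ : ℝ) : ℂ) := by
      have : Nf 1 u = u / ((‖u‖ : ℝ) : ℂ) := by unfold Nf; rw [max_eq_right h1.le]
      rw [← this]; exact h
    have hgn : ‖g‖ = 1 := by
      rw [e1, norm_div, Complex.norm_real, norm_norm, div_self hu0.ne']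
    have e2 : u = ((‖u‖ : ℝ) : ℂ) * g := by rw [e1]; field_simp
    set c : ℝ := (‖u‖ - 1) / ρ + ε with hc
    have hcpos : ε < c := by
      have : 0 < (‖u‖ - 1) / ρ := div_pos (by linarith) hρ
      linarith
    have hc0 : 0 < c := hε.trans hcpos
    have hcc : (c : ℂ) ≠ 0 := Complex.ofReal_ne_zero.2 hc0.ne'
    have e3 : w = (c : ℂ) * g := by
      have h5 : (ρ : ℂ) * w = (ρ : ℂ) * ((c : ℂ) * g) := by
        have h6 : (ρ : ℂ) * w = u - g + (ρ : ℂ) * (ε : ℂ) * g := by rw [hu]; ring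
        rw [h6, hc]
        push_cast
        have h7 : (ρ : ℂ) * ((((‖u‖ : ℝ) : ℂ) - 1) / (ρ : ℂ) + (ε : ℂ)) =
            (((‖u‖ : ℝ) : ℂ) - 1) + (ρ : ℂ) * (ε : ℂ) := by field_simp
        rw [← mul_assoc, h7]
        have h8 : u - g = (((‖u‖ : ℝ) : ℂ) - 1) * g := by
          nth_rewrite 1 [e2]
          ring
        rw [h8]
        ring
      exact mul_left_cancel₀ hρc h5
    have h6 : ‖w‖ = c := by
      rw [e3, norm_mul, Complex.norm_real, Real.norm_of_nonneg hc0.le, hgn, mul_one]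
    unfold Nf
    rw [h6, max_eq_right hcpos.le, e3]
    field_simp

/-- the projection on the unit ball in `L²` -/
noncomputable def P (w : H) : H := (Tst_.memLp_N one_pos w).toLp _

theorem P_coe (w : H) : ∀ᵐ x, (P w : ℂ → ℂ) x = Nf 1 ((w : ℂ → ℂ) x) :=
  (Tst_.memLp_N one_pos w).coeFn_toLp

theorem P_lip (v w : H) : ‖P v - P w‖ ≤ ‖v - w‖ := by
  refine Lp.norm_le_norm_of_ae_le ?_
  filter_upwards [P_coe v, P_coe w, Lp.coeFn_sub (P v) (P w), Lp.coeFn_sub v w] with x h1 h2 h3 h4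
  rw [h3, h4, Pi.sub_apply, Pi.sub_apply, h1, h2]
  have := (stmtNf 1 one_pos ((v : ℂ → ℂ) x) ((w : ℂ → ℂ) x)).2.1
  rwa [div_one] at this

end ObsE95_

open ObsE95_ in
theorem stmtObsE95 (hMu : StmtMu) (hPos : StmtMuPos) (hSym : StmtSym) : StmtObsE := by
  intro κ ε hκ hε φ
  set M : ℝ := 1 / κ ^ 2 with hM
  have hM0 : 0 < M := by positivity
  set ρ : ℝ := ε / (ε ^ 2 + M ^ 2) with hρ
  have hρ0 : 0 < ρ := by positivity
  have hρ1 : ρ * (ε ^ 2 + M ^ 2) = ε := by rw [hρ]; field_simp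
  have hρε : ρ * ε ≤ 1 := by
    have h1 : ρ * ε * ε ≤ 1 * ε := by nlinarith [mul_nonneg hρ0.le (sq_nonneg M)]
    exact le_of_mul_le_mul_right h1 hε
  set q : ℝ := √(1 - ρ * ε) with hq
  have hq1 : q < 1 := by
    rw [hq, Real.sqrt_lt' one_pos]
    nlinarith [mul_pos hρ0 hε]
  have hq2 : q ^ 2 = 1 - ρ * ε := Real.sq_sqrt (by linarith)
  let F : H → H := fun g => P (g + (ρ : ℂ) • (A κ (φ - g) - (ε : ℂ) • g))
  have hF : ∀ f g : H, ‖F f - F g‖ ≤ q * ‖f - g‖ := by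
    intro f g
    refine (P_lip _ _).trans ?_
    set d : H := f - g with hd
    have hA := Obs_.lin hMu hSym hκ (φ - f) (φ - g)
    have e0 : φ - f - (φ - g) = -d := by rw [hd]; abel
    have hAn : A κ (-d) = - A κ d := by
      have h1 := (Obs_.lin hMu hSym hκ 0 d).1
      have h2 := (Obs_.lin hMu hSym hκ 0 (0 : H)).1
      rw [zero_sub] at h1
      rw [sub_zero] at h2
      have h3 : A κ (0 : H) = 0 := by
        rw [h2]; abel
      rw [h1, h3, zero_sub]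
    have e1 : f + (ρ : ℂ) • (A κ (φ - f) - (ε : ℂ) • f) -
        (g + (ρ : ℂ) • (A κ (φ - g) - (ε : ℂ) • g)) =
        ((1 - ρ * ε : ℝ) : ℂ) • d - (ρ : ℂ) • A κ d := by
      have h1 : A κ (φ - f) = A κ (φ - g) - A κ d := by
        have h4 := hA.1
        rw [e0, hAn] at h4
        rw [sub_eq_add_neg (A κ (φ - g)), h4]
        abel
      rw [h1, hd]
      push_cast
      module
    rw [e1]
    have h2 := Obs_.pos hPos hSym hκ d
    have h3 : ‖A κ d‖ ≤ M * ‖d‖ := (Obs_.lin hMu hSym hκ d 0).2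
    have e2 : ‖((1 - ρ * ε : ℝ) : ℂ) • d - (ρ : ℂ) • A κ d‖ ^ 2 =
        (1 - ρ * ε) ^ 2 * ‖d‖ ^ 2 - 2 * ((1 - ρ * ε) * ρ * (⟪A κ d, d⟫ : ℂ).re) +
          ρ ^ 2 * ‖A κ d‖ ^ 2 := by
      have h5 := norm_sub_sq (𝕜 := ℂ) (((1 - ρ * ε : ℝ) : ℂ) • d) ((ρ : ℂ) • A κ d)
      rw [h5, norm_smul, norm_smul, Complex.norm_real, Complex.norm_real, mul_pow, mul_pow,
        Real.norm_eq_abs, Real.norm_eq_abs, sq_abs, sq_abs, inner_smul_left, inner_smul_right]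
      have h6 : (⟪d, A κ d⟫ : ℂ).re = (⟪A κ d, d⟫ : ℂ).re := by
        have := inner_re_symm (𝕜 := ℂ) d (A κ d)
        simpa using this
      simp only [RCLike.re_to_complex, Complex.conj_ofReal, Complex.re_ofReal_mul, h6]
      ring
    have h7 : ‖((1 - ρ * ε : ℝ) : ℂ) • d - (ρ : ℂ) • A κ d‖ ^ 2 ≤ (q * ‖d‖) ^ 2 := by
      rw [e2, mul_pow, hq2]
      have h8 : ‖A κ d‖ ^ 2 ≤ M ^ 2 * ‖d‖ ^ 2 := by
        rw [← mul_pow]; gcongr
      have h9 : ρ ^ 2 * ‖A κ d‖ ^ 2 ≤ ρ ^ 2 * (M ^ 2 * ‖d‖ ^ 2) :=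
        mul_le_mul_of_nonneg_left h8 (sq_nonneg ρ)
      have h10 : 0 ≤ (1 - ρ * ε) * ρ * (⟪A κ d, d⟫ : ℂ).re :=
        mul_nonneg (mul_nonneg (by linarith) hρ0.le) h2
      have h11 : (1 - ρ * ε) ^ 2 + ρ ^ 2 * M ^ 2 = 1 - ρ * ε := by
        have : ρ * (ρ * (ε ^ 2 + M ^ 2)) = ρ * ε := by rw [hρ1]
        nlinarith
      calc _ ≤ (1 - ρ * ε) ^ 2 * ‖d‖ ^ 2 + ρ ^ 2 * (M ^ 2 * ‖d‖ ^ 2) := by linarith
        _ = ((1 - ρ * ε) ^ 2 + ρ ^ 2 * M ^ 2) * ‖d‖ ^ 2 := by ring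
        _ = (1 - ρ * ε) * ‖d‖ ^ 2 := by rw [h11]
    exact le_of_sq_le_sq h7 (by positivity)
  have hcon : ContractingWith ⟨q, Real.sqrt_nonneg _⟩ F := by
    refine ⟨by exact_mod_cast hq1, LipschitzWith.of_dist_le_mul fun f g => ?_⟩
    rw [dist_eq_norm, dist_eq_norm]
    exact hF f g
  refine ⟨hcon.fixedPoint F, ?_⟩
  set g : H := hcon.fixedPoint F with hgdef
  have hfix : P (g + (ρ : ℂ) • (A κ (φ - g) - (ε : ℂ) • g)) = g := hcon.fixedPoint_isFixedPt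
  have hco := P_coe (g + (ρ : ℂ) • (A κ (φ - g) - (ε : ℂ) • g))
  rw [hfix] at hco
  filter_upwards [hco, Lp.coeFn_add g ((ρ : ℂ) • (A κ (φ - g) - (ε : ℂ) • g)),
    Lp.coeFn_smul (ρ : ℂ) (A κ (φ - g) - (ε : ℂ) • g),
    Lp.coeFn_sub (A κ (φ - g)) ((ε : ℂ) • g), Lp.coeFn_smul (ε : ℂ) g] with x h1 h2 h3 h4 h5
  refine fix_pt hε hρ0 _ _ (h1.trans ?_)
  rw [h2]
  simp only [Pi.add_apply, h3, Pi.smul_apply, h4, Pi.sub_apply, h5, smul_eq_mul]

end Pool.Agent.Lib.IWC
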