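import Mathlib

/-!
Superposition: from `0 ≤ ∫ L(|f|/t, |g|/t)` for all `t > 0` to the `L^p` inequality, `1 < p < 2`
(pure measure theory; the superposition integral and Burkholder's inequality are hypotheses).
-/

set_option autoImplicit false

namespace Pool.Agent.Lib.IWC

open MeasureTheory Filter Topology Set

namespace SupA_

/-- the majorant -/
noncomputable def H (p R t : ℝ) : ℝ := if t ≤ R then 3 * R * t ^ (p - 2) else R ^ 2 * t ^ (p - 3)

theorem H_int {p : ℝ} (h1 : 1 < p) (h2 : p < 2) {R : ℝ} (hR : 0 ≤ R) :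
    IntegrableOn (H p R) (Ioi 0) ∧
      ∫ t in Ioi 0, H p R t = (3 / (p - 1) + 1 / (2 - p)) * R ^ p := by
  rcases hR.eq_or_lt with rfl | hR
  · have e : ∀ t ∈ Ioi (0 : ℝ), H p 0 t = 0 := by
      intro t ht
      unfold H
      rw [if_neg (not_le.2 (by exact ht))]
      simp
    refine ⟨(integrableOn_congr_fun e measurableSet_Ioi).2 integrableOn_zero, ?_⟩
    rw [setIntegral_congr_fun measurableSet_Ioi e, integral_zero,
      Real.zero_rpow (by linarith), mul_zero]
  · have e1 : ∀ t ∈ Ioc (0 : ℝ) R, H p R t = 3 * R * t ^ (p - 2) := by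
      intro t ht
      unfold H
      rw [if_pos ht.2]
    have e2 : ∀ t ∈ Ioi R, H p R t = R ^ 2 * t ^ (p - 3) := by
      intro t ht
      unfold H
      rw [if_neg (not_le.2 (by exact ht))]
    have i1 : IntegrableOn (fun t : ℝ => t ^ (p - 2)) (Ioc 0 R) := by
      rw [← intervalIntegrable_iff_integrableOn_Ioc_of_le hR.le]
      exact intervalIntegral.intervalIntegrable_rpow' (by linarith)
    have i2 : IntegrableOn (fun t : ℝ => t ^ (p - 3)) (Ioi R) :=
      integrableOn_Ioi_rpow_of_lt (by linarith) hR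
    have j1 : IntegrableOn (H p R) (Ioc 0 R) :=
      (integrableOn_congr_fun e1 measurableSet_Ioc).2 (i1.const_mul _)
    have j2 : IntegrableOn (H p R) (Ioi R) :=
      (integrableOn_congr_fun e2 measurableSet_Ioi).2 (i2.const_mul _)
    have hU : Ioi (0 : ℝ) = Ioc 0 R ∪ Ioi R := (Ioc_union_Ioi_eq_Ioi hR.le).symm
    rw [hU]
    refine ⟨j1.union j2, ?_⟩
    rw [setIntegral_union (by
      rw [Set.disjoint_left]
      intro x hx hx'
      exact absurd hx.2 (not_le.2 hx')) measurableSet_Ioi j1 j2,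
      setIntegral_congr_fun measurableSet_Ioc e1, setIntegral_congr_fun measurableSet_Ioi e2,
      integral_const_mul, integral_const_mul, integral_Ioi_rpow_of_lt (by linarith) hR,
      ← intervalIntegral.integral_of_le hR.le, integral_rpow (Or.inl (by linarith)),
      Real.zero_rpow (by linarith)]
    have a1 : R ^ (p - 2 + 1) = R ^ p / R := by
      rw [show p - 2 + 1 = p - 1 by ring, Real.rpow_sub hR, Real.rpow_one]
    have a2 : R ^ (p - 3 + 1) = R ^ p / R ^ 2 := by
      rw [show p - 3 + 1 = p - 2 by ring, Real.rpow_sub hR, Real.rpow_two]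
    have hp1 : p - 1 ≠ 0 := by linarith
    have hp2 : 2 - p ≠ 0 := by linarith
    have hp3 : p - 2 + 1 ≠ 0 := by linarith
    have hp4 : p - 3 + 1 ≠ 0 := by linarith
    rw [a1, a2, show p - 2 + 1 = p - 1 by ring, show p - 3 + 1 = -(2 - p) by ring]
    field_simp
    ring

end SupA_

open SupA_

/-- The superposition, in abstract form. -/
theorem supA {α : Type*} [MeasurableSpace α] {ν : Measure α} [SigmaFinite ν] {p : ℝ}
    (hp1 : 1 < p) (hp2 : p < 2) {L : ℝ → ℝ → ℝ} (hLm : Measurable (Function.uncurry L))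
    (hL1 : ∀ a b, 0 ≤ a → 0 ≤ b → a + b ≤ 1 → |L a b| ≤ (a + b) ^ 2)
    (hL2 : ∀ a b, 0 ≤ a → 0 ≤ b → 1 < a + b → |L a b| ≤ 3 * (a + b))
    {c κ A : ℝ} (hc : 0 < c) (hA : 0 ≤ A) (hκ : 0 ≤ κ)
    (hsup : ∀ a b, 0 ≤ a → 0 ≤ b →
      ∫ t in Ioi (0 : ℝ), L (a / t) (b / t) * t ^ (p - 1) =
        c * ((a + b) ^ (p - 1) * (κ * a - b)))
    (hB : ∀ a b, 0 ≤ a → 0 ≤ b →
      b ^ p - (κ * a) ^ p ≤ A * ((a + b) ^ (p - 1) * (b - κ * a)))
    {a b : α → ℝ} (ham : Measurable a) (hbm : Measurable b) (ha0 : ∀ x, 0 ≤ a x)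
    (hb0 : ∀ x, 0 ≤ b x) (hai : Integrable (fun x => a x ^ p) ν)
    (hbi : Integrable (fun x => b x ^ p) ν)
    (hL : ∀ t : ℝ, 0 < t → 0 ≤ ∫ x, L (a x / t) (b x / t) ∂ν) :
    ∫ x, b x ^ p ∂ν ≤ κ ^ p * ∫ x, a x ^ p ∂ν := by
  have hp0 : 0 < p := by linarith
  set R : α → ℝ := fun x => a x + b x with hR
  have hR0 : ∀ x, 0 ≤ R x := fun x => add_nonneg (ha0 x) (hb0 x)
  have hRm : Measurable R := ham.add hbm
  have hRi : Integrable (fun x => R x ^ p) ν := by
    refine ((hai.add hbi).const_mul (2 ^ p)).mono' (hRm.pow_const p).aestronglyMeasurable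
      (Eventually.of_forall fun x => ?_)
    rw [Real.norm_eq_abs, abs_of_nonneg (Real.rpow_nonneg (hR0 x) p)]
    have h1 : R x ≤ 2 * max (a x) (b x) := by
      rw [hR]
      have := le_max_left (a x) (b x)
      have := le_max_right (a x) (b x)
      simp only
      linarith
    have hm0 : 0 ≤ max (a x) (b x) := (ha0 x).trans (le_max_left _ _)
    calc R x ^ p ≤ (2 * max (a x) (b x)) ^ p := Real.rpow_le_rpow (hR0 x) h1 hp0.le
      _ = 2 ^ p * max (a x) (b x) ^ p := Real.mul_rpow (by norm_num) hm0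
      _ ≤ 2 ^ p * (a x ^ p + b x ^ p) := by
          refine mul_le_mul_of_nonneg_left ?_ (by positivity)
          rcases max_choice (a x) (b x) with h | h
          · rw [h]
            have := Real.rpow_nonneg (hb0 x) p
            linarith
          · rw [h]
            have := Real.rpow_nonneg (ha0 x) p
            linarith
  -- the function on the product
  set F : α × ℝ → ℝ := fun z => L (a z.1 / z.2) (b z.1 / z.2) * z.2 ^ (p - 1) with hF
  have hFm : Measurable F := by
    refine Measurable.mul ?_ (measurable_snd.pow_const _)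
    exact hLm.comp (((ham.comp measurable_fst).div measurable_snd).prodMk
      ((hbm.comp measurable_fst).div measurable_snd))
  have hbd : ∀ x, ∀ t ∈ Ioi (0 : ℝ), |F (x, t)| ≤ H p (R x) t := by
    intro x t ht
    have ht0 : (0 : ℝ) < t := ht
    have hq : a x / t + b x / t = R x / t := by rw [hR]; ring
    have htp : 0 ≤ t ^ (p - 1) := Real.rpow_nonneg ht0.le _
    rw [hF]
    simp only
    rw [abs_mul, abs_of_nonneg htp]
    unfold H
    split_ifs with h
    · rcases h.lt_or_eq with h | h
      · have h3 := hL2 (a x / t) (b x / t) (div_nonneg (ha0 x) ht0.le)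
          (div_nonneg (hb0 x) ht0.le) (by rw [hq]; exact (one_lt_div ht0).2 h)
        rw [hq] at h3
        refine (mul_le_mul_of_nonneg_right h3 htp).trans (le_of_eq ?_)
        rw [show p - 1 = (p - 2) + 1 by ring, Real.rpow_add ht0, Real.rpow_one]
        field_simp
      · have h3 := hL1 (a x / t) (b x / t) (div_nonneg (ha0 x) ht0.le)
          (div_nonneg (hb0 x) ht0.le) (by rw [hq, ← h, div_self ht0.ne'])
        rw [hq] at h3
        refine (mul_le_mul_of_nonneg_right h3 htp).trans ?_
        rw [← h, div_self ht0.ne', show p - 1 = (p - 2) + 1 by ring, Real.rpow_add ht0,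
          Real.rpow_one]
        have : 0 ≤ t ^ (p - 2) := Real.rpow_nonneg ht0.le _
        nlinarith [mul_nonneg this ht0.le]
    · have h3 := hL1 (a x / t) (b x / t) (div_nonneg (ha0 x) ht0.le)
        (div_nonneg (hb0 x) ht0.le) (by rw [hq]; exact (div_le_one ht0).2 (not_le.1 h).le)
      rw [hq] at h3
      refine (mul_le_mul_of_nonneg_right h3 htp).trans (le_of_eq ?_)
      rw [show p - 1 = (p - 3) + 2 by ring, Real.rpow_add ht0, Real.rpow_two]
      field_simp
  have hFi : Integrable F (ν.prod (volume.restrict (Ioi (0 : ℝ)))) := by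
    rw [integrable_prod_iff hFm.aestronglyMeasurable]
    have hx : ∀ x, Integrable (fun t => F (x, t)) (volume.restrict (Ioi (0 : ℝ))) := by
      intro x
      refine (H_int hp1 hp2 (hR0 x)).1.mono'
        (hFm.comp (measurable_const.prodMk measurable_id)).aestronglyMeasurable ?_
      rw [ae_restrict_iff' measurableSet_Ioi]
      exact Eventually.of_forall fun t ht => hbd x t ht
    refine ⟨Eventually.of_forall hx, ?_⟩
    refine (hRi.const_mul (3 / (p - 1) + 1 / (2 - p))).mono'
      (hFm.norm.aestronglyMeasurable.integral_prod_right') (Eventually.of_forall fun x => ?_)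
    rw [Real.norm_eq_abs, abs_of_nonneg (integral_nonneg fun t => norm_nonneg _),
      ← (H_int hp1 hp2 (hR0 x)).2]
    refine integral_mono_ae (hx x).norm (H_int hp1 hp2 (hR0 x)).1 ?_
    rw [Filter.EventuallyLE, ae_restrict_iff' measurableSet_Ioi]
    exact Eventually.of_forall fun t ht => hbd x t ht
  -- Fubini
  have hfub := integral_integral_swap (f := fun x t => F (x, t)) hFi
  have hpos : 0 ≤ ∫ t in Ioi (0 : ℝ), ∫ x, F (x, t) ∂ν := by
    refine setIntegral_nonneg measurableSet_Ioi fun t ht => ?_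
    have ht0 : (0 : ℝ) < t := ht
    have : ∫ x, F (x, t) ∂ν = (∫ x, L (a x / t) (b x / t) ∂ν) * t ^ (p - 1) := by
      rw [← integral_mul_const]
    rw [this]
    exact mul_nonneg (hL t ht0) (Real.rpow_nonneg ht0.le _)
  have hin : ∀ x, ∫ t in Ioi (0 : ℝ), F (x, t) =
      c * ((a x + b x) ^ (p - 1) * (κ * a x - b x)) := fun x => hsup (a x) (b x) (ha0 x) (hb0 x)
  rw [← hfub] at hpos
  simp only [hin] at hpos
  have hgi : Integrable (fun x => c * ((a x + b x) ^ (p - 1) * (κ * a x - b x))) ν := by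
    have := hFi.integral_prod_left
    simp only [hin] at this
    exact this
  have hgi' : Integrable (fun x => (a x + b x) ^ (p - 1) * (b x - κ * a x)) ν := by
    refine (hgi.const_mul (-c⁻¹)).congr (Eventually.of_forall fun x => ?_)
    simp only
    field_simp
    ring
  have hneg : ∫ x, (a x + b x) ^ (p - 1) * (b x - κ * a x) ∂ν ≤ 0 := by
    have e : (fun x => c * ((a x + b x) ^ (p - 1) * (κ * a x - b x))) =
        fun x => -(c * ((a x + b x) ^ (p - 1) * (b x - κ * a x))) := by
      funext x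
      ring
    rw [e, integral_neg, integral_const_mul] at hpos
    by_contra h
    push Not at h
    have := mul_pos hc h
    linarith
  have hfin : ∫ x, (b x ^ p - (κ * a x) ^ p) ∂ν ≤
      A * ∫ x, (a x + b x) ^ (p - 1) * (b x - κ * a x) ∂ν := by
    rw [← integral_const_mul]
    refine integral_mono ?_ (hgi'.const_mul A) fun x => hB (a x) (b x) (ha0 x) (hb0 x)
    refine hbi.sub ?_
    refine (hai.const_mul (κ ^ p)).congr (Eventually.of_forall fun x => ?_)
    exact (Real.mul_rpow hκ (ha0 x)).symm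
  have hk : ∀ x, (κ * a x) ^ p = κ ^ p * a x ^ p := fun x => Real.mul_rpow hκ (ha0 x)
  simp only [hk] at hfin
  rw [integral_sub hbi (hai.const_mul _), integral_const_mul] at hfin
  have := mul_nonpos_of_nonneg_of_nonpos hA hneg
  linarith

end Pool.Agent.Lib.IWC
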