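import Pool.Agent.Lib.IWC.Stmts
import Pool.Agent.Lib.IWC.SupA

/-!
M8: `‖S φ‖_p ≤ (1 / (p - 1)) ‖φ‖_p` for Schwartz functions, `1 < p < 2`.
-/

set_option autoImplicit false

namespace Pool.Agent.Lib.IWC

open MeasureTheory Filter Topology Set FourierTransform SchwartzMap
open scoped SchwartzMap ENNReal ContDiff

namespace Sup_

theorem Lf_measurable : Measurable (Function.uncurry Lf) := by
  have e : Function.uncurry Lf = fun z : ℝ × ℝ =>
      if z.1 + z.2 ≤ 1 then z.1 ^ 2 - z.2 ^ 2 else 2 * z.1 - 1 := by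
    funext z
    rfl
  rw [e]
  refine Measurable.ite (measurableSet_le (measurable_fst.add measurable_snd) measurable_const)
    (by fun_prop) (by fun_prop)

theorem Lf_le1 (a b : ℝ) (ha : 0 ≤ a) (hb : 0 ≤ b) (h : a + b ≤ 1) :
    |Lf a b| ≤ (a + b) ^ 2 := by
  unfold Lf
  rw [if_pos h, abs_le]
  constructor <;> nlinarith [mul_nonneg ha hb]

theorem Lf_le2 (a b : ℝ) (ha : 0 ≤ a) (hb : 0 ≤ b) (h : 1 < a + b) :
    |Lf a b| ≤ 3 * (a + b) := by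
  unfold Lf
  rw [if_neg (not_le.2 h), abs_le]
  constructor <;> nlinarith

theorem Sk_smul (κ : ℝ) (c : ℂ) (φ : 𝓢(ℂ, ℂ)) (z : ℂ) : Sk κ (c • φ) z = c * Sk κ φ z := by
  unfold Sk
  have e : ∀ ξ : ℂ, (𝓕 (c • φ) : 𝓢(ℂ, ℂ)) ξ = c * (𝓕 φ : 𝓢(ℂ, ℂ)) ξ := by
    intro ξ
    rw [FourierTransform.fourier_smul, smul_apply, smul_eq_mul]
  simp_rw [e]
  rw [Real.fourierInv_eq, Real.fourierInv_eq, ← integral_const_mul]
  refine integral_congr_ae (Eventually.of_forall fun ξ => ?_)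
  show _ • (sS κ ξ * (c * (𝓕 φ : 𝓢(ℂ, ℂ)) ξ)) = c * (_ • (sS κ ξ * (𝓕 φ : 𝓢(ℂ, ℂ)) ξ))
  rw [Circle.smul_def, Circle.smul_def, smul_eq_mul, smul_eq_mul]
  ring

/-- The `L^p` inequality from the integral inequality. -/
theorem toLp_ineq {p K : ℝ} (hp : 1 < p) (hK : 0 ≤ K) {ψ φ : 𝓢(ℂ, ℂ)}
    (h : ∫ x, ‖ψ x‖ ^ p ≤ K ^ p * ∫ x, ‖φ x‖ ^ p) :
    eLpNorm ψ (ENNReal.ofReal p) volume ≤
      ENNReal.ofReal K * eLpNorm φ (ENNReal.ofReal p) volume := by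
  have hp0 : 0 < p := by linarith
  have h0 : ENNReal.ofReal p ≠ 0 := by simpa using hp0
  have hF : Fact (1 ≤ ENNReal.ofReal p) := ⟨by
    rw [← ENNReal.ofReal_one]
    exact ENNReal.ofReal_le_ofReal hp.le⟩
  rw [(ψ.memLp (ENNReal.ofReal p) volume).eLpNorm_eq_integral_rpow_norm h0 ENNReal.ofReal_ne_top,
    (φ.memLp (ENNReal.ofReal p) volume).eLpNorm_eq_integral_rpow_norm h0 ENNReal.ofReal_ne_top,
    ENNReal.toReal_ofReal hp0.le, ← ENNReal.ofReal_mul hK]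
  refine ENNReal.ofReal_le_ofReal ?_
  have i1 : 0 ≤ ∫ x, ‖φ x‖ ^ p := integral_nonneg fun x => Real.rpow_nonneg (norm_nonneg _) p
  have i2 : 0 ≤ ∫ x, ‖ψ x‖ ^ p := integral_nonneg fun x => Real.rpow_nonneg (norm_nonneg _) p
  calc (∫ x, ‖ψ x‖ ^ p) ^ p⁻¹ ≤ (K ^ p * ∫ x, ‖φ x‖ ^ p) ^ p⁻¹ :=
        Real.rpow_le_rpow i2 h (by positivity)
    _ = (K ^ p) ^ p⁻¹ * (∫ x, ‖φ x‖ ^ p) ^ p⁻¹ := Real.mul_rpow (by positivity) i1
    _ = K * (∫ x, ‖φ x‖ ^ p) ^ p⁻¹ := by rw [Real.rpow_rpow_inv hK hp0.ne']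

end Sup_

open Sup_

/-- (M8) -/
theorem stmtSup (hM : StmtMain) (hSch : StmtSch) (hSpp : StmtSpp) (hB : StmtBur) : StmtSup := by
  intro κ p hκ hp1 hp2 φ
  obtain ⟨_, ψ, hψ⟩ := hSch κ hκ φ
  have eψ : Sk κ φ = ψ := funext hψ
  rw [eψ]
  have hp0 : 0 < p := by linarith
  have hp10 : 0 < p - 1 := by linarith
  have hp20 : 0 < 2 - p := by linarith
  refine toLp_ineq hp1 (by positivity) ?_
  have hF : Fact (1 ≤ ENNReal.ofReal p) := ⟨by
    rw [← ENNReal.ofReal_one]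
    exact ENNReal.ofReal_le_ofReal hp1.le⟩
  have hi : ∀ χ : 𝓢(ℂ, ℂ), Integrable fun x => ‖χ x‖ ^ p := by
    intro χ
    have h := (χ.memLp (ENNReal.ofReal p) volume).integrable_norm_rpow
      (by simpa using hp0) ENNReal.ofReal_ne_top
    rwa [ENNReal.toReal_ofReal hp0.le] at h
  refine supA (L := Lf) (c := 2 / (p * (2 - p))) (κ := 1 / (p - 1)) (A := p ^ (2 - p)) hp1 hp2
    Lf_measurable Lf_le1 Lf_le2 (by positivity) (by positivity) (by positivity) ?_ ?_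
    φ.continuous.norm.measurable ψ.continuous.norm.measurable (fun x => norm_nonneg _)
    (fun x => norm_nonneg _) (hi φ) (hi ψ) ?_
  · intro a b ha hb
    have h := (hSpp p a b hp1 hp2 ha hb).2
    rw [show (1 / (p - 1)) * a = a / (p - 1) by ring, ← h]
    refine setIntegral_congr_fun measurableSet_Ioi fun t _ => ?_
    exact mul_comm _ _
  · intro a b ha hb
    have h := hB p a b hp1 hp2 ha hb
    rw [show (1 / (p - 1)) * a = a / (p - 1) by ring]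
    nlinarith
  · intro t ht
    set c : ℂ := ((t⁻¹ : ℝ) : ℂ) with hc
    have hcn : ‖c‖ = t⁻¹ := by
      rw [hc, Complex.norm_real, Real.norm_eq_abs, abs_of_pos (inv_pos.2 ht)]
    have h1 : ((c • φ).toLp 2 : ℂ → ℂ) =ᵐ[volume] (c • φ : 𝓢(ℂ, ℂ)) :=
      SchwartzMap.coeFn_toLp (c • φ) 2 volume
    have h2 : Integrable (((c • φ).toLp 2 : H) : ℂ → ℂ) volume :=
      ((c • φ).integrable (μ := volume)).congr h1.symm
    have h3 := (hM κ hκ ((c • φ).toLp 2) h2).2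
    have h4 := (hSch κ hκ (c • φ)).1
    refine h3.trans (le_of_eq (integral_congr_ae ?_))
    filter_upwards [h1, h4] with x h1 h4
    rw [h1, h4, Sk_smul, hψ, smul_apply, smul_eq_mul, norm_mul, norm_mul, hcn, inv_mul_eq_div,
      inv_mul_eq_div]

end Pool.Agent.Lib.IWC
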