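import Pool.Agent.Lib.IWC.MulS
import Pool.Agent.Lib.IWC.Mul

/-!
IWC, M2a: the symbols.
-/

set_option autoImplicit false

namespace Pool.Agent.Lib.IWC

open MeasureTheory Filter Topology Set
open scoped ENNReal

namespace Sym58_

theorem den_pos' {κ : ℝ} (hκ : 0 < κ) (ξ : ℂ) : 0 < den κ ξ := by
  unfold den; positivity

theorem sq_norm (ξ : ℂ) : ‖ξ‖ ^ 2 = ξ.re ^ 2 + ξ.im ^ 2 := by
  rw [← Complex.normSq_eq_norm_sq, Complex.normSq_apply]; ring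

theorem meas_den (κ : ℝ) : Measurable (den κ) := by
  unfold den; fun_prop

theorem meas_dot (e : ℂ) : Measurable (dot e) := by
  unfold dot; fun_prop

theorem dot_sq_le (e ξ : ℂ) : dot e ξ ^ 2 ≤ ‖e‖ ^ 2 * ‖ξ‖ ^ 2 := by
  rw [sq_norm, sq_norm]; unfold dot
  nlinarith [sq_nonneg (e.re * ξ.im - e.im * ξ.re)]

theorem bd_aS {κ : ℝ} (hκ : 0 < κ) : Bd (aS κ) (1 / κ ^ 2) := by
  refine ⟨?_, fun ξ => ?_⟩
  · unfold aS
    exact Complex.measurable_ofReal.comp (measurable_const.div (meas_den κ))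
  · rw [aS, Complex.norm_real, Real.norm_of_nonneg (by have := den_pos' hκ ξ; positivity)]
    apply one_div_le_one_div_of_le (by positivity)
    unfold den; nlinarith [sq_nonneg (Real.pi * ‖ξ‖)]

theorem bd_dS {κ : ℝ} (hκ : 0 < κ) (e : ℂ) : Bd (dS κ e) (‖e‖ ^ 2) := by
  refine ⟨?_, fun ξ => ?_⟩
  · unfold dS
    exact Complex.measurable_ofReal.comp
      ((measurable_const.mul ((meas_dot e).pow_const 2)).div (meas_den κ))
  · have hd := den_pos' hκ ξ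
    rw [dS, Complex.norm_real, Real.norm_of_nonneg (by positivity), div_le_iff₀ hd]
    have h1 := dot_sq_le e ξ
    have h2 : 0 ≤ ‖e‖ ^ 2 * κ ^ 2 := by positivity
    have h3 : 4 * Real.pi ^ 2 * dot e ξ ^ 2 ≤ 4 * Real.pi ^ 2 * (‖e‖ ^ 2 * ‖ξ‖ ^ 2) :=
      mul_le_mul_of_nonneg_left h1 (by positivity)
    unfold den
    nlinarith

theorem bd_sS' {κ : ℝ} (hκ : 0 < κ) : Bd (sS κ) 1 := by
  refine ⟨?_, fun ξ => ?_⟩
  · unfold sS
    exact (measurable_const.mul (Complex.continuous_conj.measurable.pow_const 2)).div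
      (Complex.measurable_ofReal.comp (meas_den κ))
  · have hd := den_pos' hκ ξ
    rw [sS, norm_div, norm_mul, norm_mul, norm_pow, norm_pow, RCLike.norm_conj, Complex.norm_real,
      Complex.norm_real, Real.norm_of_nonneg Real.pi_pos.le, Real.norm_of_nonneg hd.le,
      div_le_one hd]
    unfold den
    have : ‖(4 : ℂ)‖ = 4 := by simp
    rw [this]
    nlinarith [sq_nonneg κ]

theorem bd_trS' (v : ℂ) : Bd (trS v) 1 := by
  refine ⟨?_, fun ξ => ?_⟩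
  · unfold trS
    exact Complex.measurable_exp.comp
      (measurable_const.mul (Complex.measurable_ofReal.comp (meas_dot v)))
  · rw [trS]
    have : 2 * (Real.pi : ℂ) * Complex.I * (dot v ξ : ℂ) =
        ((2 * Real.pi * dot v ξ : ℝ) : ℂ) * Complex.I := by push_cast; ring
    rw [this, Complex.norm_exp_ofReal_mul_I]

theorem sym_one {κ : ℝ} (hκ : 0 < κ) :
    (fun ξ => ((κ ^ 2 : ℝ) : ℂ) * aS κ ξ + dS κ 1 ξ + dS κ Complex.I ξ) = fun _ => (1 : ℂ) := by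
  ext ξ
  have hd := (den_pos' hκ ξ).ne'
  rw [aS, dS, dS]
  norm_cast
  rw [mul_one_div, ← add_div, ← add_div, div_eq_one_iff_eq hd]
  unfold den dot
  rw [sq_norm]; simp; ring

theorem sym_s {κ : ℝ} (hκ : 0 < κ) :
    sS κ = fun ξ => dS κ 1 ξ - dS κ Complex.I ξ -
      Complex.I * (dS κ (1 + Complex.I) ξ - dS κ 1 ξ - dS κ Complex.I ξ) := by
  ext ξ
  have hd : (den κ ξ : ℂ) ≠ 0 := by exact_mod_cast (den_pos' hκ ξ).ne'
  rw [sS, dS, dS, dS]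
  push_cast
  rw [div_sub_div_same, div_sub_div_same, div_sub_div_same, mul_div_assoc', div_sub_div_same]
  congr 1
  have h1 : dot 1 ξ = ξ.re := by simp [dot]
  have h2 : dot Complex.I ξ = ξ.im := by simp [dot]
  have h3 : dot (1 + Complex.I) ξ = ξ.re + ξ.im := by simp [dot]
  rw [h1, h2, h3]
  have h4 : starRingEnd ℂ ξ = (ξ.re : ℂ) - (ξ.im : ℂ) * Complex.I := by
    apply Complex.ext <;> simp
  rw [h4]
  push_cast
  linear_combination (4 * (Real.pi : ℂ) ^ 2 * (ξ.im : ℂ) ^ 2) * Complex.I_sq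

end Sym58_

open Sym58_ in
/-- (M2a) -/
theorem stmtSym58 : StmtSym := by
  intro κ hκ
  have ba := bd_aS hκ
  have bd := bd_dS hκ
  refine ⟨ba, bd_sS' hκ, bd, bd_trS', fun h => ?_, fun h => ?_⟩
  · have hk : (0 : ℝ) ≤ 1 / κ ^ 2 := by positivity
    have e1 : Mu (fun ξ => ((κ ^ 2 : ℝ) : ℂ) * aS κ ξ) h = ((κ ^ 2 : ℝ) : ℂ) • A κ h :=
      (stmtMuAlg (aS κ) (aS κ) _ _ hk hk ba ba h).2.2.2.1 _
    have b1 : Bd (fun ξ => ((κ ^ 2 : ℝ) : ℂ) * aS κ ξ) 1 := by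
      refine ⟨measurable_const.mul ba.1, fun ξ => ?_⟩
      rw [norm_mul, Complex.norm_real, Real.norm_of_nonneg (by positivity)]
      calc κ ^ 2 * ‖aS κ ξ‖ ≤ κ ^ 2 * (1 / κ ^ 2) :=
            mul_le_mul_of_nonneg_left (ba.2 ξ) (by positivity)
        _ = 1 := by field_simp
    have e2 := (stmtMuAlg _ _ 1 _ zero_le_one (by positivity) b1 (bd 1) h).1
    have b2 : Bd (fun ξ => ((κ ^ 2 : ℝ) : ℂ) * aS κ ξ + dS κ 1 ξ) (1 + ‖(1 : ℂ)‖ ^ 2) :=
      ⟨b1.1.add (bd 1).1, fun ξ => (norm_add_le _ _).trans (add_le_add (b1.2 ξ) ((bd 1).2 ξ))⟩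
    have e3 := (stmtMuAlg _ _ _ _ (by positivity) (by positivity) b2 (bd Complex.I) h).1
    rw [sym_one hκ, e2, e1] at e3
    have e4 := (stmtMuAlg _ _ 1 1 zero_le_one zero_le_one b1 b1 h).2.2.2.2
    rw [e4] at e3
    exact e3
  · have e1 := (stmtMuAlg _ _ _ _ (by positivity) (by positivity) (bd (1 + Complex.I)) (bd 1) h).2.1
    have b1 : Bd (fun ξ => dS κ (1 + Complex.I) ξ - dS κ 1 ξ)
        (‖(1 + Complex.I : ℂ)‖ ^ 2 + ‖(1 : ℂ)‖ ^ 2) :=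
      ⟨(bd _).1.sub (bd 1).1, fun ξ => (norm_sub_le _ _).trans (add_le_add ((bd _).2 ξ) ((bd 1).2 ξ))⟩
    have e2 := (stmtMuAlg _ _ _ _ (by positivity) (by positivity) b1 (bd Complex.I) h).2.1
    have b2 : Bd (fun ξ => dS κ (1 + Complex.I) ξ - dS κ 1 ξ - dS κ Complex.I ξ)
        (‖(1 + Complex.I : ℂ)‖ ^ 2 + ‖(1 : ℂ)‖ ^ 2 + ‖Complex.I‖ ^ 2) :=
      ⟨b1.1.sub (bd _).1, fun ξ => (norm_sub_le _ _).trans (add_le_add (b1.2 ξ) ((bd _).2 ξ))⟩
    have e3 := (stmtMuAlg _ _ _ _ (by positivity) (by positivity) b2 b2 h).2.2.2.1 Complex.I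
    have b3 : Bd (fun ξ => Complex.I * (dS κ (1 + Complex.I) ξ - dS κ 1 ξ - dS κ Complex.I ξ))
        (‖(1 + Complex.I : ℂ)‖ ^ 2 + ‖(1 : ℂ)‖ ^ 2 + ‖Complex.I‖ ^ 2) :=
      ⟨measurable_const.mul b2.1, fun ξ =>
        (norm_mul _ _).le.trans (by
          have h1 : ‖Complex.I‖ * ‖dS κ (1 + Complex.I) ξ - dS κ 1 ξ - dS κ Complex.I ξ‖ =
            ‖dS κ (1 + Complex.I) ξ - dS κ 1 ξ - dS κ Complex.I ξ‖ := by
              rw [Complex.norm_I, one_mul]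
          exact h1.le.trans (b2.2 ξ))⟩
    have e4 := (stmtMuAlg _ _ _ _ (by positivity) (by positivity) (bd 1) (bd Complex.I) h).2.1
    have b4 : Bd (fun ξ => dS κ 1 ξ - dS κ Complex.I ξ) (‖(1 : ℂ)‖ ^ 2 + ‖Complex.I‖ ^ 2) :=
      ⟨(bd _).1.sub (bd _).1, fun ξ => (norm_sub_le _ _).trans (add_le_add ((bd _).2 ξ) ((bd _).2 ξ))⟩
    have e5 := (stmtMuAlg _ _ _ _ (by positivity) (by positivity) b4 b3 h).2.1
    rw [S, sym_s hκ, e5, e4, e3, e2, e1]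
    rfl

end Pool.Agent.Lib.IWC
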