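import Mathlib

/-!
Vanishing lemma (helper11): if the second difference quotients of `w` in the direction `e` converge in L2
to `D`, then `D = 0` almost everywhere on `{w = 0}`.
-/

open MeasureTheory Filter Set
open scoped ENNReal Topology symmDiff

namespace Pool.Agent.Lib.IWC

/-- continuity of translation, for sets of finite measure -/
theorem tendsto_meas_sdiff {F : Set ℂ} (hF : NullMeasurableSet F (volume : Measure ℂ))
    (hfin : (volume : Measure ℂ) F ≠ ∞) {s : ℕ → ℂ} (hs : Tendsto s atTop (𝓝 0)) :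
    Tendsto (fun k => (volume : Measure ℂ) (F \ (fun x => x + s k) ⁻¹' F)) atTop (𝓝 0) := by
  have key : Tendsto (fun k => (volume : Measure ℂ)
      (((ContinuousMap.mk (fun x : ℂ => x + s k) (by fun_prop) : C(ℂ, ℂ)) ⁻¹' F) ∆
        ((ContinuousMap.mk (fun x : ℂ => x + 0) (by fun_prop) : C(ℂ, ℂ)) ⁻¹' F))) atTop (𝓝 0) := by
    refine tendsto_measure_symmDiff_preimage_nhds_zero (ν := (volume : Measure ℂ)) ?_ ?_ ?_ hF hfin
    · have hc : Continuous (fun a : ℂ => (ContinuousMap.mk (fun x : ℂ => x + a) (by fun_prop) : C(ℂ, ℂ))) := by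
        refine ContinuousMap.continuous_of_continuous_uncurry _ ?_
        simp only [Function.uncurry_def, ContinuousMap.coe_mk]
        fun_prop
      exact (hc.tendsto 0).comp hs
    · exact Eventually.of_forall fun k => measurePreserving_add_right _ _
    · exact measurePreserving_add_right _ _
  refine tendsto_of_tendsto_of_tendsto_of_le_of_le tendsto_const_nhds key (fun _ => zero_le) ?_
  intro k
  refine measure_mono ?_
  intro x hx
  right
  refine ⟨?_, ?_⟩
  · simpa using hx.1
  · exact hx.2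

/-- sets with measures tending to zero: almost every point is outside infinitely many of them -/
theorem ae_frequently_notMem {α : Type*} [MeasurableSpace α] {μ : Measure α} {B : ℕ → Set α}
    (hB : Tendsto (fun k => μ (B k)) atTop (𝓝 0)) : ∀ᵐ x ∂μ, ∃ᶠ k in atTop, x ∉ B k := by
  have h1 : ∀ n : ℕ, μ (⋂ k ≥ n, B k) = 0 := by
    intro n
    refine le_antisymm ?_ zero_le
    refine ge_of_tendsto hB ?_
    filter_upwards [eventually_ge_atTop n] with k hk
    exact measure_mono (iInter₂_subset k hk)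
  have h2 : μ (⋃ n : ℕ, ⋂ k ≥ n, B k) = 0 := measure_iUnion_null h1
  rw [ae_iff]
  refine measure_mono_null ?_ h2
  intro x hx
  simp only [not_frequently, not_not, mem_ofPred_eq, eventually_atTop] at hx
  obtain ⟨n, hn⟩ := hx
  exact mem_iUnion.2 ⟨n, mem_iInter₂.2 fun k hk => hn k hk⟩

/-- VANISHING LEMMA, in one direction `e`. -/
theorem van_dir {w D : ℂ → ℂ} (hw : AEStronglyMeasurable w (volume : Measure ℂ))
    (hD : AEStronglyMeasurable D (volume : Measure ℂ)) {e : ℂ} {t : ℕ → ℝ}
    (ht : Tendsto t atTop (𝓝 0))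
    (hconv : Tendsto (fun k => eLpNorm (fun x => (2 * w x - w (x + (t k : ℂ) * e) -
      w (x - (t k : ℂ) * e)) / ((t k : ℂ) ^ 2) - D x) 2 (volume : Measure ℂ)) atTop (𝓝 0)) :
    ∀ᵐ x ∂(volume : Measure ℂ), w x = 0 → D x = 0 := by
  -- measurability of the quotients
  have hqp : ∀ c : ℂ, AEStronglyMeasurable (fun x => w (x + c)) (volume : Measure ℂ) := fun c =>
    hw.comp_quasiMeasurePreserving (measurePreserving_add_right _ c).quasiMeasurePreserving
  have hqm : ∀ c : ℂ, AEStronglyMeasurable (fun x => w (x - c)) (volume : Measure ℂ) := fun c => by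
    simpa [sub_eq_add_neg] using hqp (-c)
  set q : ℕ → ℂ → ℂ := fun k x => (2 * w x - w (x + (t k : ℂ) * e) -
      w (x - (t k : ℂ) * e)) / ((t k : ℂ) ^ 2) with hq
  have hqmeas : ∀ k, AEStronglyMeasurable (q k) (volume : Measure ℂ) := by
    intro k
    have h1 : AEStronglyMeasurable (fun x => ((t k : ℂ) ^ 2)⁻¹ * (2 * w x - w (x + (t k : ℂ) * e) -
      w (x - (t k : ℂ) * e))) (volume : Measure ℂ) :=
      (((hw.const_mul 2).sub (hqp _)).sub (hqm _)).const_mul _
    refine h1.congr (Eventually.of_forall fun x => ?_)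
    simp only [hq]
    ring
  have hmeas : TendstoInMeasure (volume : Measure ℂ) q atTop D := by
    refine tendstoInMeasure_of_tendsto_eLpNorm (p := 2) (by norm_num) hqmeas hD ?_
    exact hconv
  obtain ⟨ns, hns, hae⟩ := hmeas.exists_seq_tendsto_ae
  -- the zero set
  have hE : NullMeasurableSet {x : ℂ | w x = 0} (volume : Measure ℂ) := by
    have := hw.aemeasurable.nullMeasurable (measurableSet_singleton (0 : ℂ))
    exact this
  have hfreq : ∀ R : ℕ, ∀ᵐ x ∂(volume : Measure ℂ), ∃ᶠ k in atTop,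
      x ∉ (({x : ℂ | w x = 0} ∩ Metric.ball 0 R) \
        (fun x => x + (t (ns k) : ℂ) * e) ⁻¹' ({x : ℂ | w x = 0} ∩ Metric.ball 0 R)) ∪
        (({x : ℂ | w x = 0} ∩ Metric.ball 0 R) \
        (fun x => x + -((t (ns k) : ℂ) * e)) ⁻¹' ({x : ℂ | w x = 0} ∩ Metric.ball 0 R)) := by
    intro R
    have hF : NullMeasurableSet ({x : ℂ | w x = 0} ∩ Metric.ball 0 R) (volume : Measure ℂ) :=
      hE.inter measurableSet_ball.nullMeasurableSet
    have hfin : (volume : Measure ℂ) ({x : ℂ | w x = 0} ∩ Metric.ball 0 R) ≠ ∞ :=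
      ne_top_of_le_ne_top measure_ball_lt_top.ne (measure_mono inter_subset_right)
    have hs : Tendsto (fun k => (t (ns k) : ℂ) * e) atTop (𝓝 0) := by
      have h1 : Tendsto (fun k => ((t (ns k) : ℝ) : ℂ)) atTop (𝓝 ((0 : ℝ) : ℂ)) :=
        (Complex.continuous_ofReal.tendsto 0).comp (ht.comp hns.tendsto_atTop)
      simpa using h1.mul_const e
    have hs' : Tendsto (fun k => -((t (ns k) : ℂ) * e)) atTop (𝓝 0) := by
      simpa using hs.neg
    refine ae_frequently_notMem ?_
    have h3 := (tendsto_meas_sdiff hF hfin hs).add (tendsto_meas_sdiff hF hfin hs')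
    rw [add_zero] at h3
    exact tendsto_of_tendsto_of_tendsto_of_le_of_le tendsto_const_nhds h3 (fun _ => zero_le)
      (fun k => measure_union_le _ _)
  filter_upwards [hae, ae_all_iff.2 hfreq] with x hx hfx hwx
  obtain ⟨R, hR⟩ := exists_nat_gt ‖x‖
  have hxF : x ∈ {x : ℂ | w x = 0} ∩ Metric.ball 0 R := ⟨hwx, by simpa using hR⟩
  by_contra hDx
  have hev : ∀ᶠ k in atTop, q (ns k) x ≠ 0 := hx.eventually_ne hDx
  obtain ⟨k, hk1, hk2⟩ := ((hfx R).and_eventually hev).exists
  apply hk2
  have h1 : w (x + (t (ns k) : ℂ) * e) = 0 := by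
    by_contra h
    exact hk1 (Or.inl ⟨hxF, fun h' => h h'.1⟩)
  have h2 : w (x - (t (ns k) : ℂ) * e) = 0 := by
    by_contra h
    refine hk1 (Or.inr ⟨hxF, fun h' => h ?_⟩)
    have := h'.1
    simpa [sub_eq_add_neg] using this
  simp [hq, h1, h2, hwx]

end Pool.Agent.Lib.IWC
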