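import Pool.Agent.Lib.IWC.Stmts
import Pool.Agent.Lib.IWC.VanCore

/-!
IWC, module M3 (helper11): the vanishing lemma for `w = A h`.
-/

set_option autoImplicit false

namespace Pool.Agent.Lib.IWC

open MeasureTheory Filter Topology Set
open scoped ENNReal

/-- (M3a) -/
theorem stmtVan (hTr : StmtTr) (hDif : StmtDif) : StmtVan := by
  intro κ hκ e h
  set t : ℕ → ℝ := fun k => 1 / ((k : ℝ) + 1) with htdef
  have ht0 : ∀ k, t k ≠ 0 := fun k => by positivity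
  have ht : Tendsto t atTop (𝓝 0) := tendsto_one_div_add_atTop_nhds_zero_nat
  have hlim := hDif κ hκ e h t ht0 ht
  rw [Lp.tendsto_Lp_iff_tendsto_eLpNorm'] at hlim
  refine van_dir (e := e) (t := t) (Lp.aestronglyMeasurable _) (Lp.aestronglyMeasurable _) ht ?_
  refine hlim.congr fun k => ?_
  refine eLpNorm_congr_ae ?_
  have h1 := Lp.coeFn_smul ((((t k ^ 2)⁻¹ : ℝ) : ℂ))
    ((2 : ℂ) • A κ h - tr ((t k : ℂ) * e) (A κ h) - tr (-((t k : ℂ) * e)) (A κ h))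
  have h2 := Lp.coeFn_sub ((2 : ℂ) • A κ h - tr ((t k : ℂ) * e) (A κ h))
    (tr (-((t k : ℂ) * e)) (A κ h))
  have h3 := Lp.coeFn_sub ((2 : ℂ) • A κ h) (tr ((t k : ℂ) * e) (A κ h))
  have h4 := Lp.coeFn_smul (2 : ℂ) (A κ h)
  filter_upwards [h1, h2, h3, h4, hTr ((t k : ℂ) * e) (A κ h), hTr (-((t k : ℂ) * e)) (A κ h)]
    with x x1 x2 x3 x4 x5 x6
  show (dq (t k) e (A κ h) : ℂ → ℂ) x - (Dd κ e h : ℂ → ℂ) x = _
  rw [dq, x1, Pi.smul_apply, x2, Pi.sub_apply, x3, Pi.sub_apply, x4, Pi.smul_apply, x5, x6]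
  simp only [smul_eq_mul, Complex.ofReal_inv, Complex.ofReal_pow, sub_eq_add_neg]
  rw [div_eq_mul_inv]
  ring

/-- (M3b) -/
theorem stmtVan2 (hSym : StmtSym) (hVan : StmtVan) : StmtVan2 := by
  intro κ hκ h
  obtain ⟨-, -, -, -, hh, hS⟩ := hSym κ hκ
  have e1 := hh h
  have e2 := hS h
  set a := A κ h with ha
  set d1 := Dd κ 1 h with hd1
  set d2 := Dd κ Complex.I h with hd2
  set d3 := Dd κ (1 + Complex.I) h with hd3
  have k1 : ∀ᵐ x, (h : ℂ → ℂ) x = ((κ ^ 2 : ℝ) : ℂ) * a x + d1 x + d2 x := by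
    have c1 := Lp.coeFn_add (((κ ^ 2 : ℝ) : ℂ) • a + d1) d2
    have c2 := Lp.coeFn_add (((κ ^ 2 : ℝ) : ℂ) • a) d1
    have c3 := Lp.coeFn_smul ((κ ^ 2 : ℝ) : ℂ) a
    filter_upwards [c1, c2, c3] with x x1 x2 x3
    have : (h : ℂ → ℂ) x = ((((κ ^ 2 : ℝ) : ℂ) • a + d1 + d2 : H) : ℂ → ℂ) x := by
      rw [← e1]
    rw [this, x1, Pi.add_apply, x2, Pi.add_apply, x3, Pi.smul_apply, smul_eq_mul]
  have k2 : ∀ᵐ x, (S κ h : ℂ → ℂ) x = d1 x - d2 x - Complex.I * (d3 x - d1 x - d2 x) := by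
    have c1 := Lp.coeFn_sub (d1 - d2) (Complex.I • (d3 - d1 - d2))
    have c2 := Lp.coeFn_sub d1 d2
    have c3 := Lp.coeFn_smul Complex.I (d3 - d1 - d2)
    have c4 := Lp.coeFn_sub (d3 - d1) d2
    have c5 := Lp.coeFn_sub d3 d1
    filter_upwards [c1, c2, c3, c4, c5] with x x1 x2 x3 x4 x5
    rw [e2, x1, Pi.sub_apply, x2, Pi.sub_apply, x3, Pi.smul_apply, x4, Pi.sub_apply, x5,
      Pi.sub_apply, smul_eq_mul]
  filter_upwards [k1, k2, hVan κ hκ 1 h, hVan κ hκ Complex.I h, hVan κ hκ (1 + Complex.I) h]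
    with x y1 y2 v1 v2 v3 hx
  have z1 : d1 x = 0 := v1 hx
  have z2 : d2 x = 0 := v2 hx
  have z3 : d3 x = 0 := v3 hx
  refine ⟨?_, ?_⟩
  · rw [y1, z1, z2, show (a : ℂ → ℂ) x = 0 from hx]
    simp
  · rw [y2, z1, z2, z3]
    simp

end Pool.Agent.Lib.IWC
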