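import Pool.Agent.Lib.IWC.Main
import Pool.Agent.Lib.IWC.Mul
import Pool.Agent.Lib.IWC.MulS
import Pool.Agent.Lib.IWC.Sym58
import Pool.Agent.Lib.IWC.Dif58
import Pool.Agent.Lib.IWC.Van
import Pool.Agent.Lib.IWC.Tst
import Pool.Agent.Lib.IWC.Obs
import Pool.Agent.Lib.IWC.ObsE95
import Pool.Agent.Lib.IWC.Lf
import Pool.Agent.Lib.IWC.Bur
import Pool.Agent.Lib.IWC.Sup

/-!
`StmtMain` and `StmtSup` without hypotheses.
-/

set_option autoImplicit false

namespace Pool.Agent.Lib.IWC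

/-- The inequality of Šverák, Baernstein and Montgomery-Smith for `S`. -/
theorem stmtMain_all : StmtMain :=
  have hTst := stmtTst stmtTr stmtSym58 stmtDif58
  have hVan2 := stmtVan2 stmtSym58 (stmtVan stmtTr stmtDif58)
  have hObs := stmtObs (stmtObsE95 stmtMu stmtMuPos stmtSym58) stmtMu stmtMuPos stmtSym58 hTst
  main hTst hObs hVan2 stmtMu stmtSym58 stmtLf

/-- The norm bound for `S`, `1 < p < 2`. -/
theorem stmtSup_all : StmtSup := stmtSup stmtMain_all stmtSch stmtSpp stmtBur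

end Pool.Agent.Lib.IWC

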