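import Pool.Agent.Lib.IWC.Stmts

/-!
IWC, M6a: the mass inequality `|{w ≠ 0}| ≤ ∫_{w ≠ 0} |φ|`.
-/

set_option autoImplicit false

namespace Pool.Agent.Lib.IWC

open MeasureTheory Filter Topology Set
open scoped ENNReal

namespace Bm_

theorem norm_Nf {s : ℝ} (hs : 0 < s) (z : ℂ) : ‖Nf s z‖ = ‖z‖ / max s ‖z‖ := by
  have h : 0 ≤ max s ‖z‖ := le_max_of_le_left hs.le
  rw [Nf, norm_div, Complex.norm_real, Real.norm_of_nonneg h]

theorem norm_Nf_le_one {s : ℝ} (hs : 0 < s) (z : ℂ) : ‖Nf s z‖ ≤ 1 := by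
  rw [norm_Nf hs]
  have h : 0 < max s ‖z‖ := lt_max_of_lt_left hs
  rw [div_le_one h]
  exact le_max_right _ _

theorem norm_Nf_le {s : ℝ} (hs : 0 < s) (z : ℂ) : ‖Nf s z‖ ≤ ‖z‖ / s := by
  rw [norm_Nf hs]
  exact div_le_div_of_nonneg_left (norm_nonneg _) hs (le_max_left _ _)

theorem Nf_zero (s : ℝ) : Nf s 0 = 0 := by simp [Nf]

theorem measurable_Nf (s : ℝ) : Measurable (Nf s) := by
  unfold Nf
  fun_prop

theorem sgn_mul {s : ℝ} {w : ℂ} (hw : w ≠ 0) :
    (w / (‖w‖ : ℂ) * starRingEnd ℂ (Nf s w)).re = ‖w‖ / max s ‖w‖ := by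
  have hn : (‖w‖ : ℝ) ≠ 0 := by simpa using hw
  have e : w / (‖w‖ : ℂ) * starRingEnd ℂ (Nf s w) = ((‖w‖ / max s ‖w‖ : ℝ) : ℂ) := by
    rw [Nf, map_div₀, Complex.conj_ofReal, div_mul_div_comm, Complex.mul_conj,
      Complex.normSq_eq_norm_sq]
    push_cast
    have hn' : (‖w‖ : ℂ) ≠ 0 := by exact_mod_cast hn
    rw [pow_two, mul_div_mul_left _ _ hn']
  rw [e, Complex.ofReal_re]

theorem tendsto_norm_Nf {w : ℂ} (hw : w ≠ 0) :
    Tendsto (fun k : ℕ => ‖Nf (1 / ((k : ℝ) + 1)) w‖) atTop (𝓝 1) := by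
  have hn : 0 < ‖w‖ := by simpa using hw
  have h0 : Tendsto (fun k : ℕ => 1 / ((k : ℝ) + 1)) atTop (𝓝 0) :=
    tendsto_one_div_add_atTop_nhds_zero_nat
  have h1 : ∀ᶠ k : ℕ in atTop, 1 / ((k : ℝ) + 1) < ‖w‖ := h0.eventually_lt_const hn
  refine tendsto_const_nhds.congr' ?_
  filter_upwards [h1] with k hk
  have hs : (0 : ℝ) < 1 / ((k : ℝ) + 1) := by positivity
  rw [norm_Nf hs, max_eq_right hk.le, div_self hn.ne']

end Bm_

open Bm_ in
/-- (M6a) -/
theorem mass (hT : StmtTst) : StmtMass := by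
  intro κ hκ φ g hφ hg1 hg
  set W : ℂ → ℂ := (A κ (φ - g) : ℂ → ℂ) with hW
  have hWm : Measurable W := (Lp.stronglyMeasurable (A κ (φ - g))).measurable
  have hU : MeasurableSet {x | W x ≠ 0} := by
    have : MeasurableSet {x | W x = 0} := hWm (measurableSet_singleton 0)
    exact this.compl
  have hW2 : MemLp W 2 volume := Lp.memLp _
  have hφ2 : MemLp (φ : ℂ → ℂ) 2 volume := Lp.memLp _
  have hg2 : MemLp (g : ℂ → ℂ) 2 volume := Lp.memLp _
  set I : ℝ := ∫ x in {x | W x ≠ 0}, ‖(φ : ℂ → ℂ) x‖ with hI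
  have key : ∀ s : ℝ, 0 < s → ∫⁻ x, ENNReal.ofReal ‖Nf s (W x)‖ ≤ ENNReal.ofReal I := by
    intro s hs
    have hN2 : MemLp (fun x => Nf s (W x)) 2 volume := by
      refine MemLp.of_le (g := fun x => ((1 / s : ℝ) : ℂ) * W x) (hW2.const_mul _)
        ((measurable_Nf s).comp hWm).aestronglyMeasurable (ae_of_all _ fun x => ?_)
      refine (norm_Nf_le hs _).trans (le_of_eq ?_)
      rw [norm_mul, Complex.norm_real, Real.norm_of_nonneg (by positivity)]
      ring
    have hNc : MemLp (fun x => starRingEnd ℂ (Nf s (W x))) 2 volume := by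
      refine MemLp.of_le hN2 ?_ (ae_of_all _ fun x => ?_)
      · exact (Complex.continuous_conj.measurable.comp
          ((measurable_Nf s).comp hWm)).aestronglyMeasurable
      · simp
    have i1 : Integrable (fun x => (φ : ℂ → ℂ) x * starRingEnd ℂ (Nf s (W x))) volume :=
      hφ2.integrable_mul hNc
    have i2 : Integrable (fun x => (g : ℂ → ℂ) x * starRingEnd ℂ (Nf s (W x))) volume :=
      hg2.integrable_mul hNc
    have i1r : Integrable (fun x => ((φ : ℂ → ℂ) x * starRingEnd ℂ (Nf s (W x))).re) volume :=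
      i1.re
    have i2r : Integrable (fun x => ((g : ℂ → ℂ) x * starRingEnd ℂ (Nf s (W x))).re) volume :=
      i2.re
    have h0 := hT κ hκ (φ - g) s hs
    have e0 : ∫ x, (((φ - g : H) : ℂ → ℂ) x * starRingEnd ℂ (Nf s (W x))).re =
        ∫ x, (((φ : ℂ → ℂ) x * starRingEnd ℂ (Nf s (W x))).re - ‖Nf s (W x)‖) := by
      apply integral_congr_ae
      filter_upwards [Lp.coeFn_sub φ g, hg] with x hx hgx
      rw [hx, Pi.sub_apply, sub_mul, Complex.sub_re]
      congr 1
      by_cases hw : W x = 0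
      · rw [hw, Nf_zero]; simp
      · rw [hgx hw, sgn_mul hw, norm_Nf hs]
    have i3 : Integrable (fun x => ‖Nf s (W x)‖) volume := by
      refine i2r.congr ?_
      filter_upwards [hg] with x hgx
      by_cases hw : W x = 0
      · rw [hw, Nf_zero]; simp
      · rw [hgx hw]
        have := sgn_mul (s := s) hw
        rw [norm_Nf hs]
        exact this
    have h1 : ∫ x, ‖Nf s (W x)‖ ≤ ∫ x, ((φ : ℂ → ℂ) x * starRingEnd ℂ (Nf s (W x))).re := by
      have : 0 ≤ ∫ x, (((φ : ℂ → ℂ) x * starRingEnd ℂ (Nf s (W x))).re - ‖Nf s (W x)‖) := by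
        rw [← e0]; exact h0
      rw [integral_sub i1r i3] at this
      linarith
    have h2 : ∫ x, ((φ : ℂ → ℂ) x * starRingEnd ℂ (Nf s (W x))).re ≤ I := by
      rw [hI, ← integral_indicator hU]
      refine integral_mono_ae i1r (hφ.norm.indicator hU) (ae_of_all _ fun x => ?_)
      by_cases hw : W x = 0
      · have : x ∉ {x | W x ≠ 0} := by simpa using hw
        rw [indicator_of_notMem this]
        show ((φ : ℂ → ℂ) x * starRingEnd ℂ (Nf s (W x))).re ≤ 0
        rw [hw, Nf_zero]; simp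
      · have : x ∈ {x | W x ≠ 0} := hw
        rw [indicator_of_mem this]
        show ((φ : ℂ → ℂ) x * starRingEnd ℂ (Nf s (W x))).re ≤ ‖(φ : ℂ → ℂ) x‖
        refine (Complex.re_le_norm _).trans ?_
        rw [norm_mul, RCLike.norm_conj]
        exact mul_le_of_le_one_right (norm_nonneg _) (norm_Nf_le_one hs _)
    rw [← ofReal_integral_eq_lintegral_ofReal i3 (ae_of_all _ fun x => norm_nonneg _)]
    exact ENNReal.ofReal_le_ofReal (h1.trans h2)
  have hvol : volume {x | W x ≠ 0} ≤ ENNReal.ofReal I := by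
    have f1 : volume {x | W x ≠ 0} ≤
        ∫⁻ x, liminf (fun k : ℕ => ENNReal.ofReal ‖Nf (1 / ((k : ℝ) + 1)) (W x)‖) atTop := by
      rw [← lintegral_indicator_one hU]
      refine lintegral_mono fun x => ?_
      by_cases hw : W x = 0
      · have : x ∉ {x | W x ≠ 0} := by simpa using hw
        rw [indicator_of_notMem this]; exact zero_le
      · have : x ∈ {x | W x ≠ 0} := hw
        rw [indicator_of_mem this]
        have := (ENNReal.continuous_ofReal.tendsto 1).comp (tendsto_norm_Nf hw)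
        rw [ENNReal.ofReal_one] at this
        have h := this.liminf_eq
        simp only [Function.comp_def] at h
        rw [h]; simp
    refine f1.trans ((lintegral_liminf_le fun k => ?_).trans ?_)
    · exact (((measurable_Nf _).comp hWm).norm).ennreal_ofReal
    · refine liminf_le_of_le (by isBoundedDefault) fun b hb => ?_
      obtain ⟨k, hk⟩ := hb.exists
      exact hk.trans (key _ (by positivity))
  have hI0 : 0 ≤ I := by
    rw [hI]; exact integral_nonneg fun x => norm_nonneg _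
  refine ⟨hvol.trans_lt ENNReal.ofReal_lt_top, ?_⟩
  exact ENNReal.toReal_le_of_le_ofReal hI0 hvol

end Pool.Agent.Lib.IWC
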