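import Pool.Agent.Lib.IWC.Stmts
import Pool.Agent.Lib.MP_dd244f_an.Joint.Dual

/-!
M10: from `1 < q < 2` to `p ≥ 2`.
-/

set_option autoImplicit false

namespace Pool.Agent.Lib.IWC

open MeasureTheory Filter Topology Set FourierTransform SchwartzMap
open scoped SchwartzMap ENNReal ContDiff
open Pool.Agent.Lib.MP_dd244f_an Pool.Agent.Lib.MP_dd244f_an.Joint

/-- Duality; only compactly supported functions are needed for `1 < q < 2`. -/
theorem iwa' (h : ∀ q : ℝ, 1 < q → q < 2 → ∀ f : 𝓢(ℂ, ℂ), HasCompactSupport f →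
    eLpNorm (Tn 1 f) (ENNReal.ofReal q) volume ≤
      ENNReal.ofReal (1 / (q - 1)) * eLpNorm f (ENNReal.ofReal q) volume) : StmtIwa := by
  intro p hp f
  change eLpNorm (Tn 1 f) (ENNReal.ofReal p) volume ≤ _
  rcases hp.eq_or_lt with h2 | h2
  · subst h2
    rw [show ENNReal.ofReal (2 : ℝ) = 2 by norm_num, show (2 : ℝ) - 1 = 1 by norm_num,
      ENNReal.ofReal_one, one_mul]
    exact Tn_L2 1 f
  · have hp0 : 0 < p := by linarith
    have hp1 : 0 < p - 1 := by linarith
    have hq1 : 1 < p / (p - 1) := by rw [one_lt_div hp1]; linarith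
    have hq2 : p / (p - 1) < 2 := by rw [div_lt_iff₀ hp1]; linarith
    have hq0 : 0 < p / (p - 1) := by linarith
    have hc : 1 / (p / (p - 1) - 1) = p - 1 := by
      have : p / (p - 1) - 1 = 1 / (p - 1) := by field_simp; ring
      rw [this, one_div_one_div]
    refine dual 1 p (p / (p - 1)) (p - 1) h2 (by field_simp; ring) hp1.le (fun g hg => ?_) f
    have h3 := h _ hq1 hq2 g hg
    rw [hc, DualAux.N_eq hq0, DualAux.N_eq hq0, DualAux.N, DualAux.N] at h3
    have h4 := ENNReal.rpow_le_rpow h3 hq0.le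
    rwa [ENNReal.mul_rpow_of_nonneg _ _ hq0.le, ← ENNReal.rpow_mul, ← ENNReal.rpow_mul,
      one_div_mul_cancel hq0.ne', ENNReal.rpow_one, ENNReal.rpow_one,
      ENNReal.ofReal_rpow_of_nonneg hp1.le hq0.le] at h4

/-- (M10) -/
theorem iwa (h : StmtLow) : StmtIwa := iwa' fun q h1 h2 f _ => h q h1 h2 f

/-- All exponents, with the constant `max (p - 1) (1 / (p - 1))`. -/
theorem iwa_all (h : StmtLow) (p : ℝ) (hp : 1 < p) (f : 𝓢(ℂ, ℂ)) :
    eLpNorm (T f) (ENNReal.ofReal p) volume ≤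
      ENNReal.ofReal (max (p - 1) (1 / (p - 1))) * eLpNorm f (ENNReal.ofReal p) volume := by
  rcases lt_or_ge p 2 with h2 | h2
  · refine (h p hp h2 f).trans ?_
    gcongr
    exact le_max_right _ _
  · refine (iwa h p h2 f).trans ?_
    gcongr
    exact le_max_left _ _

end Pool.Agent.Lib.IWC
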