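import Pool.Agent.Lib.IWC.Stmts

set_option autoImplicit false

namespace Pool.Agent.Lib.IWC

open MeasureTheory Filter Topology Set FourierTransform SchwartzMap
open scoped SchwartzMap ENNReal ContDiff

/-- Both halves in one formula, in the expression of the frozen statement. -/
theorem fin_of (hI : StmtIwa) (hL : StmtLow) : ∀ p : ℝ, 1 < p → ∀ f : SchwartzMap ℂ ℂ,
      MeasureTheory.eLpNorm
        (fun z : ℂ => ∫ ξ : ℂ,
          Complex.exp (2 * (Real.pi : ℂ) * Complex.I * (((z.re * ξ.re + z.im * ξ.im : ℝ)) : ℂ)) *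
            (starRingEnd ℂ ξ / ξ *
              ∫ x : ℂ, Complex.exp (-(2 * (Real.pi : ℂ) * Complex.I *
                (((x.re * ξ.re + x.im * ξ.im : ℝ)) : ℂ))) * f x))
        (ENNReal.ofReal p) MeasureTheory.volume
      ≤ ENNReal.ofReal (max (p - 1) (1 / (p - 1)))
        * MeasureTheory.eLpNorm (⇑f) (ENNReal.ofReal p) MeasureTheory.volume := by
  intro p hp f
  have h1 : (fun z : ℂ => ∫ ξ : ℂ,
          Complex.exp (2 * (Real.pi : ℂ) * Complex.I * (((z.re * ξ.re + z.im * ξ.im : ℝ)) : ℂ)) *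
            (starRingEnd ℂ ξ / ξ *
              ∫ x : ℂ, Complex.exp (-(2 * (Real.pi : ℂ) * Complex.I *
                (((x.re * ξ.re + x.im * ξ.im : ℝ)) : ℂ))) * f x)) = T f := by
    ext z
    simp only [T, Pool.Agent.Lib.MP_dd244f_an.Tn, pow_one]
  rw [h1]
  rcases lt_or_ge p 2 with h2 | h2
  · exact (hL p hp h2 f).trans (mul_le_mul_left (ENNReal.ofReal_le_ofReal (le_max_right _ _)) _)
  · exact (hI p h2 f).trans (mul_le_mul_left (ENNReal.ofReal_le_ofReal (le_max_left _ _)) _)

end Pool.Agent.Lib.IWC
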