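import Pool.Agent.Lib.IWC.Lim58
import Pool.Agent.Lib.IWC.Dual
import Pool.Agent.Lib.IWC.Fin54

/-!
Iwaniec's conjecture, without hypotheses.
-/

set_option autoImplicit false

namespace Pool.Agent.Lib.IWC

open MeasureTheory
open scoped SchwartzMap ENNReal

theorem stmtIwa_all : StmtIwa := iwa stmtLow58

/-- Iwaniec's conjecture for the expression of the frozen statement, every `p > 1`. -/
theorem iwaniec (p : ℝ) (hp : 1 < p) (f : 𝓢(ℂ, ℂ)) :
    eLpNorm
        (fun z : ℂ =>
          ∫ ξ : ℂ,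
            Complex.exp (2 * (Real.pi : ℂ) * Complex.I *
              (((z.re * ξ.re + z.im * ξ.im : ℝ)) : ℂ)) *
              (starRingEnd ℂ ξ / ξ *
                ∫ x : ℂ, Complex.exp (-(2 * (Real.pi : ℂ) * Complex.I *
                  (((x.re * ξ.re + x.im * ξ.im : ℝ)) : ℂ))) * f x))
        (ENNReal.ofReal p) volume ≤
      ENNReal.ofReal (max (p - 1) (1 / (p - 1))) * eLpNorm (⇑f) (ENNReal.ofReal p) volume :=
  fin_of stmtIwa_all stmtLow58 p hp f

end Pool.Agent.Lib.IWC
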