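import Pool.Agent.Lib.IWC.All

/-!
M9: the limit `κ → 0`.
-/

set_option autoImplicit false

namespace Pool.Agent.Lib.IWC

open MeasureTheory Filter Topology Set FourierTransform SchwartzMap
open scoped SchwartzMap ENNReal ContDiff

theorem sS_tendsto (ξ : ℂ) :
    Tendsto (fun k : ℕ => sS (1 / ((k : ℝ) + 1)) ξ) atTop (𝓝 ((starRingEnd ℂ ξ / ξ) ^ 1)) := by
  rcases eq_or_ne ξ 0 with rfl | hξ
  · simp [sS]
  · have h1 : Tendsto (fun k : ℕ => (1 / ((k : ℝ) + 1) : ℝ)) atTop (𝓝 0) :=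
      tendsto_one_div_add_atTop_nhds_zero_nat
    have h2 : Tendsto (fun k : ℕ => den (1 / ((k : ℝ) + 1)) ξ) atTop
        (𝓝 (0 ^ 2 + 4 * Real.pi ^ 2 * ‖ξ‖ ^ 2)) := by
      unfold den
      exact (h1.pow 2).add_const _
    have h3 : (0 ^ 2 + 4 * Real.pi ^ 2 * ‖ξ‖ ^ 2 : ℝ) ≠ 0 := by
      have : 0 < ‖ξ‖ := norm_pos_iff.mpr hξ
      have : 0 < 4 * Real.pi ^ 2 * ‖ξ‖ ^ 2 := by positivity
      linarith
    have h4 : Tendsto (fun k : ℕ => ((den (1 / ((k : ℝ) + 1)) ξ : ℝ) : ℂ)) atTop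
        (𝓝 ((0 ^ 2 + 4 * Real.pi ^ 2 * ‖ξ‖ ^ 2 : ℝ) : ℂ)) :=
      (Complex.continuous_ofReal.tendsto _).comp h2
    have h5 : Tendsto (fun k : ℕ => sS (1 / ((k : ℝ) + 1)) ξ) atTop
        (𝓝 (4 * (Real.pi : ℂ) ^ 2 * (starRingEnd ℂ ξ) ^ 2 /
          ((0 ^ 2 + 4 * Real.pi ^ 2 * ‖ξ‖ ^ 2 : ℝ) : ℂ))) :=
      Tendsto.div tendsto_const_nhds h4 (by exact_mod_cast h3)
    have h6 : 4 * (Real.pi : ℂ) ^ 2 * (starRingEnd ℂ ξ) ^ 2 /
        ((0 ^ 2 + 4 * Real.pi ^ 2 * ‖ξ‖ ^ 2 : ℝ) : ℂ) = (starRingEnd ℂ ξ / ξ) ^ 1 := by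
      have h7 : ((‖ξ‖ ^ 2 : ℝ) : ℂ) = ξ * starRingEnd ℂ ξ := by
        rw [Complex.mul_conj, Complex.normSq_eq_norm_sq]
      have h8 : starRingEnd ℂ ξ ≠ 0 := by simpa using hξ
      have h9 : (Real.pi : ℂ) ≠ 0 := by exact_mod_cast Real.pi_ne_zero
      have h10 : ((0 ^ 2 + 4 * Real.pi ^ 2 * ‖ξ‖ ^ 2 : ℝ) : ℂ) =
          4 * (Real.pi : ℂ) ^ 2 * (ξ * starRingEnd ℂ ξ) := by
        rw [← h7]; push_cast; ring
      rw [h10]
      field_simp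
    rwa [h6] at h5

/-- (M9a) -/
theorem stmtKap58 : StmtKap := by
  intro φ z
  have hT : T φ z = 𝓕⁻ (fun ξ : ℂ => (starRingEnd ℂ ξ / ξ) ^ 1 * 𝓕 (φ : ℂ → ℂ) ξ) z :=
    Pool.Agent.Lib.MP_dd244f_an.Tn_eq 1 φ z
  rw [hT]
  unfold Sk
  simp_rw [Real.fourierInv_eq']
  have hi : Integrable (𝓕 (φ : ℂ → ℂ)) volume := by
    have := (𝓕 φ : 𝓢(ℂ, ℂ)).integrable (μ := (volume : Measure ℂ))
    rwa [SchwartzMap.fourier_coe] at this
  have hex : ∀ v : ℂ, ‖Complex.exp (((2 * Real.pi * inner ℝ v z : ℝ) : ℂ) * Complex.I)‖ = 1 :=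
    fun v => Complex.norm_exp_ofReal_mul_I _
  refine tendsto_integral_of_dominated_convergence (fun ξ => ‖𝓕 (φ : ℂ → ℂ) ξ‖) (fun k => ?_)
    hi.norm (fun k => ?_) ?_
  · have hk : (0 : ℝ) < 1 / ((k : ℝ) + 1) := by positivity
    have h1 : Measurable (sS (1 / ((k : ℝ) + 1))) := (bd_sS hk).1
    have h2 : Continuous fun v : ℂ =>
        Complex.exp (((2 * Real.pi * inner ℝ v z : ℝ) : ℂ) * Complex.I) := by fun_prop
    exact h2.aestronglyMeasurable.smul (h1.aestronglyMeasurable.mul hi.1)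
  · have hk : (0 : ℝ) < 1 / ((k : ℝ) + 1) := by positivity
    filter_upwards with ξ
    rw [norm_smul, hex, one_mul, norm_mul, SchwartzMap.fourier_coe]
    have h1 := (bd_sS hk).2 ξ
    have h2 := norm_nonneg (𝓕 (φ : ℂ → ℂ) ξ)
    calc _ ≤ 1 * ‖𝓕 (φ : ℂ → ℂ) ξ‖ := by gcongr
      _ = _ := one_mul _
  · filter_upwards with ξ
    exact ((sS_tendsto ξ).mul_const _).const_smul _

/-- (M9b) -/
theorem stmtLow58 : StmtLow := by
  intro p hp1 hp2 φ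
  have h1 : eLpNorm (T φ) (ENNReal.ofReal p) volume ≤
      atTop.liminf fun k : ℕ =>
        eLpNorm (Sk (1 / ((k : ℝ) + 1)) φ) (ENNReal.ofReal p) volume := by
    refine Lp.eLpNorm_lim_le_liminf_eLpNorm (fun k => ?_) _ ?_
    · have hk : (0 : ℝ) < 1 / ((k : ℝ) + 1) := by positivity
      obtain ⟨_, ψ, hψ⟩ := stmtSch _ hk φ
      have : Sk (1 / ((k : ℝ) + 1)) φ = ψ := funext hψ
      rw [this]
      exact ψ.continuous.aestronglyMeasurable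
    · filter_upwards with z
      exact stmtKap58 φ z
  refine h1.trans ?_
  refine Filter.liminf_le_of_le (by isBoundedDefault) fun b hb => ?_
  obtain ⟨k, hk⟩ := hb.exists
  exact hk.trans (stmtSup_all _ p (by positivity) hp1 hp2 φ)

end Pool.Agent.Lib.IWC
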