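import Pool.Agent.Lib.IWC.Bm

/-!
IWC, M6b: the inequality `∫ L(|φ|, |S φ|) ≥ 0`.
-/

set_option autoImplicit false

namespace Pool.Agent.Lib.IWC

open MeasureTheory Filter Topology Set
open scoped ENNReal

namespace Main_

theorem sq_int (f : H) : Integrable (fun x => ‖(f : ℂ → ℂ) x‖ ^ 2) volume :=
  (Lp.memLp f).integrable_norm_pow (by norm_num)

theorem int_sq (f : H) : ∫ x, ‖(f : ℂ → ℂ) x‖ ^ 2 = ‖f‖ ^ 2 := by
  have h := L2.inner_def (𝕜 := ℂ) f f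
  have h2 : (inner ℂ f f : ℂ) = ((‖f‖ ^ 2 : ℝ) : ℂ) := by
    rw [inner_self_eq_norm_sq_to_K]; norm_cast
  rw [h2] at h
  have h3 : ∫ x, (inner ℂ ((f : ℂ → ℂ) x) ((f : ℂ → ℂ) x) : ℂ) =
      ∫ x, ((‖(f : ℂ → ℂ) x‖ ^ 2 : ℝ) : ℂ) := by
    congr 1; ext x; rw [inner_self_eq_norm_sq_to_K]; norm_cast
  have h4 : ∫ x, ((‖(f : ℂ → ℂ) x‖ ^ 2 : ℝ) : ℂ) = ((∫ x, ‖(f : ℂ → ℂ) x‖ ^ 2 : ℝ) : ℂ) :=
    integral_complex_ofReal
  rw [h3, h4] at h
  exact_mod_cast h.symm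

end Main_

open Main_ in
/-- (M6b) -/
theorem main (hT : StmtTst) (hO : StmtObs) (hV : StmtVan2) (hM : StmtMu) (hS : StmtSym)
    (hL : StmtLf) : StmtMain := by
  intro κ hκ φ hφ
  obtain ⟨hL1, hL2, hL3, hLm⟩ := hL
  have hbd := (hS κ hκ).2.1
  have hint : Integrable (fun x => Lf ‖(φ : ℂ → ℂ) x‖ ‖(S κ φ : ℂ → ℂ) x‖) volume := by
    refine Integrable.mono' (((sq_int φ).add (sq_int (S κ φ))).const_mul 4) ?_
      (ae_of_all _ fun x => ?_)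
    · exact (hLm.comp ((Lp.stronglyMeasurable φ).measurable.norm.prodMk
        (Lp.stronglyMeasurable (S κ φ)).measurable.norm)).aestronglyMeasurable
    · rw [Real.norm_eq_abs]
      exact hL3 _ _ (norm_nonneg _) (norm_nonneg _)
  refine ⟨hint, ?_⟩
  obtain ⟨g, hg1, hg⟩ := hO κ hκ φ
  obtain ⟨hv, hm⟩ := mass hT κ hκ φ g hφ hg1 hg
  have hvan := hV κ hκ (φ - g)
  set W : ℂ → ℂ := (A κ (φ - g) : ℂ → ℂ) with hW
  have hWm : Measurable W := (Lp.stronglyMeasurable (A κ (φ - g))).measurable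
  set U : Set ℂ := {x | W x ≠ 0} with hUdef
  have hU : MeasurableSet U := by
    have : MeasurableSet {x | W x = 0} := hWm (measurableSet_singleton 0)
    exact this.compl
  have hUs : U.indicator (fun _ => (1 : ℝ)) = fun x => U.indicator (fun _ => (1 : ℝ)) x := rfl
  -- the two a.e. facts off `U`
  have hoff : ∀ᵐ x, x ∉ U → (g : ℂ → ℂ) x = (φ : ℂ → ℂ) x ∧
      (S κ φ : ℂ → ℂ) x = (S κ g : ℂ → ℂ) x := by
    have e : S κ (φ - g) = S κ φ - S κ g := ((hM (sS κ) 1 zero_le_one hbd) φ g).2.1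
    filter_upwards [hvan, Lp.coeFn_sub φ g, Lp.coeFn_sub (S κ φ) (S κ g)] with x h1 h2 h3 hx
    have hw : W x = 0 := by
      by_contra h; exact hx h
    obtain ⟨h4, h5⟩ := h1 hw
    rw [h2, Pi.sub_apply, sub_eq_zero] at h4
    rw [e, h3, Pi.sub_apply, sub_eq_zero] at h5
    exact ⟨h4.symm, h5⟩
  -- the norm of `S g`
  have hSg : ∫ x, ‖(S κ g : ℂ → ℂ) x‖ ^ 2 ≤ ∫ x, ‖(g : ℂ → ℂ) x‖ ^ 2 := by
    rw [int_sq, int_sq]
    have := ((hM (sS κ) 1 zero_le_one hbd) g g).2.2.2.1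
    rw [one_mul] at this
    exact pow_le_pow_left₀ (norm_nonneg _) this 2
  have iU : Integrable (U.indicator (fun _ => (1 : ℝ))) volume :=
    (integrable_indicator_iff hU).2 (integrableOn_const (by exact hv.ne))
  have vU : ∫ x, U.indicator (fun _ => (1 : ℝ)) x = (volume U).toReal := by
    rw [integral_indicator hU, setIntegral_const, smul_eq_mul, mul_one]; rfl
  have iφU : Integrable (U.indicator (fun x => ‖(φ : ℂ → ℂ) x‖)) volume := hφ.norm.indicator hU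
  -- pointwise lower bound
  have low : ∀ᵐ x, 2 * U.indicator (fun x => ‖(φ : ℂ → ℂ) x‖) x
      - 2 * U.indicator (fun _ => (1 : ℝ)) x + (‖(g : ℂ → ℂ) x‖ ^ 2 - ‖(S κ g : ℂ → ℂ) x‖ ^ 2)
      ≤ Lf ‖(φ : ℂ → ℂ) x‖ ‖(S κ φ : ℂ → ℂ) x‖ := by
    filter_upwards [hg1, hoff] with x h1 h2
    by_cases hx : x ∈ U
    · rw [indicator_of_mem hx, indicator_of_mem hx]
      have h3 := hL1 ‖(φ : ℂ → ℂ) x‖ ‖(S κ φ : ℂ → ℂ) x‖ (norm_nonneg _) (norm_nonneg _)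
      have h4 : ‖(g : ℂ → ℂ) x‖ ^ 2 ≤ 1 := pow_le_one₀ (norm_nonneg _) h1
      have h5 : 0 ≤ ‖(S κ g : ℂ → ℂ) x‖ ^ 2 := by positivity
      linarith
    · rw [indicator_of_notMem hx, indicator_of_notMem hx]
      obtain ⟨h3, h4⟩ := h2 hx
      rw [h4, ← h3]
      have := hL2 ‖(g : ℂ → ℂ) x‖ ‖(S κ g : ℂ → ℂ) x‖ (norm_nonneg _) h1 (norm_nonneg _)
      linarith
  have ilow : Integrable (fun x => 2 * U.indicator (fun x => ‖(φ : ℂ → ℂ) x‖) x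
      - 2 * U.indicator (fun _ => (1 : ℝ)) x
      + (‖(g : ℂ → ℂ) x‖ ^ 2 - ‖(S κ g : ℂ → ℂ) x‖ ^ 2)) volume :=
    ((iφU.const_mul 2).sub (iU.const_mul 2)).add ((sq_int g).sub (sq_int (S κ g)))
  have i1 : Integrable (fun x => 2 * U.indicator (fun x => ‖(φ : ℂ → ℂ) x‖) x
      - 2 * U.indicator (fun _ => (1 : ℝ)) x) volume := (iφU.const_mul 2).sub (iU.const_mul 2)
  have i2 : Integrable (fun x => ‖(g : ℂ → ℂ) x‖ ^ 2 - ‖(S κ g : ℂ → ℂ) x‖ ^ 2) volume :=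
    (sq_int g).sub (sq_int (S κ g))
  refine le_trans ?_ (integral_mono_ae ilow hint low)
  rw [integral_add i1 i2, integral_sub (iφU.const_mul 2) (iU.const_mul 2), integral_sub (sq_int g) (sq_int (S κ g)),
    integral_const_mul, integral_const_mul, vU, integral_indicator hU]
  have : (volume U).toReal ≤ ∫ x in U, ‖(φ : ℂ → ℂ) x‖ := hm
  linarith

end Pool.Agent.Lib.IWC
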