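import Pool.Agent.Lib.MP_dd244f_an.Op

/-!
Iwaniec's conjecture `‖T‖_p = p* - 1`.
Definitions and the statements of the modules (as `Prop`s, nothing is proved here).

`κ > 0`.  `A = (κ² - Δ)⁻¹`, `Dd e = - ∂_e² A`, `S = 4 ∂² (Δ - κ²)⁻¹` on `L²(ℂ)`, all as Fourier
multipliers with bounded symbols; `S → T` as `κ → 0`.
-/

set_option autoImplicit false

namespace Pool.Agent.Lib.IWC

open MeasureTheory Filter Topology Set FourierTransform SchwartzMap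
open scoped SchwartzMap ENNReal ContDiff ComplexInnerProductSpace

/-! ### Definitions -/

/-- The Hilbert space `L²(ℂ)`. -/
abbrev H : Type := Lp ℂ 2 (volume : Measure ℂ)

open Classical in
/-- The product of a function and an `L²` function. -/
noncomputable def mulH (m : ℂ → ℂ) (f : H) : H :=
  if h : MemLp (fun ξ => m ξ * f ξ) 2 volume then h.toLp _ else 0

/-- The Fourier multiplier with the symbol `m`. -/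
noncomputable def Mu (m : ℂ → ℂ) (f : H) : H := 𝓕⁻ (mulH m (𝓕 f))

/-- The symbol is measurable and bounded by `C`. -/
def Bd (m : ℂ → ℂ) (C : ℝ) : Prop := Measurable m ∧ ∀ ξ, ‖m ξ‖ ≤ C

/-- The real scalar product of the plane. -/
noncomputable def dot (a b : ℂ) : ℝ := a.re * b.re + a.im * b.im

/-- The denominator `κ² + 4π²|ξ|²`. -/
noncomputable def den (κ : ℝ) (ξ : ℂ) : ℝ := κ ^ 2 + 4 * Real.pi ^ 2 * ‖ξ‖ ^ 2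

/-- The symbol of `A = (κ² - Δ)⁻¹`. -/
noncomputable def aS (κ : ℝ) (ξ : ℂ) : ℂ := ((1 / den κ ξ : ℝ) : ℂ)

/-- The symbol of `- ∂_e² A`. -/
noncomputable def dS (κ : ℝ) (e ξ : ℂ) : ℂ := ((4 * Real.pi ^ 2 * dot e ξ ^ 2 / den κ ξ : ℝ) : ℂ)

/-- The symbol of `S = 4 ∂² (Δ - κ²)⁻¹`. -/
noncomputable def sS (κ : ℝ) (ξ : ℂ) : ℂ :=
  4 * (Real.pi : ℂ) ^ 2 * (starRingEnd ℂ ξ) ^ 2 / (den κ ξ : ℂ)

/-- The symbol of the translation `f ↦ f (· + v)`. -/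
noncomputable def trS (v ξ : ℂ) : ℂ := Complex.exp (2 * Real.pi * Complex.I * (dot v ξ : ℂ))

noncomputable def A (κ : ℝ) (h : H) : H := Mu (aS κ) h
noncomputable def Dd (κ : ℝ) (e : ℂ) (h : H) : H := Mu (dS κ e) h
noncomputable def S (κ : ℝ) (h : H) : H := Mu (sS κ) h
noncomputable def tr (v : ℂ) (h : H) : H := Mu (trS v) h

/-- The difference quotient `(2 f - f(· + te) - f(· - te)) / t²`. -/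
noncomputable def dq (t : ℝ) (e : ℂ) (f : H) : H :=
  (((t ^ 2)⁻¹ : ℝ) : ℂ) • ((2 : ℂ) • f - tr ((t : ℂ) * e) f - tr (-((t : ℂ) * e)) f)

/-- The truncated sign `z / max s |z|` (a monotone map, for `s > 0`). -/
noncomputable def Nf (s : ℝ) (z : ℂ) : ℂ := z / ((max s ‖z‖ : ℝ) : ℂ)

/-- The function of Šverák, Baernstein and Montgomery-Smith (Burkholder). -/
noncomputable def Lf (x y : ℝ) : ℝ := if x + y ≤ 1 then x ^ 2 - y ^ 2 else 2 * x - 1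

/-- `S` on Schwartz functions. -/
noncomputable def Sk (κ : ℝ) (φ : 𝓢(ℂ, ℂ)) (z : ℂ) : ℂ := 𝓕⁻ (fun ξ : ℂ => sS κ ξ * 𝓕 φ ξ) z

/-- The operator `T` (the expression of the frozen statement, `n = 1`), see `Tn_eq`. -/
noncomputable abbrev T (φ : ℂ → ℂ) : ℂ → ℂ := Pool.Agent.Lib.MP_dd244f_an.Tn 1 φ

/-! ### M1: multipliers -/

/-- (M1a) algebra and norm -/
def StmtMu : Prop := ∀ (m : ℂ → ℂ) (C : ℝ), 0 ≤ C → Bd m C → ∀ f g : H,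
  Mu m (f + g) = Mu m f + Mu m g ∧ Mu m (f - g) = Mu m f - Mu m g ∧
    (∀ c : ℂ, Mu m (c • f) = c • Mu m f) ∧ ‖Mu m f‖ ≤ C * ‖f‖ ∧
    ⟪Mu m f, g⟫ = ⟪f, Mu (fun ξ => starRingEnd ℂ (m ξ)) g⟫

/-- (M1b) sums, products, equal symbols -/
def StmtMuAlg : Prop := ∀ (m n : ℂ → ℂ) (C D : ℝ), 0 ≤ C → 0 ≤ D → Bd m C → Bd n D → ∀ f : H,
  Mu (fun ξ => m ξ + n ξ) f = Mu m f + Mu n f ∧
    Mu (fun ξ => m ξ - n ξ) f = Mu m f - Mu n f ∧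
    Mu (fun ξ => m ξ * n ξ) f = Mu m (Mu n f) ∧
    (∀ c : ℂ, Mu (fun ξ => c * m ξ) f = c • Mu m f) ∧ Mu (fun _ => 1) f = f

/-- (M1c) strong convergence -/
def StmtMuLim : Prop := ∀ (m : ℕ → ℂ → ℂ) (n : ℂ → ℂ) (C : ℝ), 0 ≤ C → (∀ k, Bd (m k) C) →
  Bd n C → (∀ ξ, Tendsto (fun k => m k ξ) atTop (𝓝 (n ξ))) → ∀ f : H,
    Tendsto (fun k => Mu (m k) f) atTop (𝓝 (Mu n f))

/-- (M1d) a nonnegative symbol -/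
def StmtMuPos : Prop := ∀ (m : ℂ → ℝ) (C : ℝ), 0 ≤ C → Bd (fun ξ => (m ξ : ℂ)) C →
  (∀ ξ, 0 ≤ m ξ) → ∀ f : H, 0 ≤ (⟪Mu (fun ξ => (m ξ : ℂ)) f, f⟫ : ℂ).re

/-- (M1e) the translation -/
def StmtTr : Prop := ∀ (v : ℂ) (f : H), ∀ᵐ x, (tr v f : ℂ → ℂ) x = f (x + v)

/-- (M1f) Schwartz functions -/
def StmtSch : Prop := ∀ κ : ℝ, 0 < κ → ∀ φ : 𝓢(ℂ, ℂ),
  (∀ᵐ x, (S κ (φ.toLp 2) : ℂ → ℂ) x = Sk κ φ x) ∧ ∃ ψ : 𝓢(ℂ, ℂ), ∀ z, Sk κ φ z = ψ z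

/-! ### M2: the symbols and the difference quotients -/

/-- (M2a) the symbols -/
def StmtSym : Prop := ∀ κ : ℝ, 0 < κ →
  Bd (aS κ) (1 / κ ^ 2) ∧ Bd (sS κ) 1 ∧ (∀ e, Bd (dS κ e) (‖e‖ ^ 2)) ∧ (∀ v, Bd (trS v) 1) ∧
    (∀ h : H, h = ((κ ^ 2 : ℝ) : ℂ) • A κ h + Dd κ 1 h + Dd κ Complex.I h) ∧
    (∀ h : H, S κ h = Dd κ 1 h - Dd κ Complex.I h -
      Complex.I • (Dd κ (1 + Complex.I) h - Dd κ 1 h - Dd κ Complex.I h))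

/-- (M2b) the difference quotients -/
def StmtDif : Prop := ∀ κ : ℝ, 0 < κ → ∀ (e : ℂ) (h : H) (t : ℕ → ℝ), (∀ k, t k ≠ 0) →
  Tendsto t atTop (𝓝 0) → Tendsto (fun k => dq (t k) e (A κ h)) atTop (𝓝 (Dd κ e h))

/-! ### M3: vanishing -/

/-- (M3a) -/
def StmtVan : Prop := ∀ κ : ℝ, 0 < κ → ∀ (e : ℂ) (h : H),
  ∀ᵐ x, (A κ h : ℂ → ℂ) x = 0 → (Dd κ e h : ℂ → ℂ) x = 0

/-- (M3b) on the zero set of `w = A h` also `h = (κ² - Δ) w` and `S h = - 4 ∂² w` vanish -/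
def StmtVan2 : Prop := ∀ κ : ℝ, 0 < κ → ∀ h : H,
  ∀ᵐ x, (A κ h : ℂ → ℂ) x = 0 → (h : ℂ → ℂ) x = 0 ∧ (S κ h : ℂ → ℂ) x = 0

/-! ### M4: the test lemma -/

/-- (M4a) monotonicity of `Nf` -/
def StmtNf : Prop := ∀ s : ℝ, 0 < s → ∀ a b : ℂ,
  0 ≤ ((a - b) * starRingEnd ℂ (Nf s a - Nf s b)).re ∧ ‖Nf s a - Nf s b‖ ≤ ‖a - b‖ / s ∧
    ‖Nf s a‖ ≤ 1 ∧ ‖Nf s a‖ ≤ ‖a‖ / s

/-- (M4b) `Re ⟨h, N(A h)⟩ ≥ 0` -/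
def StmtTst : Prop := ∀ κ : ℝ, 0 < κ → ∀ (h : H) (s : ℝ), 0 < s →
  0 ≤ ∫ x, ((h : ℂ → ℂ) x * starRingEnd ℂ (Nf s ((A κ h : ℂ → ℂ) x))).re

/-! ### M5: the obstacle problem -/

/-- (M5a) the regularised problem -/
def StmtObsE : Prop := ∀ κ ε : ℝ, 0 < κ → 0 < ε → ∀ φ : H, ∃ g : H,
  ∀ᵐ x, (g : ℂ → ℂ) x = Nf ε ((A κ (φ - g) : ℂ → ℂ) x)

/-- (M5b) the obstacle problem -/
def StmtObs : Prop := ∀ κ : ℝ, 0 < κ → ∀ φ : H, ∃ g : H, (∀ᵐ x, ‖(g : ℂ → ℂ) x‖ ≤ 1) ∧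
  ∀ᵐ x, (A κ (φ - g) : ℂ → ℂ) x ≠ 0 →
    (g : ℂ → ℂ) x = (A κ (φ - g) : ℂ → ℂ) x / (‖(A κ (φ - g) : ℂ → ℂ) x‖ : ℂ)

/-! ### M6: the main inequality -/

/-- (M6a) mass -/
def StmtMass : Prop := ∀ κ : ℝ, 0 < κ → ∀ φ g : H, Integrable (φ : ℂ → ℂ) volume →
  (∀ᵐ x, ‖(g : ℂ → ℂ) x‖ ≤ 1) →
  (∀ᵐ x, (A κ (φ - g) : ℂ → ℂ) x ≠ 0 →
    (g : ℂ → ℂ) x = (A κ (φ - g) : ℂ → ℂ) x / (‖(A κ (φ - g) : ℂ → ℂ) x‖ : ℂ)) →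
  volume {x | (A κ (φ - g) : ℂ → ℂ) x ≠ 0} < ⊤ ∧
    (volume {x | (A κ (φ - g) : ℂ → ℂ) x ≠ 0}).toReal ≤
      ∫ x in {x | (A κ (φ - g) : ℂ → ℂ) x ≠ 0}, ‖(φ : ℂ → ℂ) x‖

/-- (M6b) the inequality of Šverák, Baernstein and Montgomery-Smith for `S` in `L¹ ∩ L²` -/
def StmtMain : Prop := ∀ κ : ℝ, 0 < κ → ∀ φ : H, Integrable (φ : ℂ → ℂ) volume →
  Integrable (fun x => Lf ‖(φ : ℂ → ℂ) x‖ ‖(S κ φ : ℂ → ℂ) x‖) volume ∧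
    0 ≤ ∫ x, Lf ‖(φ : ℂ → ℂ) x‖ ‖(S κ φ : ℂ → ℂ) x‖

/-! ### M7: the function `Lf` -/

/-- (M7a) elementary -/
def StmtLf : Prop := (∀ x y : ℝ, 0 ≤ x → 0 ≤ y → 2 * x - 1 ≤ Lf x y) ∧
  (∀ x y : ℝ, 0 ≤ x → x ≤ 1 → 0 ≤ y → x ^ 2 - y ^ 2 ≤ Lf x y) ∧
  (∀ x y : ℝ, 0 ≤ x → 0 ≤ y → |Lf x y| ≤ 4 * (x ^ 2 + y ^ 2)) ∧
  Measurable (fun z : ℝ × ℝ => Lf z.1 z.2)

/-- (M7b) superposition -/
def StmtSpp : Prop := ∀ p x y : ℝ, 1 < p → p < 2 → 0 ≤ x → 0 ≤ y →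
  IntegrableOn (fun t : ℝ => t ^ (p - 1) * Lf (x / t) (y / t)) (Ioi 0) ∧
    ∫ t in Ioi (0 : ℝ), t ^ (p - 1) * Lf (x / t) (y / t) =
      2 / (p * (2 - p)) * ((x + y) ^ (p - 1) * (x / (p - 1) - y))

/-- (M7c) the bound for Fubini -/
def StmtSppB : Prop := ∀ p : ℝ, 1 < p → p < 2 → ∃ C : ℝ, 0 ≤ C ∧ ∀ x y : ℝ, 0 ≤ x → 0 ≤ y →
  ∫⁻ t in Ioi (0 : ℝ), ENNReal.ofReal (t ^ (p - 1) * |Lf (x / t) (y / t)|) ≤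
    ENNReal.ofReal (C * (x + y) ^ p)

/-- (M7d) Burkholder's inequality, `1 < p < 2` -/
def StmtBur : Prop := ∀ p x y : ℝ, 1 < p → p < 2 → 0 ≤ x → 0 ≤ y →
  p ^ (2 - p) * ((x + y) ^ (p - 1) * (x / (p - 1) - y)) ≤ (x / (p - 1)) ^ p - y ^ p

/-! ### M8, M9, M10: the norm bounds -/

/-- (M8) `S` on Schwartz functions, `1 < p < 2` -/
def StmtSup : Prop := ∀ κ p : ℝ, 0 < κ → 1 < p → p < 2 → ∀ φ : 𝓢(ℂ, ℂ),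
  eLpNorm (Sk κ φ) (ENNReal.ofReal p) volume ≤
    ENNReal.ofReal (1 / (p - 1)) * eLpNorm φ (ENNReal.ofReal p) volume

/-- (M9a) `κ → 0` -/
def StmtKap : Prop := ∀ (φ : 𝓢(ℂ, ℂ)) (z : ℂ),
  Tendsto (fun k : ℕ => Sk (1 / ((k : ℝ) + 1)) φ z) atTop (𝓝 (T φ z))

/-- (M9b) `T` on Schwartz functions, `1 < p < 2` -/
def StmtLow : Prop := ∀ p : ℝ, 1 < p → p < 2 → ∀ φ : 𝓢(ℂ, ℂ),
  eLpNorm (T φ) (ENNReal.ofReal p) volume ≤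
    ENNReal.ofReal (1 / (p - 1)) * eLpNorm φ (ENNReal.ofReal p) volume

/-- (M10) Iwaniec's conjecture -/
def StmtIwa : Prop := ∀ p : ℝ, 2 ≤ p → ∀ φ : 𝓢(ℂ, ℂ),
  eLpNorm (T φ) (ENNReal.ofReal p) volume ≤
    ENNReal.ofReal (p - 1) * eLpNorm φ (ENNReal.ofReal p) volume

end Pool.Agent.Lib.IWC
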